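import Pool.Agent.Work.NumU.Node

/-!
# Numerics with values of `UU`: expressions and checker

The same as `NumI.Expr` with two more constructors: `uu x t` is `UU (x + i t)` (`0 < x < 1`,
`|x + i t|^2 ≤ 1/2` or `|1 - x - i t|^2 ≤ 1/2`), `emb e` is an expression of `NumI`.
Usage: `open NumU`, ranges `NumI.V.of N lo hi k`, search with `#eval cnt [e] fuel box`, proof with
`chk1`, ..., `chk5`.
-/

namespace Pool.Agent.Work.NumU

open NumI (A G V R3 LS lkR lkA op0 op1 op2 op3 op0_some op1_some op2_some op3_some Encl_lk posO posA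
  posA_spec mkEnv mkEnv_spec eps_le setL setR set_split best gradO lkR_zero lkR_one lkR_succ)

/-- expressions -/
inductive E where
  | var : ℕ → E
  | q : ℤ → ℕ → E
  | pi : E
  | add : E → E → E
  | sub : E → E → E
  | mul : E → E → E
  | neg : E → E
  | inv : E → E
  | sq : E → E
  | cosPi : E → E
  | sinPi : E → E
  | exp : E → E
  | log : E → E
  | cosh : E → E
  | sinh : E → E
  | atan : E → E
  | lnA : E → E → E
  | lnB : E → E → E
  | lt : E → E → E
  | uu : E → E → E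
  | emb : NumI.E → E

namespace E

/-- the real value -/
noncomputable def val : E → List ℝ → ℝ
  | var i, xs => lkR xs i
  | q n d, _ => (n : ℝ) / d
  | pi, _ => Real.pi
  | add a b, xs => a.val xs + b.val xs
  | sub a b, xs => a.val xs - b.val xs
  | mul a b, xs => a.val xs * b.val xs
  | neg a, xs => -a.val xs
  | inv a, xs => (a.val xs)⁻¹
  | sq a, xs => (a.val xs) ^ 2
  | cosPi a, xs => Real.cos (Real.pi * a.val xs)
  | sinPi a, xs => Real.sin (Real.pi * a.val xs)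
  | exp a, xs => Real.exp (a.val xs)
  | log a, xs => Real.log (a.val xs)
  | cosh a, xs => Real.cosh (a.val xs)
  | sinh a, xs => Real.sinh (a.val xs)
  | atan a, xs => Real.arctan (a.val xs)
  | lnA a b, xs => NumI.lnA (a.val xs) (b.val xs)
  | lnB a b, xs => NumI.lnB (a.val xs) (b.val xs)
  | lt a b, xs => b.val (xs ++ [a.val xs])
  | uu a b, xs => NumU.uu (a.val xs) (b.val xs)
  | emb e, xs => e.val xs

end E

/-- evaluation with affine forms -/
def E.ev : E → List A → Option A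
  | E.var i, xs => some (lkA xs i)
  | E.q n d, _ => some (A.cst n d)
  | E.pi, _ => some A.pi
  | E.add a b, xs => op2 A.add (a.ev xs) (b.ev xs)
  | E.sub a b, xs => op2 A.sub (a.ev xs) (b.ev xs)
  | E.mul a b, xs => op2 A.mul (a.ev xs) (b.ev xs)
  | E.neg a, xs => op1 A.neg (a.ev xs)
  | E.inv a, xs => op0 A.inv (a.ev xs)
  | E.sq a, xs => op1 A.sqn (a.ev xs)
  | E.cosPi a, xs => op1 A.cosPi (a.ev xs)
  | E.sinPi a, xs => op1 A.sinPi (a.ev xs)
  | E.exp a, xs => op0 A.exp (a.ev xs)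
  | E.log a, xs => op0 A.log (a.ev xs)
  | E.cosh a, xs => op0 (A.hyp true) (a.ev xs)
  | E.sinh a, xs => op0 (A.hyp false) (a.ev xs)
  | E.atan a, xs => op0 A.atan (a.ev xs)
  | E.lnA a b, xs => op3 A.lnA (a.ev xs) (b.ev xs)
  | E.lnB a b, xs => op3 A.lnB (a.ev xs) (b.ev xs)
  | E.lt a b, xs => match a.ev xs with
    | none => none
    | some c => b.ev (xs ++ [c])
  | E.uu a b, xs => op3 uuA (a.ev xs) (b.ev xs)
  | E.emb e, xs => NumI.E.ev e xs

theorem E.ev_sound {ε : ℕ → ℝ} (hε : ∀ i, |ε i| ≤ 1) : ∀ (e : E) {as : List A} {xs : List ℝ} {c : A},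
    List.Forall₂ (fun a x => a.Encl ε x) as xs → e.ev as = some c → c.Encl ε (e.val xs)
  | E.var i, as, xs, c, h, he => by
    have := Option.some.inj he
    rw [← this]; exact Encl_lk h i
  | E.q n d, as, xs, c, h, he => by
    have := Option.some.inj he
    rw [← this]; exact A.Encl_cst n d ε
  | E.pi, as, xs, c, h, he => by
    have := Option.some.inj he
    rw [← this]; exact A.Encl_pi ε
  | E.add a b, as, xs, c, h, he => by
    obtain ⟨u, v, hu, hv, rfl⟩ := op2_some he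
    exact (E.ev_sound hε a h hu).add (E.ev_sound hε b h hv)
  | E.sub a b, as, xs, c, h, he => by
    obtain ⟨u, v, hu, hv, rfl⟩ := op2_some he
    exact (E.ev_sound hε a h hu).sub (E.ev_sound hε b h hv)
  | E.mul a b, as, xs, c, h, he => by
    obtain ⟨u, v, hu, hv, rfl⟩ := op2_some he
    exact (E.ev_sound hε a h hu).mul hε (E.ev_sound hε b h hv)
  | E.neg a, as, xs, c, h, he => by
    obtain ⟨u, hu, rfl⟩ := op1_some he
    exact (E.ev_sound hε a h hu).neg
  | E.inv a, as, xs, c, h, he => by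
    obtain ⟨u, hu, hc⟩ := op0_some he
    exact (E.ev_sound hε a h hu).inv hε hc
  | E.sq a, as, xs, c, h, he => by
    obtain ⟨u, hu, rfl⟩ := op1_some he
    exact ((E.ev_sound hε a h hu).nf).sq hε (A.nf_normal u)
  | E.cosPi a, as, xs, c, h, he => by
    obtain ⟨u, hu, rfl⟩ := op1_some he
    exact (E.ev_sound hε a h hu).cosPi hε
  | E.sinPi a, as, xs, c, h, he => by
    obtain ⟨u, hu, rfl⟩ := op1_some he
    exact (E.ev_sound hε a h hu).sinPi hε
  | E.exp a, as, xs, c, h, he => by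
    obtain ⟨u, hu, hc⟩ := op0_some he
    exact (E.ev_sound hε a h hu).exp hε hc
  | E.log a, as, xs, c, h, he => by
    obtain ⟨u, hu, hc⟩ := op0_some he
    exact (E.ev_sound hε a h hu).log hε hc
  | E.cosh a, as, xs, c, h, he => by
    obtain ⟨u, hu, hc⟩ := op0_some he
    exact (E.ev_sound hε a h hu).hyp hε hc
  | E.sinh a, as, xs, c, h, he => by
    obtain ⟨u, hu, hc⟩ := op0_some he
    exact (E.ev_sound hε a h hu).hyp hε hc
  | E.atan a, as, xs, c, h, he => by
    obtain ⟨u, hu, hc⟩ := op0_some he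
    exact (E.ev_sound hε a h hu).atan hε hc
  | E.lnA a b, as, xs, c, h, he => by
    obtain ⟨u, v, hu, hv, hc⟩ := op3_some he
    exact (E.ev_sound hε a h hu).lnA hε (E.ev_sound hε b h hv) hc
  | E.lnB a b, as, xs, c, h, he => by
    obtain ⟨u, v, hu, hv, hc⟩ := op3_some he
    exact (E.ev_sound hε a h hu).lnB hε (E.ev_sound hε b h hv) hc
  | E.lt a b, as, xs, c, h, he => by
    unfold E.ev at he
    rcases ha : a.ev as with _ | u
    · rw [ha] at he; exact absurd he (by simp)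
    · rw [ha] at he
      have h1 := E.ev_sound hε a h ha
      have h2 : List.Forall₂ (fun a x => a.Encl ε x) (as ++ [u]) (xs ++ [a.val xs]) :=
        List.rel_append h (List.Forall₂.cons h1 List.Forall₂.nil)
      exact E.ev_sound hε b h2 he
  | E.uu a b, as, xs, c, h, he => by
    obtain ⟨u, v, hu, hv, hc⟩ := op3_some he
    exact uuA_spec hε (E.ev_sound hε a h hu) (E.ev_sound hε b h hv) hc
  | E.emb e, as, xs, c, h, he => NumI.E.ev_sound hε e h he

/-! ### the checker -/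

def tryE (env : List A) : List E → Bool
  | [] => false
  | e :: es => cond (posO (e.ev env)) true (tryE env es)

lemma tryE_spec {env : List A} {ε : ℕ → ℝ} {xs : List ℝ} (hε : ∀ i, |ε i| ≤ 1)
    (henv : List.Forall₂ (fun a x => a.Encl ε x) env xs) :
    ∀ {es : List E}, tryE env es = true → ∃ e ∈ es, 0 < e.val xs
  | [], h => absurd h (by simp [tryE])
  | e :: es, h => by
    unfold tryE at h
    rcases h1 : posO (e.ev env) with _ | _
    · rw [h1, cond_false] at h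
      obtain ⟨e', he', hp⟩ := tryE_spec hε henv h
      exact ⟨e', List.mem_cons_of_mem _ he', hp⟩
    · rcases h2 : e.ev env with _ | c
      · rw [h2] at h1; exact absurd h1 (by simp [posO])
      · rw [h2] at h1
        exact ⟨e, List.mem_cons_self, posA_spec hε (E.ev_sound hε e henv h2) h1⟩

def grad1 (env : List A) : List E → G
  | [] => G.nil
  | e :: _ => gradO (e.ev env)

/-- the checker: bisect until one of the expressions is positive -/
def chk (es : List E) : ℕ → List V → Bool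
  | 0, _ => false
  | n + 1, vs =>
    cond (tryE (mkEnv 0 vs) es) true
      (cond (chk es n (setL (best vs (grad1 (mkEnv 0 vs) es) 0 0 0) vs))
        (chk es n (setR (best vs (grad1 (mkEnv 0 vs) es) 0 0 0) vs)) false)

theorem chk_sound {es : List E} : ∀ {n : ℕ} {vs : List V}, chk es n vs = true →
    ∀ {xs : List ℝ}, List.Forall₂ V.Mem vs xs → ∃ e ∈ es, 0 < e.val xs
  | 0, vs, h, xs, hx => absurd h (by simp [chk])
  | n + 1, vs, h, xs, hx => by
    unfold chk at h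
    rcases h1 : tryE (mkEnv 0 vs) es with _ | _
    · rw [h1, cond_false] at h
      set i := best vs (grad1 (mkEnv 0 vs) es) 0 0 0
      rcases h2 : chk es n (setL i vs) with _ | _
      · rw [h2] at h; exact absurd h (by simp)
      · rw [h2, cond_true] at h
        rcases set_split (i := i) hx with h3 | h3
        · exact chk_sound h2 h3
        · exact chk_sound h h3
    · have he := eps_le hx
      exact tryE_spec he (mkEnv_spec hx (fun n => rfl)) h1

/-! ### interface -/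

/-- the result for boxes `Fin n → ℚ × ℚ` -/
theorem chk_box {n : ℕ} {es : List E} {fuel : ℕ} {b : Fin n → ℚ × ℚ} {k : ℕ}
    (h : chk es fuel (List.ofFn fun i => V.ofQ (b i).1 (b i).2 k) = true)
    {x : Fin n → ℝ} (hx : ∀ i, ((b i).1 : ℝ) ≤ x i ∧ x i ≤ ((b i).2 : ℝ)) :
    ∃ e ∈ es, 0 < e.val (List.ofFn x) := by
  refine chk_sound h ?_
  rw [List.forall₂_iff_get]
  refine ⟨by simp, fun i h1 h2 => ?_⟩
  simp only [List.get_eq_getElem, List.getElem_ofFn]
  exact V.ofQ_mem (hx _).1 (hx _).2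

theorem chk1 {es : List E} {fuel N : ℕ} {l1 h1 : ℤ} {k1 : ℕ}
    (h : chk es fuel [V.of N l1 h1 k1] = true) (hN : 0 < N) {x : ℝ}
    (a1 : (l1 : ℝ) / N ≤ x) (b1 : x ≤ (h1 : ℝ) / N) : ∃ e ∈ es, 0 < e.val [x] :=
  chk_sound h (List.Forall₂.cons (V.of_mem hN a1 b1) List.Forall₂.nil)

theorem chk2 {es : List E} {fuel N : ℕ} {l1 h1 l2 h2 : ℤ} {k1 k2 : ℕ}
    (h : chk es fuel [V.of N l1 h1 k1, V.of N l2 h2 k2] = true) (hN : 0 < N) {x y : ℝ}
    (a1 : (l1 : ℝ) / N ≤ x) (b1 : x ≤ (h1 : ℝ) / N)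
    (a2 : (l2 : ℝ) / N ≤ y) (b2 : y ≤ (h2 : ℝ) / N) : ∃ e ∈ es, 0 < e.val [x, y] :=
  chk_sound h (List.Forall₂.cons (V.of_mem hN a1 b1) (List.Forall₂.cons (V.of_mem hN a2 b2)
    List.Forall₂.nil))

theorem chk3 {es : List E} {fuel N : ℕ} {l1 h1 l2 h2 l3 h3 : ℤ} {k1 k2 k3 : ℕ}
    (h : chk es fuel [V.of N l1 h1 k1, V.of N l2 h2 k2, V.of N l3 h3 k3] = true) (hN : 0 < N)
    {x y z : ℝ} (a1 : (l1 : ℝ) / N ≤ x) (b1 : x ≤ (h1 : ℝ) / N)
    (a2 : (l2 : ℝ) / N ≤ y) (b2 : y ≤ (h2 : ℝ) / N)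
    (a3 : (l3 : ℝ) / N ≤ z) (b3 : z ≤ (h3 : ℝ) / N) : ∃ e ∈ es, 0 < e.val [x, y, z] :=
  chk_sound h (List.Forall₂.cons (V.of_mem hN a1 b1) (List.Forall₂.cons (V.of_mem hN a2 b2)
    (List.Forall₂.cons (V.of_mem hN a3 b3) List.Forall₂.nil)))

theorem chk4 {es : List E} {fuel N : ℕ} {l1 h1 l2 h2 l3 h3 l4 h4 : ℤ} {k1 k2 k3 k4 : ℕ}
    (h : chk es fuel [V.of N l1 h1 k1, V.of N l2 h2 k2, V.of N l3 h3 k3, V.of N l4 h4 k4] = true)
    (hN : 0 < N) {x y z w : ℝ} (a1 : (l1 : ℝ) / N ≤ x) (b1 : x ≤ (h1 : ℝ) / N)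
    (a2 : (l2 : ℝ) / N ≤ y) (b2 : y ≤ (h2 : ℝ) / N)
    (a3 : (l3 : ℝ) / N ≤ z) (b3 : z ≤ (h3 : ℝ) / N)
    (a4 : (l4 : ℝ) / N ≤ w) (b4 : w ≤ (h4 : ℝ) / N) : ∃ e ∈ es, 0 < e.val [x, y, z, w] :=
  chk_sound h (List.Forall₂.cons (V.of_mem hN a1 b1) (List.Forall₂.cons (V.of_mem hN a2 b2)
    (List.Forall₂.cons (V.of_mem hN a3 b3) (List.Forall₂.cons (V.of_mem hN a4 b4)
      List.Forall₂.nil))))

theorem pos_of_chk {e : E} {xs : List ℝ} (h : ∃ e' ∈ [e], 0 < e'.val xs) :
    0 < e.val xs := by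
  obtain ⟨e', he, hp⟩ := h
  simp only [List.mem_singleton] at he
  rwa [he] at hp

theorem chk5 {es : List E} {fuel N : ℕ} {l1 h1 l2 h2 l3 h3 l4 h4 l5 h5 : ℤ} {k1 k2 k3 k4 k5 : ℕ}
    (h : chk es fuel [V.of N l1 h1 k1, V.of N l2 h2 k2, V.of N l3 h3 k3, V.of N l4 h4 k4,
      V.of N l5 h5 k5] = true)
    (hN : 0 < N) {x y z w u : ℝ} (a1 : (l1 : ℝ) / N ≤ x) (b1 : x ≤ (h1 : ℝ) / N)
    (a2 : (l2 : ℝ) / N ≤ y) (b2 : y ≤ (h2 : ℝ) / N)
    (a3 : (l3 : ℝ) / N ≤ z) (b3 : z ≤ (h3 : ℝ) / N)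
    (a4 : (l4 : ℝ) / N ≤ w) (b4 : w ≤ (h4 : ℝ) / N)
    (a5 : (l5 : ℝ) / N ≤ u) (b5 : u ≤ (h5 : ℝ) / N) : ∃ e ∈ es, 0 < e.val [x, y, z, w, u] :=
  chk_sound h (List.Forall₂.cons (V.of_mem hN a1 b1) (List.Forall₂.cons (V.of_mem hN a2 b2)
    (List.Forall₂.cons (V.of_mem hN a3 b3) (List.Forall₂.cons (V.of_mem hN a4 b4)
      (List.Forall₂.cons (V.of_mem hN a5 b5) List.Forall₂.nil)))))

/-- number of boxes (for `#eval` only) -/
def cnt (es : List E) : ℕ → List V → ℕ
  | 0, _ => 1000000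
  | n + 1, vs =>
    if tryE (mkEnv 0 vs) es then 1 else
      let i := best vs (grad1 (mkEnv 0 vs) es) 0 0 0
      cnt es n (setL i vs) + cnt es n (setR i vs)

/-- the first box on which the search fails, in units `1 / 2^36` (for `#eval` only) -/
def bad (es : List E) : ℕ → List V → Option (List (ℤ × ℤ))
  | 0, vs => some (vs.map fun v => ((v.p : ℤ) - v.q + v.a, (v.p : ℤ) - v.q + v.b))
  | n + 1, vs =>
    if tryE (mkEnv 0 vs) es then none else
      let i := best vs (grad1 (mkEnv 0 vs) es) 0 0 0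
      match bad es n (setL i vs) with
      | some r => some r
      | none => bad es n (setR i vs)

end Pool.Agent.Work.NumU
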