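import Pool.Agent.Work.NumU.Expr

/-!
# The checker with a certificate: the split tree is given as a number

The certificate is the list of the digits (base 16, least significant first) of the tree in
preorder: a digit `i < 8` splits the variable `i`, the digit `8 + i` is a leaf on which the
expression number `i` is positive.  Every leaf is evaluated once, inner nodes are not evaluated.
Find certificates with `#eval cert es fuel box`, prove with `decide +kernel`, `chkT4`.
-/

namespace Pool.Agent.Work.NumU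

open NumI (A G V R3 LS lkR lkA posO posA posA_spec mkEnv mkEnv_spec eps_le setL setR set_split)

/-- the expression number `i` -/
def nth : List E → ℕ → E
  | [], _ => E.q 0 1
  | e :: _, 0 => e
  | _ :: es, n + 1 => nth es n

theorem nth_spec : ∀ (es : List E) (i : ℕ) {xs : List ℝ}, 0 < (nth es i).val xs →
    ∃ e ∈ es, 0 < e.val xs
  | [], i, xs, h => by
    simp only [nth, E.val] at h
    norm_num at h
  | e :: es, 0, xs, h => ⟨e, List.mem_cons_self, h⟩
  | e :: es, i + 1, xs, h => by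
    obtain ⟨e', he, hp⟩ := nth_spec es i h
    exact ⟨e', List.mem_cons_of_mem _ he, hp⟩

/-- `0`: failure, `c + 1`: success, `c` is the rest of the certificate -/
def runT (es : List E) : ℕ → ℕ → List V → ℕ
  | 0, _, _ => 0
  | n + 1, c, vs =>
    cond (Nat.ble 8 (Nat.mod c 16))
      (cond (posO ((nth es (Nat.sub (Nat.mod c 16) 8)).ev (mkEnv 0 vs)))
        (Nat.add (Nat.div c 16) 1) 0)
      (match runT es n (Nat.div c 16) (setL (Nat.mod c 16) vs) with
        | 0 => 0
        | c' + 1 => runT es n c' (setR (Nat.mod c 16) vs))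

/-- the checker with the certificate `c` -/
def chkT (es : List E) (n c : ℕ) (vs : List V) : Bool := Nat.ble 1 (runT es n c vs)

theorem leaf_sound {e : E} {vs : List V} (h : posO (e.ev (mkEnv 0 vs)) = true)
    {xs : List ℝ} (hx : List.Forall₂ V.Mem vs xs) : 0 < e.val xs := by
  have hε := eps_le hx
  rcases h2 : e.ev (mkEnv 0 vs) with _ | c
  · rw [h2] at h; exact absurd h (by simp [posO])
  · rw [h2] at h
    exact posA_spec hε (E.ev_sound hε e (mkEnv_spec hx (fun n => rfl)) h2) h

theorem runT_sound {es : List E} : ∀ {n c : ℕ} {vs : List V}, runT es n c vs ≠ 0 →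
    ∀ {xs : List ℝ}, List.Forall₂ V.Mem vs xs → ∃ e ∈ es, 0 < e.val xs
  | 0, c, vs, h, xs, hx => absurd rfl h
  | n + 1, c, vs, h, xs, hx => by
    unfold runT at h
    rcases hb : Nat.ble 8 (Nat.mod c 16) with _ | _
    · rw [hb, cond_false] at h
      rcases h1 : runT es n (Nat.div c 16) (setL (Nat.mod c 16) vs) with _ | c'
      · rw [h1] at h; exact absurd rfl h
      · rw [h1] at h
        rcases set_split (i := Nat.mod c 16) hx with h3 | h3
        · exact runT_sound (by rw [h1]; exact Nat.succ_ne_zero _) h3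
        · exact runT_sound h h3
    · rw [hb, cond_true] at h
      rcases hp : posO ((nth es (Nat.sub (Nat.mod c 16) 8)).ev (mkEnv 0 vs)) with _ | _
      · rw [hp, cond_false] at h; exact absurd rfl h
      · exact nth_spec es _ (leaf_sound hp hx)

theorem chkT_sound {es : List E} {n c : ℕ} {vs : List V} (h : chkT es n c vs = true)
    {xs : List ℝ} (hx : List.Forall₂ V.Mem vs xs) : ∃ e ∈ es, 0 < e.val xs := by
  refine runT_sound (n := n) (c := c) ?_ hx
  unfold chkT at h
  have := Nat.le_of_ble_eq_true h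
  omega

theorem chkT2 {es : List E} {fuel c N : ℕ} {l1 h1 l2 h2 : ℤ} {k1 k2 : ℕ}
    (h : chkT es fuel c [V.of N l1 h1 k1, V.of N l2 h2 k2] = true) (hN : 0 < N) {x y : ℝ}
    (a1 : (l1 : ℝ) / N ≤ x) (b1 : x ≤ (h1 : ℝ) / N)
    (a2 : (l2 : ℝ) / N ≤ y) (b2 : y ≤ (h2 : ℝ) / N) : ∃ e ∈ es, 0 < e.val [x, y] :=
  chkT_sound h (List.Forall₂.cons (V.of_mem hN a1 b1) (List.Forall₂.cons (V.of_mem hN a2 b2)
    List.Forall₂.nil))

theorem chkT3 {es : List E} {fuel c N : ℕ} {l1 h1 l2 h2 l3 h3 : ℤ} {k1 k2 k3 : ℕ}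
    (h : chkT es fuel c [V.of N l1 h1 k1, V.of N l2 h2 k2, V.of N l3 h3 k3] = true) (hN : 0 < N)
    {x y z : ℝ} (a1 : (l1 : ℝ) / N ≤ x) (b1 : x ≤ (h1 : ℝ) / N)
    (a2 : (l2 : ℝ) / N ≤ y) (b2 : y ≤ (h2 : ℝ) / N)
    (a3 : (l3 : ℝ) / N ≤ z) (b3 : z ≤ (h3 : ℝ) / N) : ∃ e ∈ es, 0 < e.val [x, y, z] :=
  chkT_sound h (List.Forall₂.cons (V.of_mem hN a1 b1) (List.Forall₂.cons (V.of_mem hN a2 b2)
    (List.Forall₂.cons (V.of_mem hN a3 b3) List.Forall₂.nil)))

theorem chkT4 {es : List E} {fuel c N : ℕ} {l1 h1 l2 h2 l3 h3 l4 h4 : ℤ} {k1 k2 k3 k4 : ℕ}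
    (h : chkT es fuel c [V.of N l1 h1 k1, V.of N l2 h2 k2, V.of N l3 h3 k3, V.of N l4 h4 k4] = true)
    (hN : 0 < N) {x y z w : ℝ} (a1 : (l1 : ℝ) / N ≤ x) (b1 : x ≤ (h1 : ℝ) / N)
    (a2 : (l2 : ℝ) / N ≤ y) (b2 : y ≤ (h2 : ℝ) / N)
    (a3 : (l3 : ℝ) / N ≤ z) (b3 : z ≤ (h3 : ℝ) / N)
    (a4 : (l4 : ℝ) / N ≤ w) (b4 : w ≤ (h4 : ℝ) / N) : ∃ e ∈ es, 0 < e.val [x, y, z, w] :=
  chkT_sound h (List.Forall₂.cons (V.of_mem hN a1 b1) (List.Forall₂.cons (V.of_mem hN a2 b2)
    (List.Forall₂.cons (V.of_mem hN a3 b3) (List.Forall₂.cons (V.of_mem hN a4 b4)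
      List.Forall₂.nil))))

theorem chkT5 {es : List E} {fuel c N : ℕ} {l1 h1 l2 h2 l3 h3 l4 h4 l5 h5 : ℤ} {k1 k2 k3 k4 k5 : ℕ}
    (h : chkT es fuel c [V.of N l1 h1 k1, V.of N l2 h2 k2, V.of N l3 h3 k3, V.of N l4 h4 k4,
      V.of N l5 h5 k5] = true)
    (hN : 0 < N) {x y z w u : ℝ} (a1 : (l1 : ℝ) / N ≤ x) (b1 : x ≤ (h1 : ℝ) / N)
    (a2 : (l2 : ℝ) / N ≤ y) (b2 : y ≤ (h2 : ℝ) / N)
    (a3 : (l3 : ℝ) / N ≤ z) (b3 : z ≤ (h3 : ℝ) / N)
    (a4 : (l4 : ℝ) / N ≤ w) (b4 : w ≤ (h4 : ℝ) / N)
    (a5 : (l5 : ℝ) / N ≤ u) (b5 : u ≤ (h5 : ℝ) / N) : ∃ e ∈ es, 0 < e.val [x, y, z, w, u] :=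
  chkT_sound h (List.Forall₂.cons (V.of_mem hN a1 b1) (List.Forall₂.cons (V.of_mem hN a2 b2)
    (List.Forall₂.cons (V.of_mem hN a3 b3) (List.Forall₂.cons (V.of_mem hN a4 b4)
      (List.Forall₂.cons (V.of_mem hN a5 b5) List.Forall₂.nil)))))

/-! ### search (for `#eval` only) -/

/-- first alternative which is positive -/
def fstPos (env : List A) : List E → ℕ → Option ℕ
  | [], _ => none
  | e :: es, i => if posO (e.ev env) then some i else fstPos env es (i + 1)

/-- best lower bound (negative), `none` if nothing can be evaluated -/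
def lowB (env : List A) : List E → Option ℤ
  | [] => none
  | e :: es =>
    let r := lowB env es
    match e.ev env with
    | none => r
    | some a =>
      let s : ℤ := (a.p : ℤ) - a.q - a.tot
      match r with
      | none => some s
      | some t => some (max s t)

/-- score of a box: `0` if it is finished, otherwise the lower bound of the first `m` expressions -/
def scoreB (m : ℕ) (es : List E) (vs : List V) : ℤ :=
  match fstPos (mkEnv 0 vs) es 0 with
  | some _ => 0
  | none =>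
    match lowB (mkEnv 0 vs) (es.take m) with
    | none => -(2 ^ 60)
    | some s => s

/-- the variable with the best score of the two halves -/
def pick (m : ℕ) (es : List E) (vs : List V) : ℕ :=
  let r := (List.range vs.length).foldl (fun (b : ℕ × ℤ × ℕ) i =>
    let l := setL i vs
    let s := scoreB m es l + scoreB m es (setR i vs)
    let w := match vs[i]? with
      | some v => v.b - v.a
      | none => 0
    if b.2.1 < s ∨ (b.2.1 = s ∧ b.2.2 < w) then (i, s, w) else b) (0, -(2 ^ 62), 0)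
  r.1

/-- digits of the certificate in preorder -/
def digs (m : ℕ) (es : List E) : ℕ → List V → Option (List ℕ)
  | 0, _ => none
  | n + 1, vs =>
    match fstPos (mkEnv 0 vs) es 0 with
    | some i => some [8 + i]
    | none =>
      let i := pick m es vs
      match digs m es n (setL i vs) with
      | none => none
      | some l =>
        match digs m es n (setR i vs) with
        | none => none
        | some r => some (i :: (l ++ r))

/-- number of leaves and the certificate; `m` the number of main expressions -/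
def cert (es : List E) (fuel : ℕ) (vs : List V) (m : ℕ := 1) : Option (ℕ × ℕ) :=
  (digs m es fuel vs).map fun l =>
    ((l.filter fun d => 8 ≤ d).length, l.foldr (fun d c => d + 16 * c) 0)

end Pool.Agent.Work.NumU
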