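import Pool.Agent.Work.NumU.Tree

/-!
# Checking a certificate tree in pieces

A certificate tree of `NumU.Tree` can be checked in pieces, each by a theorem of its own: a piece
is an equation `runT es n c vs = c' + 1`, where `c'` is the rest of the certificate.
-/

namespace Pool.Agent.Work.NumU

open NumI (V setL setR)

theorem runT_split {es : List E} {n c i c1 c2 r : ℕ} {vs : List V}
    (hd : Nat.mod c 16 = i) (hi : Nat.ble 8 i = false) (hc : Nat.div c 16 = c1)
    (hl : runT es n c1 (setL i vs) = c2 + 1) (hr : runT es n c2 (setR i vs) = r) :
    runT es (n + 1) c vs = r := by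
  unfold runT
  rw [hd, hi, cond_false, hc, hl]
  exact hr

theorem chkT_of {es : List E} {n c r : ℕ} {vs : List V} (h : runT es n c vs = r + 1) :
    chkT es n c vs = true := by
  unfold chkT
  rw [h]
  exact Nat.ble_eq_true_of_le (Nat.succ_le_succ (Nat.zero_le r))

end Pool.Agent.Work.NumU
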