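import Pool.Agent.Work.NumU.Expr

/-!
# Checking a box in pieces

The checker `chk` of `NumU.Expr` can be run in pieces, each by a theorem of its own: `chk_node`
gives the step at a bisection.
-/

namespace Pool.Agent.Work.NumU

open NumI (V setL setR best mkEnv)

theorem chk_node {es : List E} {n i : ℕ} {vs : List V}
    (hi : Nat.beq (best vs (grad1 (mkEnv 0 vs) es) 0 0 0) i = true)
    (hl : chk es n (setL i vs) = true) (hr : chk es n (setR i vs) = true) :
    chk es (n + 1) vs = true := by
  have h := Nat.eq_of_beq_eq_true hi
  unfold chk
  rw [h, hl, hr, cond_true]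
  cases tryE (mkEnv 0 vs) es <;> rfl

end Pool.Agent.Work.NumU
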