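import Pool.Agent.Work.NumU.Cen3

/-!
# Numerics of `UU`: affine forms
-/

namespace Pool.Agent.Work.NumU

open NumI

/-- value at the centre -/
def uV (X T : A) : Option R3 :=
  let m := Nat.add T.p T.q
  cond (Nat.ble (Nat.mul 2 X.p) 68719476736) (uC X.p m)
    (match uC (Nat.sub 68719476736 X.p) m with
      | none => none
      | some r => some ⟨r.q, r.p, r.e⟩)

theorem uV_spec {X T : A} {t : ℝ} {r : R3} (h : uV X T = some r) (h0 : 0 < X.p)
    (h1 : X.p < 68719476736) (ht : |t * DR - ((T.p : ℝ) + T.q)| ≤ 1) (ht0 : 0 ≤ t) :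
    r.Good (uu ((X.p : ℝ) / DR) t) := by
  have hD := DR_pos
  have hm : |t * DR - ((Nat.add T.p T.q : ℕ) : ℝ)| ≤ 1 := by
    have e : ((Nat.add T.p T.q : ℕ) : ℝ) = (T.p : ℝ) + T.q := by
      change ((T.p + T.q : ℕ) : ℝ) = _
      push_cast; ring
    rw [e]; exact ht
  unfold uV at h
  simp only at h
  rcases h2 : Nat.ble (Nat.mul 2 X.p) 68719476736 with _ | _
  · rw [h2, cond_false] at h
    rcases h3 : uC (Nat.sub 68719476736 X.p) (Nat.add T.p T.q) with _ | r'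
    · rw [h3] at h; exact absurd h (by simp)
    · rw [h3] at h
      have h := Option.some.inj h
      have h4 := uC_spec h3 (show 0 < 68719476736 - X.p by omega) hm ht0
      have e : (((Nat.sub 68719476736 X.p : ℕ) : ℝ)) / DR = 1 - (X.p : ℝ) / DR := by
        change (((68719476736 - X.p : ℕ) : ℝ)) / DR = _
        rw [Nat.cast_sub h1.le, DN_cast]
        field_simp
      rw [e, uu_one_sub] at h4
      have h5 := h4.neg
      rw [neg_neg] at h5
      rw [← h]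
      exact h5
  · rw [h2, cond_true] at h
    exact uC_spec h h0 hm ht0

/-! ### the remainder -/

/-- second order bound -/
def uK (X T : A) (l : LS) : ℕ :=
  let T2 := Nat.add T.tot 1
  let a2 := Nat.mul X.tot X.tot
  let b2 := Nat.mul T2 T2
  let u := l.vU
  let w := l.vW
  Nat.add (Nat.add (Nat.div (Nat.add (Nat.mul (cond (Nat.ble a2 b2) b2 a2) (Nat.add (Nat.add u.p u.q) u.e))
    (Nat.mul (Nat.mul 2 (Nat.mul X.tot T2)) (Nat.add (Nat.add w.p w.q) w.e))) 9444732965739290427392)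
    (Nat.div (Nat.mul (Nat.add X.tot T2) (lnK X T l)) 206158430208)) 2

lemma lnK_pre {X T : A} {l : LS} {x t σ : ℝ} (h : l.Good x t) (hσ : σ = 1 ∨ σ = -1)
    (hs : 9 + 4 * X.tot ≤ l.s) {a b : ℝ} (ha : |a| ≤ (X.tot : ℝ)) (hb : |b| ≤ ((T.tot + 1 : ℕ) : ℝ)) :
    ∃ L2 : ℝ, 0 < L2 ∧ (∀ τ ∈ Set.Icc (0 : ℝ) 1, L2 ≤ MM (x + τ * (a / DR)) (σ * t + τ * (b / DR))) ∧
      Real.pi ^ 2 * ((a / DR) ^ 2 + (b / DR) ^ 2) / L2 / 2 * DR ≤ lnK X T l := by
  have hD := DR_pos
  have hpi := Real.pi_pos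
  have hpi2 := Real.pi_lt_d2
  set T2 := T.tot + 1 with hT2
  set L1 := l.s - (4 + 4 * X.tot) with hL1
  set Lu := l.m - 4 * T2 with hLu
  have hL1r : (L1 : ℝ) = l.s - (4 + 4 * X.tot) := by
    rw [hL1, Nat.cast_sub (by omega)]; push_cast; ring
  have hL1pos : 0 < L1 := by omega
  have hL1pos' : (0 : ℝ) < L1 := by exact_mod_cast hL1pos
  have hab : ∀ c : ℝ, ∀ τ ∈ Set.Icc (0 : ℝ) 1, |τ * c| ≤ |c| := by
    intro c τ hτ
    rw [abs_mul, abs_of_nonneg hτ.1]
    have := abs_nonneg c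
    nlinarith only [hτ, this, hτ.2]
  have hsin : ∀ τ ∈ Set.Icc (0 : ℝ) 1, (L1 : ℝ) / DR ≤ Real.sin (Real.pi * (x + τ * (a / DR))) := by
    intro τ hτ
    have h1 := Real.abs_sin_sub_sin_le (Real.pi * (x + τ * (a / DR))) (Real.pi * x)
    have h2 : |Real.pi * (x + τ * (a / DR)) - Real.pi * x| ≤ 4 * X.tot / DR := by
      have e : Real.pi * (x + τ * (a / DR)) - Real.pi * x = Real.pi * (τ * a) / DR := by ring
      rw [e, abs_div, abs_of_pos hD, abs_mul, abs_of_pos hpi]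
      have := (hab a τ hτ).trans ha
      gcongr
      linarith only [hpi2]
    have h3 := (abs_le.1 (h1.trans h2)).1
    have h4 := (abs_le.1 h.s).2
    have h5 : ((l.s : ℝ) - 4) / DR ≤ Real.sin (Real.pi * x) := by
      rw [div_le_iff₀ hD]
      have := (abs_le.1 h.s).1
      linarith only [this]
    have e : (L1 : ℝ) / DR = ((l.s : ℝ) - 4) / DR - 4 * X.tot / DR := by rw [hL1r]; ring
    rw [e]; linarith only [h3, h5]
  have hsinh : ∀ τ ∈ Set.Icc (0 : ℝ) 1, (Lu : ℝ) / DR ≤ |Real.sinh (Real.pi * (σ * t + τ * (b / DR)))| := by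
    intro τ hτ
    refine le_trans ?_ (abs_le_abs_sinh _)
    have h1 : Real.pi * (σ * t + τ * (b / DR)) = (σ * (Real.pi * t * DR) + Real.pi * (τ * b)) / DR := by
      field_simp
    rw [h1, h.m, abs_div, abs_of_pos hD]
    gcongr
    rcases le_total l.m (4 * T2) with hle | hle
    · rw [hLu, Nat.sub_eq_zero_of_le hle]; simp
    · rw [hLu, Nat.cast_sub hle]
      have h2 : |Real.pi * (τ * b)| ≤ 4 * T2 := by
        rw [abs_mul, abs_of_pos hpi]
        have := (hab b τ hτ).trans hb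
        have := abs_nonneg (τ * b)
        nlinarith
      have h3 : |σ * (l.m : ℝ)| = l.m := by
        rcases hσ with h0 | h0 <;> rw [h0] <;> simp
      have h4 := abs_sub_abs_le_abs_sub (σ * (l.m : ℝ)) (-(Real.pi * (τ * b)))
      rw [abs_neg, sub_neg_eq_add, h3] at h4
      push_cast
      linarith only [h2, h4]
  have hLL : 0 < ((L1 : ℝ) ^ 2 + (Lu : ℝ) ^ 2) / DR ^ 2 := by positivity
  refine ⟨((L1 : ℝ) ^ 2 + (Lu : ℝ) ^ 2) / DR ^ 2, hLL, ?_, ?_⟩
  · intro τ hτ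
    unfold MM
    have h1 := hsin τ hτ
    have h2 := hsinh τ hτ
    have h3 : ((L1 : ℝ) / DR) ^ 2 ≤ Real.sin (Real.pi * (x + τ * (a / DR))) ^ 2 := by gcongr
    have h4 : ((Lu : ℝ) / DR) ^ 2 ≤ Real.sinh (Real.pi * (σ * t + τ * (b / DR))) ^ 2 := by
      rw [← sq_abs (Real.sinh _)]; gcongr
    have e : ((L1 : ℝ) ^ 2 + (Lu : ℝ) ^ 2) / DR ^ 2 = ((L1 : ℝ) / DR) ^ 2 + ((Lu : ℝ) / DR) ^ 2 := by
      ring
    rw [e]; linarith only [h3, h4]
  · have k := lt_ndiv (343597383680 * (X.tot * X.tot + T2 * T2)) (b := L1 * L1 + Lu * Lu)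
      (by positivity)
    have h5 : ((343597383680 : ℕ) : ℝ) = 5 * DR := by unfold DR; norm_num
    rw [Nat.cast_mul, h5] at k
    push_cast at k
    have hK : (lnK X T l : ℝ) =
        (((343597383680 * (X.tot * X.tot + T2 * T2)) / (L1 * L1 + Lu * Lu) : ℕ) : ℝ) + 1 := by
      change (((343597383680 * (X.tot * X.tot + T2 * T2)) / (L1 * L1 + Lu * Lu) + 1 : ℕ) : ℝ) = _
      push_cast; ring
    rw [hK]
    refine le_trans ?_ k.le
    have e : Real.pi ^ 2 * ((a / DR) ^ 2 + (b / DR) ^ 2) / (((L1 : ℝ) ^ 2 + (Lu : ℝ) ^ 2) / DR ^ 2) / 2 * DR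
        = (Real.pi ^ 2 * (a ^ 2 + b ^ 2) / 2 * DR) / ((L1 : ℝ) * L1 + Lu * Lu) := by
      have : (L1 : ℝ) * L1 + Lu * Lu ≠ 0 := by positivity
      have : (L1 : ℝ) ^ 2 + Lu ^ 2 ≠ 0 := by positivity
      field_simp
    rw [e]
    have ha2 : a ^ 2 ≤ (X.tot : ℝ) * X.tot := by rw [← pow_two, ← sq_abs a]; gcongr
    have hb2 : b ^ 2 ≤ (T2 : ℝ) * T2 := by rw [← pow_two, ← sq_abs b]; gcongr
    have hp := pi_sq_lt
    have h6 : Real.pi ^ 2 * (a ^ 2 + b ^ 2) / 2 * DR ≤ 5 * DR * ((X.tot : ℝ) * X.tot + T2 * T2) := by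
      have h7 : Real.pi ^ 2 * (a ^ 2 + b ^ 2) ≤ 10 * ((X.tot : ℝ) * X.tot + T2 * T2) :=
        mul_le_mul hp (by linarith only [ha2, hb2]) (by positivity) (by norm_num)
      nlinarith only [hD, h7]
    exact div_le_div_of_nonneg_right h6 (by positivity)

lemma R3.Good.abs_le {r : R3} {v : ℝ} (h : r.Good v) :
    |v| * DR ≤ ((Nat.add (Nat.add r.p r.q) r.e : ℕ) : ℝ) := by
  have hD := DR_pos
  unfold R3.Good at h
  have e : |v| * DR = |v * DR| := by rw [abs_mul, abs_of_pos hD]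
  rw [e]
  have h1 : |v * DR| ≤ |v * DR - ((r.p : ℝ) - r.q)| + |(r.p : ℝ) - r.q| := by
    have := abs_add_le (v * DR - ((r.p : ℝ) - r.q)) ((r.p : ℝ) - r.q)
    rwa [sub_add_cancel] at this
  have h2 : |(r.p : ℝ) - r.q| ≤ (r.p : ℝ) + r.q := by
    have := Nat.cast_nonneg (α := ℝ) r.p
    have := Nat.cast_nonneg (α := ℝ) r.q
    rw [_root_.abs_le]; constructor <;> linarith only []
  change _ ≤ ((r.p + r.q + r.e : ℕ) : ℝ)
  push_cast
  linarith only [h, h1, h2]

lemma uK_spec {X T : A} {l : LS} {x t σ : ℝ} (h : l.Good x t) (hok : l.ok = true)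
    (hσ : σ = 1 ∨ σ = -1) (hs : 9 + 4 * X.tot ≤ l.s) {a b : ℝ} (ha : |a| ≤ (X.tot : ℝ))
    (hb : |b| ≤ ((T.tot + 1 : ℕ) : ℝ))
    (h01 : ∀ τ ∈ Set.Icc (0 : ℝ) 1, 0 < x + τ * (a / DR) ∧ x + τ * (a / DR) < 1) :
    |uu (x + a / DR) (σ * t + b / DR) - uu x (σ * t) -
      (a / DR * NumI.lnA x (σ * t) - b / DR * NumI.lnB x (σ * t))| * DR ≤ uK X T l := by
  have hD := DR_pos
  have hpi := Real.pi_pos
  obtain ⟨L2, hL, hM, hK⟩ := lnK_pre (T := T) h hσ hs ha hb
  have key := uu_second (t := σ * t) (b := b / DR) hL h01 hM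
  refine (mul_le_mul_of_nonneg_right key hD.le).trans ?_
  have gU := R3.Good.abs_le (h.vU hok)
  have gW := R3.Good.abs_le (h.vW hok)
  set U : ℕ := Nat.add (Nat.add l.vU.p l.vU.q) l.vU.e with hU
  set W : ℕ := Nat.add (Nat.add l.vW.p l.vW.q) l.vW.e with hW
  set T2 : ℕ := T.tot + 1 with hT2
  have hPP : |PP x (σ * t)| = |PP x t| := by
    rcases hσ with h0 | h0 <;> rw [h0]
    · rw [one_mul]
    · rw [neg_one_mul, PP_neg]
  have hQQ : |QQ x (σ * t)| = |QQ x t| := by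
    rcases hσ with h0 | h0 <;> rw [h0]
    · rw [one_mul]
    · rw [neg_one_mul, QQ_neg, abs_neg]
  rw [hPP, hQQ]
  rw [abs_mul, abs_of_pos hpi] at gU gW
  have ha2 : a ^ 2 ≤ ((X.tot * X.tot : ℕ) : ℝ) := by
    push_cast
    rw [← pow_two, ← sq_abs a]; gcongr
  have hb2 : b ^ 2 ≤ ((T2 * T2 : ℕ) : ℝ) := by
    push_cast
    rw [← pow_two, ← sq_abs b]; gcongr
  set m2 : ℕ := cond (Nat.ble (Nat.mul X.tot X.tot) (Nat.mul T2 T2)) (Nat.mul T2 T2) (Nat.mul X.tot X.tot) with hm2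
  have hm : ((X.tot * X.tot : ℕ) : ℝ) ≤ m2 ∧ ((T2 * T2 : ℕ) : ℝ) ≤ m2 := by
    rcases hc : Nat.ble (Nat.mul X.tot X.tot) (Nat.mul T2 T2) with _ | _
    · have h1 : ¬ (X.tot * X.tot ≤ T2 * T2) := fun hle => by
        have := Nat.ble_eq_true_of_le hle
        rw [show Nat.ble (X.tot * X.tot) (T2 * T2) = Nat.ble (Nat.mul X.tot X.tot) (Nat.mul T2 T2) from rfl, hc] at this
        exact absurd this (by decide)
      have e : m2 = X.tot * X.tot := by rw [hm2, hc]; rfl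
      rw [e]
      exact ⟨le_rfl, by exact_mod_cast (by omega : T2 * T2 ≤ X.tot * X.tot)⟩
    · have e : m2 = T2 * T2 := by rw [hm2, hc]; rfl
      rw [e]
      exact ⟨by exact_mod_cast Nat.le_of_ble_eq_true hc, le_rfl⟩
  have hab2 : |a ^ 2 - b ^ 2| ≤ m2 := by
    have := sq_nonneg a
    have := sq_nonneg b
    rw [_root_.abs_le]; constructor <;> linarith [hm.1, hm.2]
  have hab : |a * b| ≤ ((X.tot * T2 : ℕ) : ℝ) := by
    rw [abs_mul]
    push_cast
    exact mul_le_mul ha hb (abs_nonneg _) (Nat.cast_nonneg _)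
  -- second order part
  have p1 : Real.pi * (|(a / DR) ^ 2 - (b / DR) ^ 2| * |PP x t| + 2 * |a / DR * (b / DR)| * |QQ x t|) / 2 * DR
      ≤ ((m2 : ℝ) * U + 2 * ((X.tot * T2 : ℕ) : ℝ) * W) / (2 * DR ^ 2) := by
    have e1 : |(a / DR) ^ 2 - (b / DR) ^ 2| = |a ^ 2 - b ^ 2| / DR ^ 2 := by
      rw [div_pow, div_pow, ← sub_div, abs_div, abs_of_pos (by positivity : (0 : ℝ) < DR ^ 2)]
    have e2 : |a / DR * (b / DR)| = |a * b| / DR ^ 2 := by
      rw [div_mul_div_comm, abs_div, ← pow_two, abs_of_pos (by positivity : (0 : ℝ) < DR ^ 2)]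
    rw [e1, e2]
    have e3 : Real.pi * (|a ^ 2 - b ^ 2| / DR ^ 2 * |PP x t| + 2 * (|a * b| / DR ^ 2) * |QQ x t|) / 2 * DR =
        (|a ^ 2 - b ^ 2| * (Real.pi * |PP x t| * DR) + 2 * |a * b| * (Real.pi * |QQ x t| * DR)) /
          (2 * DR ^ 2) := by
      field_simp
    rw [e3]
    apply div_le_div_of_nonneg_right _ (by positivity)
    apply add_le_add
    · exact mul_le_mul hab2 gU (by positivity) (Nat.cast_nonneg _)
    · apply mul_le_mul _ gW (by positivity) (by positivity)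
      linarith only [hab]
  have p2 : (|a / DR| + |b / DR|) * (Real.pi ^ 2 * ((a / DR) ^ 2 + (b / DR) ^ 2) / L2 / 2) / 3 * DR ≤
      (((X.tot + T2 : ℕ) : ℝ) * lnK X T l) / (3 * DR) := by
    have e1 : |a / DR| + |b / DR| = (|a| + |b|) / DR := by
      rw [abs_div, abs_div, abs_of_pos hD]
      ring
    rw [e1]
    have e2 : (|a| + |b|) / DR * (Real.pi ^ 2 * ((a / DR) ^ 2 + (b / DR) ^ 2) / L2 / 2) / 3 * DR =
        (|a| + |b|) * (Real.pi ^ 2 * ((a / DR) ^ 2 + (b / DR) ^ 2) / L2 / 2 * DR) / (3 * DR) := by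
      field_simp
    rw [e2]
    apply div_le_div_of_nonneg_right _ (by positivity)
    apply mul_le_mul _ hK (by positivity) (by positivity)
    rw [Nat.cast_add]
    exact add_le_add ha hb
  have k1 := lt_ndiv (m2 * U + 2 * (X.tot * T2) * W) (b := 9444732965739290427392) (by norm_num)
  have k2 := lt_ndiv ((X.tot + T2) * lnK X T l) (b := 206158430208) (by norm_num)
  have d1 : ((9444732965739290427392 : ℕ) : ℝ) = 2 * DR ^ 2 := by unfold DR; norm_num
  have d2 : ((206158430208 : ℕ) : ℝ) = 3 * DR := by unfold DR; norm_num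
  rw [d1] at k1
  rw [d2] at k2
  have hfin : (uK X T l : ℝ) = (((m2 * U + 2 * (X.tot * T2) * W) / 9444732965739290427392 : ℕ) : ℝ) +
      ((((X.tot + T2) * lnK X T l) / 206158430208 : ℕ) : ℝ) + 2 := by
    change (((m2 * U + 2 * (X.tot * T2) * W) / 9444732965739290427392 +
      ((X.tot + T2) * lnK X T l) / 206158430208 + 2 : ℕ) : ℝ) = _
    push_cast
    ring
  rw [add_mul, hfin]
  push_cast at k1 k2 p1 p2 ⊢
  linarith only [k1, k2, p1, p2]

/-! ### the node -/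

/-- `uu` of affine forms -/
def uuA (a b : A) : Option A :=
  let X := a.nf
  let T := b.nf
  cond (Nat.beq X.q 0) (cond (Nat.ble (Nat.add X.tot 1) X.p) (cond (Nat.ble (Nat.add (Nat.add X.p X.tot) 1) 68719476736)
    (match lsD X T with
    | none => none
    | some l => cond l.ok (match l.vB with
      | none => none
      | some w => match uV X T with
        | none => none
        | some v =>
          let u := l.vA
          cond (Nat.beq T.q 0)
            (some (A.app2 X T (Nat.add T.r 1) (Nat.add T.tot 1) v.p v.q v.e u.p u.q u.e w.q w.p w.e (uK X T l)))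
            (some (A.app2 X T (Nat.add T.r 1) (Nat.add T.tot 1) v.p v.q v.e u.p u.q u.e w.p w.q w.e (uK X T l)))) none)
      none) none) none

theorem uuA_spec {a b c : A} {ε : ℕ → ℝ} {x t : ℝ} (hε : ∀ i, |ε i| ≤ 1) (hx : a.Encl ε x)
    (ht : b.Encl ε t) (h : uuA a b = some c) : c.Encl ε (uu x t) := by
  have hD := DR_pos
  have hpi := Real.pi_pos
  unfold uuA at h
  simp only at h
  rcases c1 : Nat.beq a.nf.q 0 with _ | _
  · rw [c1] at h; exact absurd h (by simp)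
  rw [c1, cond_true] at h
  rcases c2 : Nat.ble (Nat.add a.nf.tot 1) a.nf.p with _ | _
  · rw [c2] at h; exact absurd h (by simp)
  rw [c2, cond_true] at h
  rcases c3 : Nat.ble (Nat.add (Nat.add a.nf.p a.nf.tot) 1) 68719476736 with _ | _
  · rw [c3] at h; exact absurd h (by simp)
  rw [c3, cond_true] at h
  rcases hl : lsD a.nf b.nf with _ | l
  · rw [hl] at h; exact absurd h (by simp)
  rw [hl] at h
  simp only at h
  rcases hok : l.ok with _ | _
  · rw [hok] at h; exact absurd h (by simp)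
  rw [hok, cond_true] at h
  rcases hb : l.vB with _ | w
  · rw [hb] at h; exact absurd h (by simp)
  rw [hb] at h
  simp only at h
  rcases hv : uV a.nf b.nf with _ | v
  · rw [hv] at h; exact absurd h (by simp)
  rw [hv] at h
  simp only at h
  have q0 : a.nf.q = 0 := Nat.eq_of_beq_eq_true c1
  have k2 : a.nf.tot + 1 ≤ a.nf.p := Nat.le_of_ble_eq_true c2
  have k3 : a.nf.p + a.nf.tot + 1 ≤ 68719476736 := Nat.le_of_ble_eq_true c3
  obtain ⟨hg, hm, hs⟩ := lsD_spec (A.nf_normal a) hl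
  obtain ⟨o1, o2, -, -⟩ := LS.ok_spec hok
  have gA := hg.vA o1 o2
  have gB := hg.vB hb
  set x0 := ((a.nf.p : ℝ) - a.nf.q) / DR with hx0
  set t0 := (l.m : ℝ) / (Real.pi * DR) with ht0
  have hxp : x0 = (a.nf.p : ℝ) / DR := by rw [hx0, q0]; simp
  have ht0' : 0 ≤ t0 := by positivity
  have gV : v.Good (uu x0 t0) := by
    rw [hxp]
    refine uV_spec hv (by omega) (by omega) ?_ ht0'
    have e : t0 * DR = (l.m : ℝ) / Real.pi := by rw [ht0]; field_simp
    rw [e, abs_sub_comm]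
    exact hm
  have hDx : ∀ y z : ℝ, (y * DR + z) / DR = y + z / DR := by intro y z; field_simp
  have hDx' : ∀ y : ℝ, y * DR / DR = y := by intro y; field_simp
  have hDc : (68719476736 : ℝ) = DR := by unfold DR; norm_num
  have h01 : ∀ u : ℝ, |u| ≤ (a.nf.tot : ℝ) → ∀ τ ∈ Set.Icc (0 : ℝ) 1,
      0 < x0 + τ * (u / DR) ∧ x0 + τ * (u / DR) < 1 := by
    intro u hu τ hτ
    have r2 : (a.nf.tot : ℝ) + 1 ≤ a.nf.p := by exact_mod_cast k2
    have r3 : (a.nf.p : ℝ) + a.nf.tot + 1 ≤ 68719476736 := by exact_mod_cast k3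
    rw [hDc] at r3
    have hτu : |τ * u| ≤ (a.nf.tot : ℝ) := by
      rw [abs_mul, abs_of_nonneg hτ.1]
      have := abs_nonneg u
      nlinarith only [hu, hτ, this, hτ.2]
    have h4 := abs_le.1 hτu
    have e : x0 + τ * (u / DR) = ((a.nf.p : ℝ) + τ * u) / DR := by rw [hxp]; field_simp
    rw [e]
    constructor
    · apply div_pos _ hD; linarith only [r2, h4, h4.1]
    · rw [div_lt_one hD]; linarith only [r3, h4, h4.2]
  rcases hq : Nat.beq b.nf.q 0 with _ | _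
  · rw [hq, cond_false] at h
    have hq0 : b.nf.q ≠ 0 := fun h0 => by rw [h0] at hq; exact absurd hq (by decide)
    have hp : b.nf.p = 0 := (A.nf_normal b).resolve_right hq0
    obtain ⟨f1, f2, f3, f4⟩ := ln_frame hε hx ht hl (σ := -1) (Or.inr ⟨rfl, hp⟩)
    have h := Option.some.inj h
    rw [← h]
    refine A.app2_spec hε f1 f2 f3 f4 uu (NumI.lnA x0 t0) (NumI.lnB x0 t0) ?_ gA gB ?_
    · rw [hDx', hDx', neg_one_mul, uu_neg]; exact gV
    · intro u v hu hv
      have k := uK_spec (T := b.nf) hg hok (Or.inr rfl : (-1 : ℝ) = 1 ∨ (-1 : ℝ) = -1) hs hu hv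
        (h01 u hu)
      rw [hDx, hDx, hDx', hDx']
      have e : uu (x0 + u / DR) (-1 * t0 + v / DR) * DR - uu x0 (-1 * t0) * DR -
          (NumI.lnA x0 t0 * u + NumI.lnB x0 t0 * v) =
          (uu (x0 + u / DR) (-1 * t0 + v / DR) - uu x0 (-1 * t0) -
          (u / DR * NumI.lnA x0 (-1 * t0) - v / DR * NumI.lnB x0 (-1 * t0))) * DR := by
        rw [neg_one_mul, lnA_neg, lnB_neg]
        field_simp
        ring
      rw [e, abs_mul, abs_of_pos hD]
      exact k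
  · rw [hq, cond_true] at h
    have hq0 : b.nf.q = 0 := Nat.eq_of_beq_eq_true hq
    obtain ⟨f1, f2, f3, f4⟩ := ln_frame hε hx ht hl (σ := 1) (Or.inl ⟨rfl, hq0⟩)
    have h := Option.some.inj h
    rw [← h]
    refine A.app2_spec hε f1 f2 f3 f4 uu (NumI.lnA x0 t0) (-NumI.lnB x0 t0) ?_ gA gB.neg ?_
    · rw [hDx', hDx', one_mul]; exact gV
    · intro u v hu hv
      have k := uK_spec (T := b.nf) hg hok (Or.inl rfl : (1 : ℝ) = 1 ∨ (1 : ℝ) = -1) hs hu hv
        (h01 u hu)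
      rw [hDx, hDx, hDx', hDx']
      have e : uu (x0 + u / DR) (1 * t0 + v / DR) * DR - uu x0 (1 * t0) * DR -
          (NumI.lnA x0 t0 * u + -NumI.lnB x0 t0 * v) =
          (uu (x0 + u / DR) (1 * t0 + v / DR) - uu x0 (1 * t0) -
          (u / DR * NumI.lnA x0 (1 * t0) - v / DR * NumI.lnB x0 (1 * t0))) * DR := by
        rw [one_mul]
        field_simp
        ring
      rw [e, abs_mul, abs_of_pos hD]
      exact k

end Pool.Agent.Work.NumU
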