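import Pool.Agent.Work.NumU.GenC
import Pool.Agent.Work.NumI.Leaf
import Pool.Agent.Work.NumI.Tree

/-!
# The fast version (four noise symbols) of the positive part and of `UU` at every real part
-/

namespace Pool.Agent.Work.NumG

open NumI (A G F LS R3 DR DR_pos DN_cast posO' okB okB_sound TestOk)
open NumI.F (toA map_cond lsF lnKF app2)
open NumU (uu uuA uuA_spec uC)

/-- affine form of `max x 0` -/
def reluF (a : F) : F :=
  let t := a.tot
  cond (Nat.ble (Nat.add a.q t) a.p) a
    (cond (Nat.ble (Nat.add a.p t) a.q) NumI.fz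
      (let hi := Nat.sub (Nat.add a.p t) a.q
       let lo := Nat.sub (Nat.add a.q t) a.p
       let S := Nat.div (Nat.mul hi 68719476736) (Nat.add hi lo)
       let h := Nat.div (Nat.add (Nat.div (Nat.mul (Nat.sub 68719476736 S) hi) 68719476736) 1) 2
       F.scl S 0 a (Nat.add (Nat.div (Nat.mul S a.p) 68719476736) h)
        (Nat.div (Nat.mul S a.q) 68719476736)
        (Nat.add (Nat.add h 3) (Nat.add (Nat.div (Nat.mul S a.r) 68719476736) 4))))

theorem reluF_encl {a : F} {ε : ℕ → ℝ} {x : ℝ} (hε : ∀ i, |ε i| ≤ 1) (hx : a.Encl ε x) :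
    (reluF a).Encl ε (max x 0) := by
  have h := reluA_spec hε (a := a.toA) hx
  unfold F.Encl reluF
  unfold reluA at h
  simp only at h ⊢
  rcases h1 : Nat.ble (Nat.add a.q a.tot) a.p with _ | _
  · rw [cond_false]
    have h1' : Nat.ble (Nat.add a.toA.q a.toA.tot) a.toA.p = false := h1
    rw [h1', cond_false] at h
    rcases h2 : Nat.ble (Nat.add a.p a.tot) a.q with _ | _
    · rw [cond_false]
      have h2' : Nat.ble (Nat.add a.toA.p a.toA.tot) a.toA.q = false := h2
      rw [h2', cond_false] at h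
      exact h
    · rw [cond_true]
      have h2' : Nat.ble (Nat.add a.toA.p a.toA.tot) a.toA.q = true := h2
      rw [h2', cond_true] at h
      have h0 : max x 0 = 0 := by
        unfold A.Encl at h
        simp only [G.ev, Nat.cast_zero, sub_zero, add_zero] at h
        have h3 := abs_nonpos_iff.1 h
        rcases mul_eq_zero.1 h3 with h4 | h4
        · exact h4
        · exact absurd h4 DR_pos.ne'
      rw [h0]
      exact NumI.fz_encl ε
  · rw [cond_true]
    have h1' : Nat.ble (Nat.add a.toA.q a.toA.tot) a.toA.p = true := h1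
    rw [h1', cond_true] at h
    exact h

/-- value at the centre -/
def uVF (Xp Tp Tq : ℕ) : Option R3 :=
  let m := Nat.add Tp Tq
  cond (Nat.ble (Nat.mul 2 Xp) 68719476736) (uC Xp m)
    (match uC (Nat.sub 68719476736 Xp) m with
      | none => none
      | some r => some ⟨r.q, r.p, r.e⟩)

/-- second order bound -/
def uKF (Xt Tt : ℕ) (l : LS) : ℕ :=
  let T2 := Nat.add Tt 1
  let a2 := Nat.mul Xt Xt
  let b2 := Nat.mul T2 T2
  let u := l.vU
  let w := l.vW
  Nat.add (Nat.add (Nat.div (Nat.add (Nat.mul (cond (Nat.ble a2 b2) b2 a2) (Nat.add (Nat.add u.p u.q) u.e))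
    (Nat.mul (Nat.mul 2 (Nat.mul Xt T2)) (Nat.add (Nat.add w.p w.q) w.e))) 9444732965739290427392)
    (Nat.div (Nat.mul (Nat.add Xt T2) (lnKF Xt Tt l)) 206158430208)) 2

/-- `uu` of affine forms -/
def uuF (a b : F) : Option F :=
  let X := a.nf
  let T := b.nf
  let Xt := X.tot
  let Tt := T.tot
  cond (Nat.beq X.q 0) (cond (Nat.ble (Nat.add Xt 1) X.p) (cond (Nat.ble (Nat.add (Nat.add X.p Xt) 1) 68719476736)
    (match lsF X.p X.q Xt T.p T.q with
    | none => none
    | some l => cond l.ok (match l.vB with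
      | none => none
      | some w => match uVF X.p T.p T.q with
        | none => none
        | some v =>
          let u := l.vA
          cond (Nat.beq T.q 0)
            (some (app2 X T (Nat.add T.r 1) (Nat.add Tt 1) v.p v.q v.e u.p u.q u.e w.q w.p w.e (uKF Xt Tt l)))
            (some (app2 X T (Nat.add T.r 1) (Nat.add Tt 1) v.p v.q v.e u.p u.q u.e w.p w.q w.e (uKF Xt Tt l)))) none)
      none) none) none

theorem toA_uuF (a b : F) : (uuF a b).map toA = uuA a.toA b.toA := by
  unfold uuF uuA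
  simp only [map_cond]
  have e1 : a.toA.nf.q = a.nf.q := rfl
  have e2 : a.toA.nf.tot = a.nf.tot := rfl
  have e3 : a.toA.nf.p = a.nf.p := rfl
  have e4 : NumI.lsD a.toA.nf b.toA.nf = lsF a.nf.p a.nf.q a.nf.tot b.nf.p b.nf.q := rfl
  have e5 : NumU.uV a.toA.nf b.toA.nf = uVF a.nf.p b.nf.p b.nf.q := rfl
  rw [e1, e2, e3, e4, e5]
  congr 3
  rcases lsF a.nf.p a.nf.q a.nf.tot b.nf.p b.nf.q with _ | l
  · rfl
  · simp only [map_cond]
    congr 1
    rcases l.vB with _ | w
    · rfl
    · simp only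
      rcases uVF a.nf.p b.nf.p b.nf.q with _ | v
      · rfl
      · simp only [map_cond]
        rfl

theorem uuF_encl {a b c : F} {ε : ℕ → ℝ} {x t : ℝ} (hε : ∀ i, |ε i| ≤ 1) (hx : a.Encl ε x)
    (ht : b.Encl ε t) (h : uuF a b = some c) : c.Encl ε (uu x t) :=
  uuA_spec hε hx ht (NumI.map_some_inv (toA_uuF a b) h)

/-! ### every real part -/

def absF (a : F) : F := F.add (reluF a) (reluF a.neg)

theorem absF_encl {a : F} {ε : ℕ → ℝ} {x : ℝ} (hε : ∀ i, |ε i| ≤ 1) (hx : a.Encl ε x) :
    (absF a).Encl ε |x| := by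
  have h := (reluF_encl hε hx).add (reluF_encl hε hx.neg)
  have e : max x 0 + max (-x) 0 = |x| := by
    rcases le_total 0 x with h0 | h0
    · rw [max_eq_left h0, max_eq_right (by linarith only [h0]), abs_of_nonneg h0, add_zero]
    · rw [max_eq_right h0, max_eq_left (by linarith only [h0]), abs_of_nonpos h0, zero_add]
  rw [e] at h
  exact h

def addKF (n : ℕ) (u w : F) : F := cond (Nat.beq n 0) u (F.add u (F.mulq n 1 w))
def subKF (n : ℕ) (u w : F) : F := cond (Nat.beq n 0) u (F.sub u (F.mulq n 1 w))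

theorem addKF_encl {u w : F} {ε : ℕ → ℝ} {x y : ℝ} (hε : ∀ i, |ε i| ≤ 1) (hx : u.Encl ε x)
    (hy : w.Encl ε y) (n : ℕ) : (addKF n u w).Encl ε (x + n * y) := by
  unfold addKF
  rcases h : Nat.beq n 0 with _ | _
  · rw [cond_false]
    have h1 := NumI.F.Encl.mulq (n := n) (d := 1) one_pos hε hy
    rw [Nat.cast_one, div_one] at h1
    exact hx.add h1
  · have h0 : n = 0 := Nat.eq_of_beq_eq_true h
    subst h0
    rw [cond_true]
    simpa using hx

theorem subKF_encl {u w : F} {ε : ℕ → ℝ} {x y : ℝ} (hε : ∀ i, |ε i| ≤ 1) (hx : u.Encl ε x)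
    (hy : w.Encl ε y) (n : ℕ) : (subKF n u w).Encl ε (x - n * y) := by
  unfold subKF
  rcases h : Nat.beq n 0 with _ | _
  · rw [cond_false]
    have h1 := NumI.F.Encl.mulq (n := n) (d := 1) one_pos hε hy
    rw [Nat.cast_one, div_one] at h1
    exact hx.sub h1
  · have h0 : n = 0 := Nat.eq_of_beq_eq_true h
    subst h0
    rw [cond_true]
    simpa using hx

/-- shift by an integer: `x - n` -/
def shDF (n : ℕ) (a : F) : F := ⟨Nat.sub a.p (Nat.mul 68719476736 n),
  Nat.add a.q (Nat.sub (Nat.mul 68719476736 n) a.p), a.r, a.a0, a.b0, a.a1, a.b1, a.a2, a.b2,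
  a.a3, a.b3⟩

theorem shDF_encl {a : F} {ε : ℕ → ℝ} {x : ℝ} (hx : a.Encl ε x) (n : ℕ) :
    (shDF n a).Encl ε (x - n) := shD_spec (a := a.toA) hx n

def shUF (n : ℕ) (a : F) : F := (shDF n a.neg).neg

theorem shUF_encl {a : F} {ε : ℕ → ℝ} {x : ℝ} (hx : a.Encl ε x) (n : ℕ) :
    (shUF n a).Encl ε (x + n) := by
  have h := (shDF_encl hx.neg n).neg
  have e : -(-x - (n : ℝ)) = x + n := by ring
  rw [e] at h
  exact h

/-- the value near `0` -/
def strF (X T w : F) : Option F :=
  cond (Nat.ble (Nat.add (Nat.add T.p T.q) T.tot) 34359738368)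
    (match sErr (Nat.add (Nat.add X.p X.q) X.tot) with
      | none => none
      | some k =>
        let v := (F.mulq 1 2 w).neg
        some ⟨v.p, v.q, Nat.add v.r k, v.a0, v.b0, v.a1, v.b1, v.a2, v.b2, v.a3, v.b3⟩) none

theorem strF_encl {X T w c : F} {ε : ℕ → ℝ} {x t : ℝ} (hε : ∀ i, |ε i| ≤ 1) (hx : X.Encl ε x)
    (ht : T.Encl ε t) (hw : w.Encl ε (Real.pi * |t|)) (h : strF X T w = some c) :
    c.Encl ε (uu x t) := by
  have hD := DR_pos
  unfold strF at h
  obtain ⟨h1, h⟩ := NumU.cond_some h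
  have h2 : ((Nat.add (Nat.add T.p T.q) T.tot : ℕ) : ℝ) ≤ ((34359738368 : ℕ) : ℝ) := by
    exact_mod_cast Nat.le_of_ble_eq_true h1
  have h3 := abs_of_tot (a := T.toA) hε ht
  have h3' : |t| * DR ≤ ((Nat.add (Nat.add T.p T.q) T.tot : ℕ) : ℝ) := h3
  have h4 : |t| ≤ 1 / 2 := by
    have e : ((34359738368 : ℕ) : ℝ) = 1 / 2 * DR := by unfold DR; norm_num
    rw [e] at h2
    exact le_of_mul_le_mul_right (h3'.trans h2) hD
  rcases h5 : sErr (Nat.add (Nat.add X.p X.q) X.tot) with _ | k
  · rw [h5] at h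
    exact absurd h (by simp)
  rw [h5] at h
  simp only [Option.some.injEq] at h
  have h6 := sErr_spec h5 x t (abs_of_tot (a := X.toA) hε hx) h4
  have h7 := (NumI.F.Encl.mulq (n := 1) (d := 2) two_pos hε hw).neg
  rw [← h]
  rw [NumI.F.Encl_iff] at h7 ⊢
  set v := (F.mulq 1 2 w).neg
  simp only
  change _ ≤ ((v.r + k : ℕ) : ℝ)
  push_cast at h7 ⊢
  have h8 : |uu x t + Real.pi / 2 * abs t| * DR = |(uu x t + Real.pi / 2 * abs t) * DR| := by
    rw [abs_mul, abs_of_pos hD]
  rw [h8] at h6
  set W := ((v.p : ℝ) - v.q + (((v.a0 : ℝ) - v.b0) * ε 0 + (((v.a1 : ℝ) - v.b1) * ε 1 +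
    (((v.a2 : ℝ) - v.b2) * ε 2 + ((v.a3 : ℝ) - v.b3) * ε 3))))
  have e2 : uu x t * DR - W =
      (-(1 / 2 * (Real.pi * |t|)) * DR - W) + (uu x t + Real.pi / 2 * |t|) * DR := by ring
  rw [e2]
  exact (abs_add_le _ _).trans (add_le_add h7 h6)

/-- the first result if its error is at most `1/64`, otherwise the better one -/
def pickF (s t : Option F) : Option F := match s with
  | none => t
  | some u => cond (Nat.ble u.r 1073741824) (some u) (match t with
    | none => some u
    | some v => cond (Nat.ble u.r v.r) (some u) (some v))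

theorem pickF_spec {s t : Option F} {c : F} (h : pickF s t = some c) : s = some c ∨ t = some c := by
  unfold pickF at h
  rcases s with _ | u
  · exact Or.inr h
  · simp only at h
    rcases hc : Nat.ble u.r 1073741824 with _ | _
    · rw [hc, cond_false] at h
      rcases t with _ | v
      · exact Or.inl h
      · simp only at h
        rcases hb : Nat.ble u.r v.r with _ | _
        · rw [hb, cond_false] at h; exact Or.inr h
        · rw [hb, cond_true] at h; exact Or.inl h
    · rw [hc, cond_true] at h; exact Or.inl h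

def mapF (f : F → F) (x : Option F) : Option F := match x with
  | none => none
  | some a => some (f a)

theorem mapF_some {f : F → F} {x : Option F} {c : F} (h : mapF f x = some c) :
    ∃ a, x = some a ∧ c = f a := by
  unfold mapF at h
  rcases x with _ | a
  · exact absurd h (by simp)
  · exact ⟨a, rfl, (Option.some.inj h).symm⟩

/-- `UU (x + i t)` for every real `x` -/
def uwF (a b : F) : Option F :=
  let X := a.nf
  let T := b.nf
  let w := F.mul F.pi (absF T)
  cond (Nat.beq X.q 0)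
    (let n := Nat.div X.p 68719476736
     let m := Nat.div (Nat.add X.p 34359738368) 68719476736
     pickF (mapF (fun u => addKF n u w) (uuF (shDF n X) T))
      (mapF (fun u => addKF m u w) (strF (shDF m X).nf T w)))
    (let n := Nat.div (Nat.add X.q 68719476735) 68719476736
     let m := Nat.div (Nat.add X.q 34359738368) 68719476736
     pickF (mapF (fun u => subKF n u w) (uuF (shUF n X) T))
      (mapF (fun u => subKF m u w) (strF (shUF m X).nf T w)))

theorem F.Encl.nf {a : F} {ε : ℕ → ℝ} {x : ℝ} (hx : a.Encl ε x) : (a.nf).Encl ε x := by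
  unfold F.Encl at *
  rw [F.toA_nf]
  exact A.Encl.nf hx

theorem uwF_encl {a b c : F} {ε : ℕ → ℝ} {x t : ℝ} (hε : ∀ i, |ε i| ≤ 1) (hx : a.Encl ε x)
    (ht : b.Encl ε t) (h : uwF a b = some c) : c.Encl ε (uu x t) := by
  unfold uwF at h
  simp only at h
  have hX := F.Encl.nf hx
  have hT := F.Encl.nf ht
  have hw : F.Encl (F.mul F.pi (absF b.nf)) ε (Real.pi * |t|) :=
    NumI.F.Encl.mul hε (NumI.F.pi_encl ε) (absF_encl hε hT)
  have eD : ∀ n : ℕ, uu x t = uu (x - n) t + n * (Real.pi * |t|) := by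
    intro n
    rw [← uu_add_nat, sub_add_cancel]
  have eU : ∀ n : ℕ, uu x t = uu (x + n) t - n * (Real.pi * |t|) := by
    intro n
    rw [uu_add_nat]
    ring
  rcases h1 : Nat.beq a.nf.q 0 with _ | _
  · rw [h1, cond_false] at h
    rcases pickF_spec h with h | h
    · obtain ⟨u, hu, rfl⟩ := mapF_some h
      rw [eU (Nat.div (Nat.add a.nf.q 68719476735) 68719476736)]
      exact subKF_encl hε (uuF_encl hε (shUF_encl hX _) hT hu) hw _
    · obtain ⟨u, hu, rfl⟩ := mapF_some h
      rw [eU (Nat.div (Nat.add a.nf.q 34359738368) 68719476736)]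
      exact subKF_encl hε (strF_encl hε (F.Encl.nf (shUF_encl hX _)) hT hw hu) hw _
  · rw [h1, cond_true] at h
    rcases pickF_spec h with h | h
    · obtain ⟨u, hu, rfl⟩ := mapF_some h
      rw [eD (Nat.div a.nf.p 68719476736)]
      exact addKF_encl hε (uuF_encl hε (shDF_encl hX _) hT hu) hw _
    · obtain ⟨u, hu, rfl⟩ := mapF_some h
      rw [eD (Nat.div (Nat.add a.nf.p 34359738368) 68719476736)]
      exact addKF_encl hε (strF_encl hε (F.Encl.nf (shDF_encl hX _)) hT hw hu) hw _

/-! ### the functions `ux` and `yw` -/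

theorem F.tot_spec {f : F} {ε : ℕ → ℝ} {x : ℝ} (hε : ∀ i, |ε i| ≤ 1) (h : f.Encl ε x) :
    |x * DR - ((f.p : ℝ) - f.q)| ≤ (f.tot : ℝ) := A.Encl.tot (a := f.toA) h hε

/-- add an error -/
def errF (v : F) (k : ℕ) : F :=
  ⟨v.p, v.q, Nat.add v.r k, v.a0, v.b0, v.a1, v.b1, v.a2, v.b2, v.a3, v.b3⟩

theorem errF_encl {v : F} {ε : ℕ → ℝ} {x y : ℝ} {k : ℕ} (h : v.Encl ε y)
    (hk : |x - y| * DR ≤ k) : (errF v k).Encl ε x := Encl_err (v := v.toA) h hk

def ip2F : F := ⟨10937044409, 0, 2, 0, 0, 0, 0, 0, 0, 0, 0⟩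

theorem ip2F_encl (ε : ℕ → ℝ) : ip2F.Encl ε (1 / (2 * Real.pi)) := by
  rw [NumI.F.Encl_iff]
  have := ip2_real
  unfold ip2F
  push_cast
  simpa using this

/-- first term of the series; `w = π |t|` -/
def farF (X w : F) : Option F :=
  match F.exp (F.neg (F.add w w)) with
  | none => none
  | some e => some (errF
      (F.sub (F.mul w (F.sub X (F.rat 1 2))) (F.mul (F.mul e (F.sinPi (F.add X X))) ip2F))
      (farE (Nat.sub (Nat.add e.p e.tot) e.q)))

theorem farF_encl {X w c : F} {ε : ℕ → ℝ} {x t : ℝ} (hε : ∀ i, |ε i| ≤ 1) (hx : X.Encl ε x)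
    (hw : w.Encl ε (Real.pi * |t|)) (ht : 3 / 10 ≤ |t|) (h : farF X w = some c) :
    c.Encl ε (uu x t) := by
  have hD := DR_pos
  unfold farF at h
  rcases he : F.exp (F.neg (F.add w w)) with _ | e
  · rw [he] at h; exact absurd h (by simp)
  rw [he] at h
  simp only [Option.some.injEq] at h
  have h1 := NumI.F.Encl.exp hε (F.Encl.neg (F.Encl.add hw hw)) he
  have h2 := F.Encl.sinPi hε (F.Encl.add hx hx)
  have h3 := NumI.F.Encl.rat 1 2 ε
  rw [Nat.cast_one, Nat.cast_two] at h3
  have h4 := F.Encl.sub (F.Encl.mul hε hw (F.Encl.sub hx h3))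
    (F.Encl.mul hε (F.Encl.mul hε h1 h2) (ip2F_encl ε))
  rw [← h]
  refine errF_encl h4 ?_
  refine le_trans (mul_le_mul_of_nonneg_right (far_val rfl ht) hD.le) ?_
  exact farE_spec (Real.exp_pos _).le (exp_hi hε (e := e.toA) h1)

/-- `- w / 2 + x log (2 sinh w)`; `w = π |t|` -/
def nearF (X T w : F) : Option F :=
  cond (Nat.ble (Nat.add (Nat.add X.p X.q) X.tot) 34359738368) (cond (Nat.ble 1 (tLo T.p T.q T.tot))
    (match F.hyp false w with
      | none => none
      | some s => match F.log (F.add s s) with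
        | none => none
        | some l => some (errF (F.sub (F.mul X l) (F.mulq 1 2 w))
            (nearE (Nat.add (Nat.add X.p X.q) X.tot) (tLo T.p T.q T.tot)))) none) none

theorem nearF_encl {X T w c : F} {ε : ℕ → ℝ} {x t : ℝ} (hε : ∀ i, |ε i| ≤ 1) (hx : X.Encl ε x)
    (ht : T.Encl ε t) (hw : w.Encl ε (Real.pi * |t|)) (h : nearF X T w = some c) :
    c.Encl ε (uu x t) := by
  have hD := DR_pos
  unfold nearF at h
  obtain ⟨h1, h⟩ := NumU.cond_some h
  obtain ⟨h2, h⟩ := NumU.cond_some h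
  have a1 : ((Nat.add (Nat.add X.p X.q) X.tot : ℕ) : ℝ) ≤ ((34359738368 : ℕ) : ℝ) := by
    exact_mod_cast Nat.le_of_ble_eq_true h1
  have a2 : |x| * DR ≤ ((Nat.add (Nat.add X.p X.q) X.tot : ℕ) : ℝ) := abs_of_tot (a := X.toA) hε hx
  have a3 : |x| ≤ 1 / 2 := by
    have e : ((34359738368 : ℕ) : ℝ) = 1 / 2 * DR := by unfold DR; norm_num
    rw [e] at a1
    exact le_of_mul_le_mul_right (a2.trans a1) hD
  have a4 : 0 < tLo T.p T.q T.tot := Nat.le_of_ble_eq_true h2
  have a5 := tLo_spec (F.tot_spec hε ht)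
  rw [abs_mul, abs_of_pos hD] at a5
  have a6 : t ≠ 0 := by
    rintro rfl
    have : (0 : ℝ) < ((tLo T.p T.q T.tot : ℕ) : ℝ) := by exact_mod_cast a4
    rw [abs_zero, zero_mul] at a5
    linarith only [a5, this]
  rcases hs : F.hyp false w with _ | s
  · rw [hs] at h; exact absurd h (by simp)
  rw [hs] at h
  simp only at h
  rcases hl : F.log (F.add s s) with _ | l
  · rw [hl] at h; exact absurd h (by simp)
  rw [hl] at h
  simp only [Option.some.injEq] at h
  have b1 := NumI.F.Encl.sinh hε hw hs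
  have b2 := NumI.F.Encl.log hε (F.Encl.add b1 b1) hl
  have b3 := NumI.F.Encl.mulq (n := 1) (d := 2) two_pos hε hw
  have b4 := F.Encl.sub (F.Encl.mul hε hx b2) b3
  rw [← h]
  refine errF_encl b4 ?_
  refine le_trans ?_ (nearE_spec a4 a2 a5)
  refine mul_le_mul_of_nonneg_right ?_ hD.le
  refine le_trans (le_of_eq ?_) (NumX.near a6 (lt_of_le_of_lt a3 (by norm_num)))
  congr 1
  rw [← two_mul, Nat.cast_one, Nat.cast_two]
  ring

/-- the one with the smaller error -/
def minF (s t : Option F) : Option F := match s with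
  | none => t
  | some u => match t with
    | none => some u
    | some v => cond (Nat.ble u.r v.r) (some u) (some v)

theorem minF_spec {s t : Option F} {c : F} (h : minF s t = some c) : s = some c ∨ t = some c := by
  unfold minF at h
  rcases s with _ | u
  · exact Or.inr h
  · simp only at h
    rcases t with _ | v
    · exact Or.inl h
    · simp only at h
      rcases hb : Nat.ble u.r v.r with _ | _
      · rw [hb, cond_false] at h; exact Or.inr h
      · rw [hb, cond_true] at h; exact Or.inl h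

/-- `UU (x + i t)` for every real `x` -/
def uxF (a b : F) : Option F :=
  let X := a.nf
  let T := b.nf
  let w := F.mul F.pi (absF T)
  cond (Nat.ble 20615843021 (tLo T.p T.q T.tot)) (farF X w)
    (cond (Nat.beq X.q 0)
      (let n := Nat.div X.p 68719476736
       let m := Nat.div (Nat.add X.p 34359738368) 68719476736
       pickF (mapF (fun u => addKF n u w) (uuF (shDF n X) T))
        (mapF (fun u => addKF m u w) (minF (nearF (shDF m X).nf T w) (strF (shDF m X).nf T w))))
      (let n := Nat.div (Nat.add X.q 68719476735) 68719476736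
       let m := Nat.div (Nat.add X.q 34359738368) 68719476736
       pickF (mapF (fun u => subKF n u w) (uuF (shUF n X) T))
        (mapF (fun u => subKF m u w) (minF (nearF (shUF m X).nf T w) (strF (shUF m X).nf T w)))))

theorem nsF_encl {X T w c : F} {ε : ℕ → ℝ} {x t : ℝ} (hε : ∀ i, |ε i| ≤ 1) (hx : X.Encl ε x)
    (ht : T.Encl ε t) (hw : w.Encl ε (Real.pi * |t|))
    (h : minF (nearF X T w) (strF X T w) = some c) : c.Encl ε (uu x t) := by
  rcases minF_spec h with h | h
  · exact nearF_encl hε hx ht hw h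
  · exact strF_encl hε hx ht hw h

theorem uxF_encl {a b c : F} {ε : ℕ → ℝ} {x t : ℝ} (hε : ∀ i, |ε i| ≤ 1) (hx : a.Encl ε x)
    (ht : b.Encl ε t) (h : uxF a b = some c) : c.Encl ε (uu x t) := by
  unfold uxF at h
  simp only at h
  have hX := F.Encl.nf hx
  have hT := F.Encl.nf ht
  have hw : F.Encl (F.mul F.pi (absF b.nf)) ε (Real.pi * |t|) :=
    NumI.F.Encl.mul hε (NumI.F.pi_encl ε) (absF_encl hε hT)
  rcases h0 : Nat.ble 20615843021 (tLo b.nf.p b.nf.q b.nf.tot) with _ | _
  swap
  · rw [h0, cond_true] at h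
    exact farF_encl hε hX hw (far_ok h0 (F.tot_spec hε hT)) h
  rw [h0, cond_false] at h
  have eD : ∀ n : ℕ, uu x t = uu (x - n) t + n * (Real.pi * |t|) := by
    intro n
    rw [← uu_add_nat, sub_add_cancel]
  have eU : ∀ n : ℕ, uu x t = uu (x + n) t - n * (Real.pi * |t|) := by
    intro n
    rw [uu_add_nat]
    ring
  rcases h1 : Nat.beq a.nf.q 0 with _ | _
  · rw [h1, cond_false] at h
    rcases pickF_spec h with h | h
    · obtain ⟨u, hu, rfl⟩ := mapF_some h
      rw [eU (Nat.div (Nat.add a.nf.q 68719476735) 68719476736)]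
      exact subKF_encl hε (uuF_encl hε (shUF_encl hX _) hT hu) hw _
    · obtain ⟨u, hu, rfl⟩ := mapF_some h
      rw [eU (Nat.div (Nat.add a.nf.q 34359738368) 68719476736)]
      exact subKF_encl hε (nsF_encl hε (F.Encl.nf (shUF_encl hX _)) hT hw hu) hw _
  · rw [h1, cond_true] at h
    rcases pickF_spec h with h | h
    · obtain ⟨u, hu, rfl⟩ := mapF_some h
      rw [eD (Nat.div a.nf.p 68719476736)]
      exact addKF_encl hε (uuF_encl hε (shDF_encl hX _) hT hu) hw _
    · obtain ⟨u, hu, rfl⟩ := mapF_some h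
      rw [eD (Nat.div (Nat.add a.nf.p 34359738368) 68719476736)]
      exact addKF_encl hε (nsF_encl hε (F.Encl.nf (shDF_encl hX _)) hT hw hu) hw _

/-- `v + n π sign t` -/
def addSF (n : ℕ) (s : Option Bool) (v : F) : Option F :=
  cond (Nat.beq n 0) (some v) (match s with
    | none => none
    | some b => cond b (some (F.add v (F.mulq n 1 F.pi))) (some (F.sub v (F.mulq n 1 F.pi))))

theorem addSF_encl {n : ℕ} {s : Option Bool} {v c : F} {ε : ℕ → ℝ} {y t : ℝ}
    (hε : ∀ i, |ε i| ≤ 1) (hs : ∀ b, s = some b → NumX.sg t = cond b 1 (-1)) (hv : v.Encl ε y)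
    (h : addSF n s v = some c) : c.Encl ε (y + n * (Real.pi * NumX.sg t)) := by
  unfold addSF at h
  rcases h1 : Nat.beq n 0 with _ | _
  · rw [h1, cond_false] at h
    rcases s with _ | b
    · exact absurd h (by simp)
    · simp only at h
      rw [hs b rfl]
      have h3 := NumI.F.Encl.mulq (n := n) (d := 1) one_pos hε (NumI.F.pi_encl ε)
      rw [Nat.cast_one, div_one] at h3
      rcases b with _ | _
      · rw [cond_false] at h ⊢
        obtain rfl := Option.some.inj h
        have := F.Encl.sub hv h3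
        have e2 : y + n * (Real.pi * -1) = y - n * Real.pi := by ring
        rw [e2]
        exact this
      · rw [cond_true] at h ⊢
        obtain rfl := Option.some.inj h
        rw [mul_one]
        exact F.Encl.add hv h3
  · have h0 : n = 0 := Nat.eq_of_beq_eq_true h1
    subst h0
    rw [h1, cond_true] at h
    obtain rfl := Option.some.inj h
    simpa using hv

/-- `v - n π sign t` -/
def subSF (n : ℕ) (s : Option Bool) (v : F) : Option F :=
  cond (Nat.beq n 0) (some v) (match s with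
    | none => none
    | some b => cond b (some (F.sub v (F.mulq n 1 F.pi))) (some (F.add v (F.mulq n 1 F.pi))))

theorem subSF_encl {n : ℕ} {s : Option Bool} {v c : F} {ε : ℕ → ℝ} {y t : ℝ}
    (hε : ∀ i, |ε i| ≤ 1) (hs : ∀ b, s = some b → NumX.sg t = cond b 1 (-1)) (hv : v.Encl ε y)
    (h : subSF n s v = some c) : c.Encl ε (y - n * (Real.pi * NumX.sg t)) := by
  unfold subSF at h
  rcases h1 : Nat.beq n 0 with _ | _
  · rw [h1, cond_false] at h
    rcases s with _ | b
    · exact absurd h (by simp)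
    · simp only at h
      rw [hs b rfl]
      have h3 := NumI.F.Encl.mulq (n := n) (d := 1) one_pos hε (NumI.F.pi_encl ε)
      rw [Nat.cast_one, div_one] at h3
      rcases b with _ | _
      · rw [cond_false] at h ⊢
        obtain rfl := Option.some.inj h
        have := F.Encl.add hv h3
        have e2 : y - n * (Real.pi * -1) = y + n * Real.pi := by ring
        rw [e2]
        exact this
      · rw [cond_true] at h ⊢
        obtain rfl := Option.some.inj h
        rw [mul_one]
        exact F.Encl.sub hv h3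
  · have h0 : n = 0 := Nat.eq_of_beq_eq_true h1
    subst h0
    rw [h1, cond_true] at h
    obtain rfl := Option.some.inj h
    simpa using hv

/-- inside `(0, 1)` -/
def ycF (X T : F) : Option F :=
  cond (Nat.ble (Nat.add (Nat.add X.q X.tot) 1) X.p)
    (cond (Nat.ble (Nat.add (Nat.add X.p X.tot) 1) (Nat.add 68719476736 X.q))
      (mapF F.neg (F.lnB X T)) none) none

theorem ycF_encl {X T c : F} {ε : ℕ → ℝ} {x t : ℝ} (hε : ∀ i, |ε i| ≤ 1) (hx : X.Encl ε x)
    (ht : T.Encl ε t) (h : ycF X T = some c) : c.Encl ε (NumX.yy x t) := by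
  have hD := DR_pos
  unfold ycF at h
  obtain ⟨h1, h⟩ := NumU.cond_some h
  obtain ⟨h2, h⟩ := NumU.cond_some h
  obtain ⟨u, hu, rfl⟩ := mapF_some h
  have a1 := abs_le.1 (F.tot_spec hε hx)
  have a2 : ((X.q + X.tot + 1 : ℕ) : ℝ) ≤ X.p := by exact_mod_cast Nat.le_of_ble_eq_true h1
  have a3 : ((X.p + X.tot + 1 : ℕ) : ℝ) ≤ ((68719476736 + X.q : ℕ) : ℝ) := by
    exact_mod_cast Nat.le_of_ble_eq_true h2
  rw [Nat.cast_add 68719476736, DN_cast] at a3
  push_cast at a2 a3
  have x0 : 0 < x := by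
    have : 0 < x * DR := by linarith only [a1, a2, a1.1]
    exact (mul_pos_iff_of_pos_right hD).1 this
  have x1 : x < 1 := by
    have : x * DR < 1 * DR := by linarith only [a1, a3, a1.2]
    exact lt_of_mul_lt_mul_right this hD.le
  rw [NumX.yy_lnB x0 x1]
  exact F.Encl.neg (NumI.F.Encl.lnB hε hx ht hu)

/-- near an integer: `- π / 2 sign t` -/
def ynF (X T : F) : Option F :=
  cond (Nat.ble (Nat.add (Nat.add X.p X.q) X.tot) 8589934592) (cond (Nat.ble 1 (tLo T.p T.q T.tot))
    (match sgB T.p T.q T.tot with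
      | none => none
      | some b => cond b
        (some ⟨0, 107944301636, Nat.add 2 (ynE (Nat.add (Nat.add X.p X.q) X.tot)
          (tLo T.p T.q T.tot)), 0, 0, 0, 0, 0, 0, 0, 0⟩)
        (some ⟨107944301636, 0, Nat.add 2 (ynE (Nat.add (Nat.add X.p X.q) X.tot)
          (tLo T.p T.q T.tot)), 0, 0, 0, 0, 0, 0, 0, 0⟩)) none) none

theorem ynF_encl {X T c : F} {ε : ℕ → ℝ} {x t : ℝ} (hε : ∀ i, |ε i| ≤ 1) (hx : X.Encl ε x)
    (ht : T.Encl ε t) (h : ynF X T = some c) : c.Encl ε (NumX.yy x t) := by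
  have hD := DR_pos
  unfold ynF at h
  obtain ⟨h1, h⟩ := NumU.cond_some h
  obtain ⟨h2, h⟩ := NumU.cond_some h
  have a1 : ((Nat.add (Nat.add X.p X.q) X.tot : ℕ) : ℝ) ≤ ((8589934592 : ℕ) : ℝ) := by
    exact_mod_cast Nat.le_of_ble_eq_true h1
  have a2 : |x| * DR ≤ ((Nat.add (Nat.add X.p X.q) X.tot : ℕ) : ℝ) := abs_of_tot (a := X.toA) hε hx
  have a3 : |x| ≤ 1 / 8 := by
    have e : ((8589934592 : ℕ) : ℝ) = 1 / 8 * DR := by unfold DR; norm_num
    rw [e] at a1
    exact le_of_mul_le_mul_right (a2.trans a1) hD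
  have a4 : 0 < tLo T.p T.q T.tot := Nat.le_of_ble_eq_true h2
  have a5 := tLo_spec (F.tot_spec hε ht)
  rw [abs_mul, abs_of_pos hD] at a5
  have a6 : t ≠ 0 := by
    rintro rfl
    have : (0 : ℝ) < ((tLo T.p T.q T.tot : ℕ) : ℝ) := by exact_mod_cast a4
    rw [abs_zero, zero_mul] at a5
    linarith only [a5, this]
  rcases hb : sgB T.p T.q T.tot with _ | b
  · rw [hb] at h; exact absurd h (by simp)
  rw [hb] at h
  simp only at h
  have a7 := sgB_spec (F.tot_spec hε ht) hb
  have a8 := NumX.yy_near a6 a3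
  have a9 := ynE_spec a4 a2 a5
  have a10 := mul_le_mul_of_nonneg_right a8 hD.le
  have a11 := abs_le.1 half_pi_real
  have e1 : |NumX.yy x t + Real.pi / 2 * NumX.sg t| * DR =
      |(NumX.yy x t + Real.pi / 2 * NumX.sg t) * DR| := by
    rw [abs_mul, abs_of_pos hD]
  rw [e1] at a10
  have a12 := abs_le.1 (a10.trans a9)
  rw [a7] at a12
  set E := ynE (Nat.add (Nat.add X.p X.q) X.tot) (tLo T.p T.q T.tot)
  rcases b with _ | _
  · rw [cond_false] at h a12
    obtain rfl := Option.some.inj h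
    rw [NumI.F.Encl_iff]
    simp only [Nat.cast_zero, sub_zero, zero_mul, add_zero]
    change _ ≤ ((2 + E : ℕ) : ℝ)
    push_cast
    rw [abs_le]
    constructor <;> nlinarith only [a11, a12, a12.1, a12.2, a11.1, a11.2]
  · rw [cond_true] at h a12
    obtain rfl := Option.some.inj h
    rw [NumI.F.Encl_iff]
    simp only [Nat.cast_zero, sub_zero, zero_mul, add_zero]
    change _ ≤ ((2 + E : ℕ) : ℝ)
    push_cast
    rw [abs_le]
    constructor <;> nlinarith only [a11, a12, a12.1, a12.2, a11.1, a11.2]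

def yrF (X : F) : Option F := match yrE X.p X.q X.tot with
  | none => none
  | some k => some ⟨0, 0, k, 0, 0, 0, 0, 0, 0, 0, 0⟩

theorem yrF_encl {X c : F} {ε : ℕ → ℝ} {x : ℝ} (t : ℝ) (hε : ∀ i, |ε i| ≤ 1) (hx : X.Encl ε x)
    (h : yrF X = some c) : c.Encl ε (NumX.yy x t) := by
  have hD := DR_pos
  unfold yrF at h
  rcases hk : yrE X.p X.q X.tot with _ | k
  · rw [hk] at h; exact absurd h (by simp)
  rw [hk] at h
  obtain rfl := Option.some.inj h
  have h1 := yrE_spec (t := t) (F.tot_spec hε hx) hk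
  rw [NumI.F.Encl_iff]
  simpa [abs_mul, abs_of_pos hD] using h1

/-- bind -/
def bindF (x : Option F) (f : F → Option F) : Option F := match x with
  | none => none
  | some a => f a

theorem bindF_some {f : F → Option F} {x : Option F} {c : F} (h : bindF x f = some c) :
    ∃ a, x = some a ∧ f a = some c := by
  unfold bindF at h
  rcases x with _ | a
  · exact absurd h (by simp)
  · exact ⟨a, rfl, h⟩

/-- `YY (x + i t)` for every real `x` -/
def ywF (a b : F) : Option F :=
  let X := a.nf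
  let T := b.nf
  let s := sgB T.p T.q T.tot
  cond (Nat.beq X.q 0)
    (let n := Nat.div X.p 68719476736
     let m := Nat.div (Nat.add X.p 34359738368) 68719476736
     pickF (bindF (ycF (shDF n X) T) (addSF n s))
      (minF (bindF (ynF (shDF m X).nf T) (addSF m s)) (yrF X)))
    (let n := Nat.div (Nat.add X.q 68719476735) 68719476736
     let m := Nat.div (Nat.add X.q 34359738368) 68719476736
     pickF (bindF (ycF (shUF n X) T) (subSF n s))
      (minF (bindF (ynF (shUF m X).nf T) (subSF m s)) (yrF X)))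

theorem ywF_encl {a b c : F} {ε : ℕ → ℝ} {x t : ℝ} (hε : ∀ i, |ε i| ≤ 1) (hx : a.Encl ε x)
    (ht : b.Encl ε t) (h : ywF a b = some c) : c.Encl ε (NumX.yy x t) := by
  unfold ywF at h
  simp only at h
  have hX := F.Encl.nf hx
  have hT := F.Encl.nf ht
  have hs : ∀ c, sgB b.nf.p b.nf.q b.nf.tot = some c → NumX.sg t = cond c 1 (-1) := fun c hc =>
    sgB_spec (F.tot_spec hε hT) hc
  have eD : ∀ n : ℕ, NumX.yy x t = NumX.yy (x - n) t + n * (Real.pi * NumX.sg t) := by
    intro n
    rw [← yy_add_nat, sub_add_cancel]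
  have eU : ∀ n : ℕ, NumX.yy x t = NumX.yy (x + n) t - n * (Real.pi * NumX.sg t) := by
    intro n
    rw [yy_add_nat]
    ring
  rcases h1 : Nat.beq a.nf.q 0 with _ | _
  · rw [h1, cond_false] at h
    rcases pickF_spec h with h | h
    · obtain ⟨u, hu, h⟩ := bindF_some h
      rw [eU (Nat.div (Nat.add a.nf.q 68719476735) 68719476736)]
      exact subSF_encl hε hs (ycF_encl hε (shUF_encl hX _) hT hu) h
    · rcases minF_spec h with h | h
      · obtain ⟨u, hu, h⟩ := bindF_some h
        rw [eU (Nat.div (Nat.add a.nf.q 34359738368) 68719476736)]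
        exact subSF_encl hε hs (ynF_encl hε (F.Encl.nf (shUF_encl hX _)) hT hu) h
      · exact yrF_encl t hε hX h
  · rw [h1, cond_true] at h
    rcases pickF_spec h with h | h
    · obtain ⟨u, hu, h⟩ := bindF_some h
      rw [eD (Nat.div a.nf.p 68719476736)]
      exact addSF_encl hε hs (ycF_encl hε (shDF_encl hX _) hT hu) h
    · rcases minF_spec h with h | h
      · obtain ⟨u, hu, h⟩ := bindF_some h
        rw [eD (Nat.div (Nat.add a.nf.p 34359738368) 68719476736)]
        exact addSF_encl hε hs (ynF_encl hε (F.Encl.nf (shDF_encl hX _)) hT hu) h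
      · exact yrF_encl t hε hX h

/-! ### evaluation -/

/-- evaluation by the recursor -/
noncomputable def E.evR (e : E) : List F → Option F :=
  E.rec (motive := fun _ => List F → Option F)
    (fun i xs => some (NumI.lkF xs i))
    (fun n d _ => some (F.cst n d))
    (fun _ => some F.pi)
    (fun _ _ a b xs => NumI.o2 F.add (a xs) (b xs))
    (fun _ _ a b xs => NumI.o2 F.sub (a xs) (b xs))
    (fun _ _ a b xs => NumI.o2 F.mul (a xs) (b xs))
    (fun _ a xs => NumI.o1 F.neg (a xs))
    (fun _ a xs => NumI.o1 F.sqn (a xs))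
    (fun _ a xs => NumI.o1 reluF (a xs))
    (fun _ _ a b xs => NumI.o3 uwF (a xs) (b xs))
    (fun _ _ a b xs => NumI.o0 (fun c => b (xs ++ [c])) (a xs))
    (fun _ _ => none)
    (fun _ _ a b xs => NumI.o3 uxF (a xs) (b xs))
    (fun _ _ a b xs => NumI.o3 ywF (a xs) (b xs)) e

theorem E.evR_sound {ε : ℕ → ℝ} (hε : ∀ i, |ε i| ≤ 1) (e : E) : ∀ {fs : List F} {xs : List ℝ}
    {c : F}, List.Forall₂ (fun f x => F.Encl f ε x) fs xs → e.evR fs = some c →
      c.Encl ε (e.val xs) := by
  induction e with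
  | var i =>
    intro fs xs c h he
    have := Option.some.inj he
    rw [← this]; exact NumI.lkF_encl h i
  | q n d =>
    intro fs xs c h he
    have := Option.some.inj he
    rw [← this]; exact F.cst_encl n d ε
  | pi =>
    intro fs xs c h he
    have := Option.some.inj he
    rw [← this]; exact F.pi_encl ε
  | add a b iha ihb =>
    intro fs xs c h he
    obtain ⟨u, v, hu, hv, rfl⟩ := NumI.o2_some he
    exact F.Encl.add (iha h hu) (ihb h hv)
  | sub a b iha ihb =>
    intro fs xs c h he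
    obtain ⟨u, v, hu, hv, rfl⟩ := NumI.o2_some he
    exact F.Encl.sub (iha h hu) (ihb h hv)
  | mul a b iha ihb =>
    intro fs xs c h he
    obtain ⟨u, v, hu, hv, rfl⟩ := NumI.o2_some he
    exact F.Encl.mul hε (iha h hu) (ihb h hv)
  | neg a iha =>
    intro fs xs c h he
    obtain ⟨u, hu, rfl⟩ := NumI.o1_some he
    exact F.Encl.neg (iha h hu)
  | sq a iha =>
    intro fs xs c h he
    obtain ⟨u, hu, rfl⟩ := NumI.o1_some he
    exact F.Encl.sqn hε (iha h hu)
  | relu a iha =>
    intro fs xs c h he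
    obtain ⟨u, hu, rfl⟩ := NumI.o1_some he
    exact reluF_encl hε (iha h hu)
  | uw a b iha ihb =>
    intro fs xs c h he
    obtain ⟨u, v, hu, hv, hc⟩ := NumI.o3_some he
    exact uwF_encl hε (iha h hu) (ihb h hv) hc
  | lt a b iha ihb =>
    intro fs xs c h he
    obtain ⟨u, hu, hc⟩ := NumI.o0_some he
    refine ihb ?_ hc
    exact List.rel_append h (List.Forall₂.cons (iha h hu) List.Forall₂.nil)
  | emb a =>
    intro fs xs c h he
    exact absurd he (by simp [E.evR])
  | ux a b iha ihb =>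
    intro fs xs c h he
    obtain ⟨u, v, hu, hv, hc⟩ := NumI.o3_some he
    exact uxF_encl hε (iha h hu) (ihb h hv) hc
  | yw a b iha ihb =>
    intro fs xs c h he
    obtain ⟨u, v, hu, hv, hc⟩ := NumI.o3_some he
    exact ywF_encl hε (iha h hu) (ihb h hv) hc

/-! ### the checker: certificates of `NumI.Tree` -/

/-- the expression number `k` -/
noncomputable def nthR (es : List E) : ℕ → E :=
  List.rec (motive := fun _ => ℕ → E) (fun _ => E.q 0 1)
    (fun x _ ih i => Nat.rec (motive := fun _ => E) x (fun j _ => ih j) i) es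

theorem nthR_spec : ∀ (es : List E) (i : ℕ) {xs : List ℝ}, 0 < (nthR es i).val xs →
    ∃ e ∈ es, 0 < e.val xs
  | [], i, xs, h => by
    change 0 < (E.q 0 1).val xs at h
    simp only [E.val] at h
    norm_num at h
  | e :: es, 0, xs, h => ⟨e, List.mem_cons_self, h⟩
  | e :: es, i + 1, xs, h => by
    obtain ⟨e', he, hp⟩ := nthR_spec es i h
    exact ⟨e', List.mem_cons_of_mem _ he, hp⟩

/-- the tests: the expression number `k` is positive -/
noncomputable def tst (es : List E) (k : ℕ) (X Y Z W : F) : Bool :=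
  posO' ((nthR es k).evR [X, Y, Z, W])

theorem tst_ok (es : List E) : TestOk (tst es) fun x y z w => ∃ e ∈ es, 0 < e.val [x, y, z, w] := by
  intro k X Y Z W ε x y z w hε hX hY hZ hW h
  unfold tst at h
  rcases h1 : (nthR es k).evR [X, Y, Z, W] with _ | c
  · rw [h1] at h
    exact absurd h (by simp [posO'])
  · rw [h1] at h
    refine nthR_spec es k (NumI.posF_spec hε (E.evR_sound hε _ ?_ h1) h)
    exact List.Forall₂.cons hX (List.Forall₂.cons hY (List.Forall₂.cons hZ
      (List.Forall₂.cons hW List.Forall₂.nil)))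

/-- the checker on a box `[(l - o) / N, (h - o) / N]` of four variables -/
noncomputable def chkF (es : List E) (N o0 o1 o2 o3 fuel l0 h0 l1 h1 l2 h2 l3 h3 c : ℕ) : Bool :=
  okB N (tst es) o0 o1 o2 o3 fuel l0 h0 l1 h1 l2 h2 l3 h3 c

theorem chkF4 {es : List E} {N o0 o1 o2 o3 fuel l0 h0 l1 h1 l2 h2 l3 h3 c : ℕ}
    (h : chkF es N o0 o1 o2 o3 fuel l0 h0 l1 h1 l2 h2 l3 h3 c = true) (hN : 0 < N) {x y z w : ℝ}
    (hx : ((l0 : ℝ) - o0) / N ≤ x) (hx' : x ≤ ((h0 : ℝ) - o0) / N)
    (hy : ((l1 : ℝ) - o1) / N ≤ y) (hy' : y ≤ ((h1 : ℝ) - o1) / N)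
    (hz : ((l2 : ℝ) - o2) / N ≤ z) (hz' : z ≤ ((h2 : ℝ) - o2) / N)
    (hw : ((l3 : ℝ) - o3) / N ≤ w) (hw' : w ≤ ((h3 : ℝ) - o3) / N) :
    ∃ e ∈ es, 0 < e.val [x, y, z, w] :=
  okB_sound hN (tst_ok es) h hx hx' hy hy' hz hz' hw hw'

end Pool.Agent.Work.NumG
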