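import Pool.Agent.Work.NumU.GenC

/-!
# Expressions for the values of the regions and for ramp functions
-/

namespace Pool.Agent.Work.NumG

open MP_b30479_gt.VOL MP_b30479_gt.G2
open NumU (uu UU_uu)

namespace E

/-- constant `n / 10000` -/
def c (n : ℤ) : E := .q n 10000

/-- ramp function, all parameters in `1/1000` -/
def tr (XM : ℤ) (cl cr : ℕ) (x : E) : E :=
  .relu (.sub (.sub (.q 1 1) (.relu (.sub (.q 1 1) (.mul (.q 1000 cl) x))))
    (.relu (.sub (.q 1 1) (.mul (.q 1000 cr) (.sub (.q XM 1000) x)))))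

/-- piecewise linear function -/
def pl (x : E) (y0 : ℤ) : List (ℤ × ℤ × ℕ) → E
  | [] => .q y0 1000
  | (a, n, d) :: r => .add (pl x y0 r) (.mul (.q n d) (.relu (.sub x (.q a 1000))))

/-- value of a digit `1` -/
def V1 (x t y k : E) : E :=
  .sub (.add (.uw (.add x y) (.add t k)) (.mul .pi (.sub (.add (.mul x k) (.mul t y)) (.add t k))))
    (.add (.uw x t) (.uw y k))

/-- value of a digit `2` -/
def V2 (x t y k : E) : E :=
  .sub (.sub (.uw (.add x y) (.add t k)) (.mul .pi (.add (.mul (.sub x y) (.sub t k)) (.mul (.q 1 2) (.add t k)))))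
    (.mul (.q 2 1) (.add (.uw x t) (.uw y k)))

/-- difference of the values of a digit `2` -/
def dV2 (x' t' x t y k : E) : E :=
  .sub (.add (.sub (.uw (.add x' y) (.add t' k)) (.uw (.add x y) (.add t k)))
    (.mul (.q 2 1) (.sub (.uw x t) (.uw x' t'))))
    (.mul .pi (.add (.sub (.mul (.sub x' y) (.sub t' k)) (.mul (.sub x y) (.sub t k)))
      (.mul (.q 1 2) (.sub t' t))))

/-- value of a digit `2` at an end -/
def V2e (x t : E) : E := .neg (.add (.mul .pi (.mul t (.add x (.q 1 2)))) (.uw x t))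

/-- value of a digit `3` at an end, inner variable `y + i s` -/
def V3e (x t y s : E) : E :=
  .neg (.add (.mul .pi (.sub (.add (.mul x s) (.mul y (.add t s))) (.mul (.q 1 2) s)))
    (.add (.uw (.sub y x) (.sub s t)) (.uw x t)))

/-- the part of the value of a digit `3` which depends on the hinge `x + i t` in the slot `0` -/
def Va (x t y s : E) : E :=
  .neg (.add (.mul .pi (.add (.mul x s) (.mul y t)))
    (.add (.uw (.sub y x) (.sub s t)) (.uw x t)))

end E

/-- piecewise linear function -/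
noncomputable def plR (x : ℝ) (y0 : ℤ) : List (ℤ × ℤ × ℕ) → ℝ
  | [] => (y0 : ℝ) / (1000 : ℕ)
  | (a, n, d) :: r => plR x y0 r + (n : ℝ) / d * max (x - (a : ℝ) / (1000 : ℕ)) 0

theorem E.pl_val (x : E) (y0 : ℤ) (xs : List ℝ) : ∀ l, (E.pl x y0 l).val xs = plR (x.val xs) y0 l
  | [] => rfl
  | (a, n, d) :: r => by
    simp only [E.pl, E.val, plR, E.pl_val x y0 xs r]

theorem tr_relu {XM cl cr x : ℝ} (hl : 0 < cl) (hr : 0 < cr) (hs : cl + cr ≤ XM) :
    MP_b30479_gt.G2.tr 0 XM cl cr x =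
      max (1 - max (1 - x / cl) 0 - max (1 - (XM - x) / cr) 0) 0 := by
  unfold MP_b30479_gt.G2.tr
  rw [sub_zero]
  have e1 : ∀ a : ℝ, 1 - max (1 - a) 0 = min a 1 := by
    intro a
    rcases le_total a 1 with h | h
    · rw [max_eq_left (by linarith only [h]), min_eq_left h]; ring
    · rw [max_eq_right (by linarith only [h]), min_eq_right h]; ring
  rcases le_total (x / cl) 1 with h | h
  · have h2 : x ≤ cl := by rwa [div_le_one hl] at h
    have h3 : 1 ≤ (XM - x) / cr := by rw [le_div_iff₀ hr]; linarith only [hs, h2]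
    rw [max_eq_right (a := 1 - (XM - x) / cr) (by linarith only [h3]), sub_zero, e1, min_eq_left h,
      min_eq_left (h.trans h3), min_eq_right h, max_comm]
  · rw [max_eq_right (a := 1 - x / cl) (by linarith only [h]), sub_zero, e1, max_comm]
    congr 1
    rcases le_total ((XM - x) / cr) 1 with h4 | h4
    · rw [min_eq_left h4, min_eq_right (h4.trans h), min_eq_right h4]
    · rw [min_eq_right h4]
      exact min_eq_left (le_min h h4)

theorem E.tr_val {XM : ℤ} {cl cr : ℕ} (hl : 0 < cl) (hr : 0 < cr) (hs : (cl : ℤ) + cr ≤ XM) (x : E)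
    (xs : List ℝ) : (E.tr XM cl cr x).val xs =
      MP_b30479_gt.G2.tr 0 ((XM : ℝ) / 1000) ((cl : ℝ) / 1000) ((cr : ℝ) / 1000) (x.val xs) := by
  have hl' : (0 : ℝ) < cl := by exact_mod_cast hl
  have hr' : (0 : ℝ) < cr := by exact_mod_cast hr
  have hs' : (cl : ℝ) + cr ≤ XM := by exact_mod_cast hs
  rw [tr_relu (by positivity) (by positivity) (by linarith only [hs'])]
  simp only [E.tr, E.val]
  push_cast
  have e1 : (1 : ℝ) / 1 = 1 := by norm_num
  have e2 : x.val xs / ((cl : ℝ) / 1000) = 1000 / cl * x.val xs := by field_simp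
  have e3 : ((XM : ℝ) / 1000 - x.val xs) / ((cr : ℝ) / 1000) = 1000 / cr * (XM / 1000 - x.val xs) := by
    field_simp
  rw [e1, e2, e3]

variable {x t y k s x' t' : E} {xs : List ℝ}

theorem E.V1_val : (E.V1 x t y k).val xs =
    MP_b30479_gt.G2.V1 ⟨x.val xs, t.val xs⟩ ⟨y.val xs, k.val xs⟩ := by
  unfold MP_b30479_gt.G2.V1
  simp only [E.V1, E.val, UU_uu, Complex.add_re, Complex.add_im, Complex.sub_im, Complex.mul_im]
  ring

theorem E.V2_val : (E.V2 x t y k).val xs =
    MP_b30479_gt.G2.V2 ⟨x.val xs, t.val xs⟩ ⟨y.val xs, k.val xs⟩ := by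
  unfold MP_b30479_gt.G2.V2
  simp only [E.V2, E.val, UU_uu, Complex.add_re, Complex.add_im, Complex.sub_im, Complex.sub_re,
    Complex.mul_im, pow_two]
  push_cast
  ring

theorem E.dV2_val : (E.dV2 x' t' x t y k).val xs =
    MP_b30479_gt.G2.V2 ⟨x'.val xs, t'.val xs⟩ ⟨y.val xs, k.val xs⟩ -
      MP_b30479_gt.G2.V2 ⟨x.val xs, t.val xs⟩ ⟨y.val xs, k.val xs⟩ := by
  unfold MP_b30479_gt.G2.V2
  simp only [E.dV2, E.val, UU_uu, Complex.add_re, Complex.add_im, Complex.sub_im, Complex.sub_re,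
    Complex.mul_im, pow_two]
  push_cast
  ring

theorem E.V2e_val : (E.V2e x t).val xs = MP_b30479_gt.G2.V2 ⟨x.val xs, t.val xs⟩ 0 := by
  have h0 : uu 0 0 = 0 := by
    have h := TL.uu_zero 0
    rw [abs_zero, mul_zero, neg_zero] at h
    exact h
  unfold MP_b30479_gt.G2.V2
  simp only [E.V2e, E.val, UU_uu, Complex.add_im, Complex.mul_im, pow_two, add_zero, sub_zero]
  rw [Complex.zero_re, Complex.zero_im, h0]
  push_cast
  ring

theorem E.V3e_val : (E.V3e x t y s).val xs =
    MP_b30479_gt.G2.V3 ⟨x.val xs, t.val xs⟩ ⟨y.val xs, s.val xs⟩ 0 := by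
  unfold MP_b30479_gt.G2.V3
  simp only [E.V3e, E.val, add_zero, sub_zero, UU_zero]
  simp only [UU_uu, Complex.add_im, Complex.sub_im, Complex.sub_re,
    Complex.mul_im, pow_two, Complex.mul_re]
  push_cast
  simp
  ring

end Pool.Agent.Work.NumG
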