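import Pool.Agent.Work.MP_b30479_gt.G2.Num.RF
import Pool.Agent.Work.MP_b30479_gt.G2.Num.Link

/-!
# Numerics of `UU`: analytic part
-/

namespace Pool.Agent.Work.NumU

open MP_b30479_gt MP_b30479_gt.VOL MP_b30479_gt.G2 MP_b30479_gt.G2.Num

/-- `UU (x + i t)` as a real function -/
noncomputable def uu (x t : ℝ) : ℝ := UU ⟨x, t⟩

theorem UU_uu (w : ℂ) : UU w = uu w.re w.im := rfl

theorem uu_neg (x t : ℝ) : uu x (-t) = uu x t := by
  unfold uu UU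
  simp

theorem uu_one_sub (x t : ℝ) : uu (1 - x) t = -uu x t := by
  have h := UU_one_sub ⟨x, -t⟩
  have e : (1 : ℂ) - ⟨x, -t⟩ = ⟨1 - x, t⟩ := by
    apply Complex.ext <;> simp
  rw [e] at h
  rw [← uu_neg x t]
  exact h

theorem uu_add_one (x t : ℝ) : uu (x + 1) t = uu x t + Real.pi * |t| := by
  have h := UU_add_one ⟨x, t⟩
  have e : (⟨x, t⟩ : ℂ) + 1 = ⟨x + 1, t⟩ := by
    apply Complex.ext <;> simp
  rw [e] at h
  exact h

/-! ### derivative along a segment -/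

theorem uu_line {x t a b τ : ℝ} (h0 : 0 < x + τ * a) (h1 : x + τ * a < 1) :
    HasDerivAt (fun τ => uu (x + τ * a) (t + τ * b))
      (a * NumI.lnA (x + τ * a) (t + τ * b) - b * NumI.lnB (x + τ * a) (t + τ * b)) τ := by
  have hg : HasDerivAt (fun τ : ℝ => ((x : ℂ) + t * Complex.I) + τ * ((a : ℂ) + b * Complex.I))
      ((a : ℂ) + b * Complex.I) τ := by
    have := ((Complex.ofRealCLM.hasDerivAt (x := τ)).mul_const ((a : ℂ) + b * Complex.I)).const_add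
      ((x : ℂ) + t * Complex.I)
    simpa using this
  have e : ∀ τ : ℝ, ((x : ℂ) + t * Complex.I) + τ * ((a : ℂ) + b * Complex.I) =
      ⟨x + τ * a, t + τ * b⟩ := by
    intro τ
    apply Complex.ext <;> simp
  have hs : ((x : ℂ) + t * Complex.I) + τ * ((a : ℂ) + b * Complex.I) ∈ strip := by
    rw [e]
    exact ⟨h0, h1⟩
  have h2 := hasDerivAt_UU hg (Or.inr hs)
  have h3 : (fun τ => uu (x + τ * a) (t + τ * b)) =
      fun τ : ℝ => UU (((x : ℂ) + t * Complex.I) + τ * ((a : ℂ) + b * Complex.I)) := by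
    funext s
    rw [e]
    rfl
  rw [h3]
  refine h2.congr_deriv ?_
  rw [LL_lnA hs, YY_lnB hs, e]
  simp
  ring

/-- second order expansion of `uu` -/
theorem uu_second {x t a b L2 : ℝ} (hL : 0 < L2)
    (h0 : ∀ τ ∈ Set.Icc (0 : ℝ) 1, 0 < x + τ * a ∧ x + τ * a < 1)
    (hM : ∀ τ ∈ Set.Icc (0 : ℝ) 1, L2 ≤ NumI.MM (x + τ * a) (t + τ * b)) :
    |uu (x + a) (t + b) - uu x t - (a * NumI.lnA x t - b * NumI.lnB x t)| ≤
      Real.pi * (|a ^ 2 - b ^ 2| * |NumI.PP x t| + 2 * |a * b| * |NumI.QQ x t|) / 2 +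
        (|a| + |b|) * (Real.pi ^ 2 * (a ^ 2 + b ^ 2) / L2 / 2) / 3 := by
  have hpi := Real.pi_pos
  have hs : ∀ τ ∈ Set.Icc (0 : ℝ) 1, 0 < Real.sin (Real.pi * (x + τ * a)) := by
    intro τ hτ
    obtain ⟨k0, k1⟩ := h0 τ hτ
    apply Real.sin_pos_of_pos_of_lt_pi
    · positivity
    · nlinarith only [hpi, k1]
  set C1 := Real.pi * (|a ^ 2 - b ^ 2| * |NumI.PP x t| + 2 * |a * b| * |NumI.QQ x t|) with hC1
  set C2 := (|a| + |b|) * (Real.pi ^ 2 * (a ^ 2 + b ^ 2) / L2 / 2) with hC2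
  have key := image_norm_le_of_norm_deriv_right_le_deriv_boundary
    (f := fun τ => uu (x + τ * a) (t + τ * b) - uu x t - τ * (a * NumI.lnA x t - b * NumI.lnB x t))
    (f' := fun τ => (a * NumI.lnA (x + τ * a) (t + τ * b) - b * NumI.lnB (x + τ * a) (t + τ * b)) -
      (a * NumI.lnA x t - b * NumI.lnB x t))
    (a := 0) (b := 1) (B := fun τ => C1 * τ ^ 2 / 2 + C2 * τ ^ 3 / 3)
    (B' := fun τ => C1 * τ + C2 * τ ^ 2)
  have hd : ∀ τ ∈ Set.Icc (0 : ℝ) 1, HasDerivAt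
      (fun τ => uu (x + τ * a) (t + τ * b) - uu x t - τ * (a * NumI.lnA x t - b * NumI.lnB x t))
      ((a * NumI.lnA (x + τ * a) (t + τ * b) - b * NumI.lnB (x + τ * a) (t + τ * b)) -
      (a * NumI.lnA x t - b * NumI.lnB x t)) τ := fun τ hτ => by
    have := ((uu_line (t := t) (b := b) (h0 τ hτ).1 (h0 τ hτ).2).sub_const (uu x t)).sub
      ((hasDerivAt_id τ).mul_const (a * NumI.lnA x t - b * NumI.lnB x t))
    exact this.congr_deriv (by simp)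
  have h2 := key (fun τ hτ => (hd τ hτ).continuousAt.continuousWithinAt)
    (fun τ hτ => (hd τ ⟨hτ.1, hτ.2.le⟩).hasDerivWithinAt) (by simp)
    (fun τ => by
      have := (((hasDerivAt_pow 2 τ).const_mul C1).div_const 2).add
        (((hasDerivAt_pow 3 τ).const_mul C2).div_const 3)
      refine this.congr_deriv ?_
      push_cast
      ring)
    (fun τ hτ => by
      have hτ0 := hτ.1
      have hτ1 := hτ.2.le
      have hτ' : τ ∈ Set.Icc (0 : ℝ) 1 := ⟨hτ0, hτ1⟩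
      have h3 := NumI.ln_second (x := x) (t := t) (a := τ * a) (b := τ * b) hL
        (fun s hs' => by
          have := hs (s * τ) ⟨mul_nonneg hs'.1 hτ0, mul_le_one₀ hs'.2 hτ0 hτ1⟩
          rwa [mul_assoc] at this)
        (fun s hs' => by
          have := hM (s * τ) ⟨mul_nonneg hs'.1 hτ0, mul_le_one₀ hs'.2 hτ0 hτ1⟩
          rwa [mul_assoc, mul_assoc] at this)
      obtain ⟨h4, h5⟩ := h3
      set K := Real.pi ^ 2 * ((τ * a) ^ 2 + (τ * b) ^ 2) / L2 / 2 with hK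
      have eK : (|a| + |b|) * K = C2 * τ ^ 2 := by
        rw [hK, hC2]
        ring
      rw [Real.norm_eq_abs]
      have e : (a * NumI.lnA (x + τ * a) (t + τ * b) - b * NumI.lnB (x + τ * a) (t + τ * b)) -
          (a * NumI.lnA x t - b * NumI.lnB x t) =
          τ * (Real.pi * ((a ^ 2 - b ^ 2) * NumI.PP x t + 2 * (a * b) * NumI.QQ x t)) +
          (a * (NumI.lnA (x + τ * a) (t + τ * b) - NumI.lnA x t -
            Real.pi * (τ * a * NumI.PP x t + τ * b * NumI.QQ x t)) -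
           b * (NumI.lnB (x + τ * a) (t + τ * b) - NumI.lnB x t -
            Real.pi * (τ * b * NumI.PP x t - τ * a * NumI.QQ x t))) := by
        ring
      rw [e, ← eK]
      refine (abs_add_le _ _).trans (add_le_add ?_ ?_)
      · rw [abs_mul, abs_of_nonneg hτ0, abs_mul, abs_of_pos hpi, mul_comm C1, hC1]
        apply mul_le_mul_of_nonneg_left _ hτ0
        apply mul_le_mul_of_nonneg_left _ hpi.le
        refine (abs_add_le _ _).trans (add_le_add ?_ ?_)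
        · rw [abs_mul]
        · rw [abs_mul, abs_mul, abs_of_pos (two_pos : (0 : ℝ) < 2)]
      · refine (abs_sub _ _).trans ?_
        rw [abs_mul, abs_mul, add_mul]
        exact add_le_add (mul_le_mul_of_nonneg_left h4 (abs_nonneg _))
          (mul_le_mul_of_nonneg_left h5 (abs_nonneg _)))
    (Set.right_mem_Icc.2 zero_le_one)
  simpa [Real.norm_eq_abs] using h2

/-! ### values -/

/-- explicit real part of `G0` with rational coefficients -/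
noncomputable def g0 (x t : ℝ) : ℝ :=
  x * (Real.log (x ^ 2 + t ^ 2) / 2) - t * Real.arctan (t / x) +
  ((1 + x) * (Real.log ((1 + x) ^ 2 + t ^ 2) / 2) - t * Real.arctan (t / (1 + x))) -
  ((1 - x) * (Real.log ((1 - x) ^ 2 + t ^ 2) / 2) - t * Real.arctan (t / (1 - x))) +
  (Real.log (2 * Real.pi) - 3) * x -
  x * (6449340668 / 30000000000 * (x ^ 2 - 3 * t ^ 2) +
    823232337 / 100000000000 * (x ^ 4 - 10 * x ^ 2 * t ^ 2 + 5 * t ^ 4) +
    173430619 / 210000000000 * (x ^ 6 - 21 * x ^ 4 * t ^ 2 + 35 * x ^ 2 * t ^ 4 - 7 * t ^ 6))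

theorem log_re_im {x t : ℝ} (hx : 0 < x) : Complex.log ⟨x, t⟩ =
    ⟨Real.log (x ^ 2 + t ^ 2) / 2, Real.arctan (t / x)⟩ := by
  apply Complex.ext
  · rw [Complex.log_re, Complex.norm_def, Complex.normSq_mk, Real.log_sqrt (add_nonneg (mul_self_nonneg x) (mul_self_nonneg t))]
    congr 2
    ring
  · rw [Complex.log_im, Complex.arg_of_re_nonneg (by simpa using hx.le)]
    have hn : 0 < Real.sqrt (x ^ 2 + t ^ 2) := Real.sqrt_pos.2 (by positivity)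
    have e : Real.sqrt (x ^ 2 + t ^ 2) = ‖(⟨x, t⟩ : ℂ)‖ := by
      rw [Complex.norm_def, Complex.normSq_mk]
      congr 1
      ring
    rw [← e, Real.arctan_eq_arcsin]
    congr 1
    change t / Real.sqrt (x ^ 2 + t ^ 2) = t / x / Real.sqrt (1 + (t / x) ^ 2)
    have e2 : 1 + (t / x) ^ 2 = (x ^ 2 + t ^ 2) / x ^ 2 := by
      field_simp
    rw [e2, Real.sqrt_div (by positivity), Real.sqrt_sq hx.le]
    field_simp

theorem re_G0 {x t : ℝ} (hx : 0 < x) (hx1 : x < 1) : (G0 ⟨x, t⟩).re =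
    x * (Real.log (x ^ 2 + t ^ 2) / 2) - t * Real.arctan (t / x) +
  ((1 + x) * (Real.log ((1 + x) ^ 2 + t ^ 2) / 2) - t * Real.arctan (t / (1 + x))) -
  ((1 - x) * (Real.log ((1 - x) ^ 2 + t ^ 2) / 2) - t * Real.arctan (t / (1 - x))) +
  (Real.log (2 * Real.pi) - 3) * x -
  x * (Zt 1 / 3 * (x ^ 2 - 3 * t ^ 2) +
    Zt 2 / 10 * (x ^ 4 - 10 * x ^ 2 * t ^ 2 + 5 * t ^ 4) +
    Zt 3 / 21 * (x ^ 6 - 21 * x ^ 4 * t ^ 2 + 35 * x ^ 2 * t ^ 4 - 7 * t ^ 6)) := by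
  unfold G0
  have e1 : (1 : ℂ) + ⟨x, t⟩ = ⟨1 + x, t⟩ := by apply Complex.ext <;> simp
  have e2 : (1 : ℂ) - ⟨x, t⟩ = ⟨1 - x, -t⟩ := by apply Complex.ext <;> simp
  rw [e1, e2, log_re_im hx, log_re_im (by linarith only [hx, hx1] : 0 < 1 + x), log_re_im (by linarith only [hx1] : 0 < 1 - x)]
  have e3 : ((Real.log (2 * Real.pi) : ℂ) - 3) = ((Real.log (2 * Real.pi) - 3 : ℝ) : ℂ) := by
    push_cast
    ring
  have e4 : ((Zt 1 : ℂ) / 3) = ((Zt 1 / 3 : ℝ) : ℂ) := by push_cast; ring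
  have e5 : ((Zt 2 : ℂ) / 10) = ((Zt 2 / 10 : ℝ) : ℂ) := by push_cast; ring
  have e6 : ((Zt 3 : ℂ) / 21) = ((Zt 3 / 21 : ℝ) : ℂ) := by push_cast; ring
  have p3 : ((⟨x, t⟩ : ℂ) ^ 3).re = x * (x ^ 2 - 3 * t ^ 2) := by
    simp only [pow_succ, pow_zero, one_mul, Complex.mul_re, Complex.mul_im]
    ring
  have p5 : ((⟨x, t⟩ : ℂ) ^ 5).re = x * (x ^ 4 - 10 * x ^ 2 * t ^ 2 + 5 * t ^ 4) := by
    simp only [pow_succ, pow_zero, one_mul, Complex.mul_re, Complex.mul_im]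
    ring
  have p7 : ((⟨x, t⟩ : ℂ) ^ 7).re =
      x * (x ^ 6 - 21 * x ^ 4 * t ^ 2 + 35 * x ^ 2 * t ^ 4 - 7 * t ^ 6) := by
    simp only [pow_succ, pow_zero, one_mul, Complex.mul_re, Complex.mul_im]
    ring
  rw [e3, e4, e5, e6]
  simp only [Complex.sub_re, Complex.add_re, Complex.mul_re, Complex.ofReal_re, Complex.ofReal_im,
    zero_mul, sub_zero, p3, p5, p7]
  have e7 : Real.arctan (-t / (1 - x)) = -Real.arctan (t / (1 - x)) := by
    rw [← Real.arctan_neg]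
    congr 1
    ring
  have e8 : (-t) ^ 2 = t ^ 2 := by ring
  rw [e7, e8]
  ring

theorem abs_g0 {x t : ℝ} (hx : 0 < x) (hx1 : x < 1) (hn : x ^ 2 + t ^ 2 ≤ 1 / 2) :
    |(G0 ⟨x, t⟩).re - g0 x t| ≤ 1 / 10 ^ 9 := by
  rw [re_G0 hx hx1]
  unfold g0
  have h1 := Zt_one_bounds
  have h2 := Zt_two_bounds
  have h3 := Zt_three_bounds
  set X := x ^ 2 with hX
  set T := t ^ 2 with hT
  have hX0 : 0 ≤ X := sq_nonneg x
  have hT0 : 0 ≤ T := sq_nonneg t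
  have eX2 : x ^ 4 = X ^ 2 := by rw [hX]; ring
  have eX3 : x ^ 6 = X ^ 3 := by rw [hX]; ring
  have eT2 : t ^ 4 = T ^ 2 := by rw [hT]; ring
  have eT3 : t ^ 6 = T ^ 3 := by rw [hT]; ring
  have e : ∀ A B C D E F G H I J : ℝ, A - x * (B * D + E * F + G * H) -
      (A - x * (C * D + I * F + J * H)) = -(x * ((B - C) * D + (E - I) * F + (G - J) * H)) := by
    intros; ring
  rw [e, abs_neg, abs_mul, abs_of_pos hx, eX2, eX3, eT2, eT3]
  have b1 : |X - 3 * T| ≤ 3 / 2 := by rw [abs_le]; constructor <;> linarith only [hn, hX0, hx, hx1, hT0]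
  have b2 : |X ^ 2 - 10 * X * T + 5 * T ^ 2| ≤ 3 := by
    rw [abs_le]; constructor <;> nlinarith
  have b3 : |X ^ 3 - 21 * X ^ 2 * T + 35 * X * T ^ 2 - 7 * T ^ 3| ≤ 8 := by
    have hX1 : X ≤ 1 / 2 := by linarith only [hn, hT0]
    have hT1 : T ≤ 1 / 2 := by linarith only [hn, hX0]
    have m1 : 0 ≤ X * T := mul_nonneg hX0 hT0
    have m2 : X * T ≤ 1 / 4 := by nlinarith
    have m3 : X ^ 2 * T ≤ 1 / 8 := by nlinarith
    have m4 : X * T ^ 2 ≤ 1 / 8 := by nlinarith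
    have m5 : X ^ 3 ≤ 1 / 8 := by nlinarith [sq_nonneg X]
    have m6 : T ^ 3 ≤ 1 / 8 := by nlinarith [sq_nonneg T]
    have n3 : 0 ≤ X ^ 2 * T := by positivity
    have n4 : 0 ≤ X * T ^ 2 := by positivity
    have n5 : 0 ≤ X ^ 3 := by positivity
    have n6 : 0 ≤ T ^ 3 := by positivity
    rw [abs_le]; constructor <;> linarith only [hx, hx1, m3, m6, n4, n5, m4, m5, n3, n6]
  have c1 : |Zt 1 / 3 - 6449340668 / 30000000000| ≤ 1 / (3 * 10 ^ 10) := by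
    rw [abs_le]; constructor <;> linarith only [hx, hx1, h1, h1.1, h1.2]
  have c2 : |Zt 2 / 10 - 823232337 / 100000000000| ≤ 1 / 10 ^ 11 := by
    rw [abs_le]; constructor <;> linarith only [hx, hx1, h2, h2.1, h2.2]
  have c3 : |Zt 3 / 21 - 173430619 / 210000000000| ≤ 1 / (21 * 10 ^ 10) := by
    rw [abs_le]; constructor <;> linarith only [hx, hx1, h3, h3.1, h3.2]
  have k1 := mul_le_mul c1 b1 (abs_nonneg _) (by positivity)
  have k2 := mul_le_mul c2 b2 (abs_nonneg _) (by positivity)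
  have k3 := mul_le_mul c3 b3 (abs_nonneg _) (by positivity)
  rw [← abs_mul] at k1 k2 k3
  have k4 := abs_add_three ((Zt 1 / 3 - 6449340668 / 30000000000) * (X - 3 * T))
    ((Zt 2 / 10 - 823232337 / 100000000000) * (X ^ 2 - 10 * X * T + 5 * T ^ 2))
    ((Zt 3 / 21 - 173430619 / 210000000000) * (X ^ 3 - 21 * X ^ 2 * T + 35 * X * T ^ 2 - 7 * T ^ 3))
  have k5 : |(Zt 1 / 3 - 6449340668 / 30000000000) * (X - 3 * T) +
    (Zt 2 / 10 - 823232337 / 100000000000) * (X ^ 2 - 10 * X * T + 5 * T ^ 2) +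
    (Zt 3 / 21 - 173430619 / 210000000000) * (X ^ 3 - 21 * X ^ 2 * T + 35 * X * T ^ 2 - 7 * T ^ 3)| ≤
      1 / 10 ^ 9 := by
    refine k4.trans ?_
    norm_num at k1 k2 k3 ⊢
    linarith only [hx, hx1, k1, k2, k3]
  calc x * _ ≤ 1 * (1 / 10 ^ 9) := mul_le_mul hx1.le k5 (abs_nonneg _) zero_le_one
    _ = _ := one_mul _

/-- **value of `uu`** -/
theorem abs_uu_sub_g0 {x t : ℝ} (hx : 0 < x) (hx1 : x < 1) (hn : x ^ 2 + t ^ 2 ≤ 1 / 2) :
    |uu x t - g0 x t| ≤ 1 / 10260 * (x ^ 2 + t ^ 2) ^ 4 + 1 / 10 ^ 9 := by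
  have hnz : ‖(⟨x, t⟩ : ℂ)‖ ^ 2 = x ^ 2 + t ^ 2 := by
    rw [← Complex.normSq_eq_norm_sq, Complex.normSq_mk]
    ring
  have h1 := abs_UU_sub_G0 (z := ⟨x, t⟩) ⟨hx, hx1⟩ (by rw [hnz]; exact hn)
  have h2 := abs_g0 hx hx1 hn
  have h3 : 2 / 63 * Zt 4 * ‖(⟨x, t⟩ : ℂ)‖ ^ 9 ≤ 1 / 10260 * (x ^ 2 + t ^ 2) ^ 4 := by
    have e : ‖(⟨x, t⟩ : ℂ)‖ ^ 9 = (x ^ 2 + t ^ 2) ^ 4 * ‖(⟨x, t⟩ : ℂ)‖ := by
      rw [← hnz]
      ring
    have h4 : ‖(⟨x, t⟩ : ℂ)‖ ≤ 7072 / 10000 := by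
      apply abs_le_of_sq_le_sq' _ (by norm_num) |>.2
      rw [hnz]
      norm_num
      linarith only [hx, hx1, hn]
    have h5 := Zt_four_le
    have h6 := Zt_nonneg 4
    rw [e]
    have h7 : Zt 4 * ‖(⟨x, t⟩ : ℂ)‖ ≤ 0.00433577 * (7072 / 10000) :=
      mul_le_mul h5 h4 (norm_nonneg _) (by norm_num)
    have h8 : 0 ≤ (x ^ 2 + t ^ 2) ^ 4 := by positivity
    calc 2 / 63 * Zt 4 * ((x ^ 2 + t ^ 2) ^ 4 * ‖(⟨x, t⟩ : ℂ)‖) =
        2 / 63 * (Zt 4 * ‖(⟨x, t⟩ : ℂ)‖) * (x ^ 2 + t ^ 2) ^ 4 := by ring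
      _ ≤ 1 / 10260 * (x ^ 2 + t ^ 2) ^ 4 := by
        apply mul_le_mul_of_nonneg_right _ h8
        norm_num at h7 ⊢
        linarith only [hx, hx1, h7]
  have h9 := abs_add_le (uu x t - (G0 ⟨x, t⟩).re) ((G0 ⟨x, t⟩).re - g0 x t)
  rw [sub_add_sub_cancel] at h9
  refine h9.trans (add_le_add (le_trans h1 h3) h2)

end Pool.Agent.Work.NumU
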