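import Pool.Agent.Work.NumU.GenF

/-!
# Numerics with the horizontal derivative of `UU` at every real part

`xw x t`: `lnA x t = UU_x (x + i t) = log (4 (sin² (π x) + sinh² (π t))) / 2` for every real `x`
(inside `(0, 1)` after an integer shift as `lnA`, otherwise by the formula).  Expressions `D`:
expressions `E` (`of`), sums, products and `xw`; the checker `chkD` has the format of `chkF`.
-/

namespace Pool.Agent.Work.NumG

open NumI (F DR DR_pos posO' okB okB_sound TestOk)

theorem lnA_add_one (x t : ℝ) : NumI.lnA (x + 1) t = NumI.lnA x t := by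
  unfold NumI.lnA
  rw [show Real.pi * (x + 1) = Real.pi * x + Real.pi by ring, Real.sin_add_pi, neg_sq]

theorem lnA_add_nat (x t : ℝ) (n : ℕ) : NumI.lnA (x + n) t = NumI.lnA x t := by
  induction n with
  | zero => simp
  | succ n ih => rw [Nat.cast_add, Nat.cast_one, ← add_assoc, lnA_add_one, ih]

theorem lnA_sub_nat (x t : ℝ) (n : ℕ) : NumI.lnA (x - n) t = NumI.lnA x t := by
  have h := lnA_add_nat (x - n) t n
  rwa [sub_add_cancel, eq_comm] at h

/-- `log (4 (sin² (π x) + sinh² (π t))) / 2` -/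
def xgF (X T : F) : Option F :=
  match F.hyp false (F.mul F.pi T) with
  | none => none
  | some s => match F.log (F.mulq 4 1 (F.add (F.sqn (F.sinPi X)) (F.sqn s))) with
    | none => none
    | some l => some (F.mulq 1 2 l)

theorem xgF_encl {X T c : F} {ε : ℕ → ℝ} {x t : ℝ} (hε : ∀ i, |ε i| ≤ 1) (hx : X.Encl ε x)
    (ht : T.Encl ε t) (h : xgF X T = some c) : c.Encl ε (NumI.lnA x t) := by
  unfold xgF at h
  rcases hs : F.hyp false (F.mul F.pi T) with _ | s
  · rw [hs] at h; exact absurd h (by simp)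
  rw [hs] at h
  simp only at h
  rcases hl : F.log (F.mulq 4 1 (F.add (F.sqn (F.sinPi X)) (F.sqn s))) with _ | l
  · rw [hl] at h; exact absurd h (by simp)
  rw [hl] at h
  simp only [Option.some.injEq] at h
  have b1 := NumI.F.Encl.sinh hε (F.Encl.mul hε (F.pi_encl ε) ht) hs
  have b2 := F.Encl.add (F.Encl.sqn hε (F.Encl.sinPi hε hx)) (F.Encl.sqn hε b1)
  have b3 := NumI.F.Encl.mulq (n := 4) (d := 1) one_pos hε b2
  have b4 := NumI.F.Encl.log hε b3 hl
  have b5 := NumI.F.Encl.mulq (n := 1) (d := 2) two_pos hε b4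
  rw [← h]
  unfold NumI.lnA
  convert b5 using 1
  push_cast
  ring_nf

/-- `lnA` for every real `x` -/
def xwF (a b : F) : Option F :=
  let X := a.nf
  let T := b.nf
  cond (Nat.beq X.q 0)
    (pickF (F.lnA (shDF (Nat.div X.p 68719476736) X) T) (xgF X T))
    (pickF (F.lnA (shUF (Nat.div (Nat.add X.q 68719476735) 68719476736) X) T) (xgF X T))

theorem xwF_encl {a b c : F} {ε : ℕ → ℝ} {x t : ℝ} (hε : ∀ i, |ε i| ≤ 1) (hx : a.Encl ε x)
    (ht : b.Encl ε t) (h : xwF a b = some c) : c.Encl ε (NumI.lnA x t) := by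
  unfold xwF at h
  simp only at h
  have hX := F.Encl.nf hx
  have hT := F.Encl.nf ht
  rcases h1 : Nat.beq a.nf.q 0 with _ | _
  · rw [h1, cond_false] at h
    rcases pickF_spec h with h | h
    · rw [← lnA_add_nat x t (Nat.div (Nat.add a.nf.q 68719476735) 68719476736)]
      exact NumI.F.Encl.lnA hε (shUF_encl hX _) hT h
    · exact xgF_encl hε hX hT h
  · rw [h1, cond_true] at h
    rcases pickF_spec h with h | h
    · rw [← lnA_sub_nat x t (Nat.div a.nf.p 68719476736)]
      exact NumI.F.Encl.lnA hε (shDF_encl hX _) hT h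
    · exact xgF_encl hε hX hT h

/-- expressions with horizontal derivatives -/
inductive D where
  | of : E → D
  | add : D → D → D
  | sub : D → D → D
  | mul : D → D → D
  | neg : D → D
  | xw : E → E → D

/-- the real value -/
noncomputable def D.val : D → List ℝ → ℝ
  | of e, xs => e.val xs
  | add a b, xs => a.val xs + b.val xs
  | sub a b, xs => a.val xs - b.val xs
  | mul a b, xs => a.val xs * b.val xs
  | neg a, xs => -a.val xs
  | xw a b, xs => NumI.lnA (a.val xs) (b.val xs)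

/-- evaluation by the recursor -/
noncomputable def D.evR (e : D) : List F → Option F :=
  D.rec (motive := fun _ => List F → Option F)
    (fun e xs => e.evR xs)
    (fun _ _ a b xs => NumI.o2 F.add (a xs) (b xs))
    (fun _ _ a b xs => NumI.o2 F.sub (a xs) (b xs))
    (fun _ _ a b xs => NumI.o2 F.mul (a xs) (b xs))
    (fun _ a xs => NumI.o1 F.neg (a xs))
    (fun a b xs => NumI.o3 xwF (a.evR xs) (b.evR xs)) e

theorem D.evR_sound {ε : ℕ → ℝ} (hε : ∀ i, |ε i| ≤ 1) (e : D) : ∀ {fs : List F} {xs : List ℝ}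
    {c : F}, List.Forall₂ (fun f x => F.Encl f ε x) fs xs → e.evR fs = some c →
      c.Encl ε (e.val xs) := by
  induction e with
  | of e =>
    intro fs xs c h he
    exact E.evR_sound hε e h he
  | add a b iha ihb =>
    intro fs xs c h he
    obtain ⟨u, v, hu, hv, rfl⟩ := NumI.o2_some he
    exact F.Encl.add (iha h hu) (ihb h hv)
  | sub a b iha ihb =>
    intro fs xs c h he
    obtain ⟨u, v, hu, hv, rfl⟩ := NumI.o2_some he
    exact F.Encl.sub (iha h hu) (ihb h hv)
  | mul a b iha ihb =>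
    intro fs xs c h he
    obtain ⟨u, v, hu, hv, rfl⟩ := NumI.o2_some he
    exact F.Encl.mul hε (iha h hu) (ihb h hv)
  | neg a iha =>
    intro fs xs c h he
    obtain ⟨u, hu, rfl⟩ := NumI.o1_some he
    exact F.Encl.neg (iha h hu)
  | xw a b =>
    intro fs xs c h he
    obtain ⟨u, v, hu, hv, hc⟩ := NumI.o3_some he
    exact xwF_encl hε (E.evR_sound hε a h hu) (E.evR_sound hε b h hv) hc

/-! ### the checker -/

/-- the expression number `k` -/
noncomputable def nthD (es : List D) : ℕ → D :=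
  List.rec (motive := fun _ => ℕ → D) (fun _ => D.of (E.q 0 1))
    (fun x _ ih i => Nat.rec (motive := fun _ => D) x (fun j _ => ih j) i) es

theorem nthD_spec : ∀ (es : List D) (i : ℕ) {xs : List ℝ}, 0 < (nthD es i).val xs →
    ∃ e ∈ es, 0 < e.val xs
  | [], i, xs, h => by
    change 0 < (D.of (E.q 0 1)).val xs at h
    simp only [D.val, E.val] at h
    norm_num at h
  | e :: es, 0, xs, h => ⟨e, List.mem_cons_self, h⟩
  | e :: es, i + 1, xs, h => by
    obtain ⟨e', he, hp⟩ := nthD_spec es i h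
    exact ⟨e', List.mem_cons_of_mem _ he, hp⟩

/-- the tests: the expression number `k` is positive -/
noncomputable def tstD (es : List D) (k : ℕ) (X Y Z W : F) : Bool :=
  posO' ((nthD es k).evR [X, Y, Z, W])

theorem tstD_ok (es : List D) : TestOk (tstD es) fun x y z w => ∃ e ∈ es, 0 < e.val [x, y, z, w] := by
  intro k X Y Z W ε x y z w hε hX hY hZ hW h
  unfold tstD at h
  rcases h1 : (nthD es k).evR [X, Y, Z, W] with _ | c
  · rw [h1] at h
    exact absurd h (by simp [posO'])
  · rw [h1] at h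
    refine nthD_spec es k (NumI.posF_spec hε (D.evR_sound hε _ ?_ h1) h)
    exact List.Forall₂.cons hX (List.Forall₂.cons hY (List.Forall₂.cons hZ
      (List.Forall₂.cons hW List.Forall₂.nil)))

/-- the checker on a box `[(l - o) / N, (h - o) / N]` of four variables -/
noncomputable def chkD (es : List D) (N o0 o1 o2 o3 fuel l0 h0 l1 h1 l2 h2 l3 h3 c : ℕ) : Bool :=
  okB N (tstD es) o0 o1 o2 o3 fuel l0 h0 l1 h1 l2 h2 l3 h3 c

theorem chkD4 {es : List D} {N o0 o1 o2 o3 fuel l0 h0 l1 h1 l2 h2 l3 h3 c : ℕ}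
    (h : chkD es N o0 o1 o2 o3 fuel l0 h0 l1 h1 l2 h2 l3 h3 c = true) (hN : 0 < N) {x y z w : ℝ}
    (hx : ((l0 : ℝ) - o0) / N ≤ x) (hx' : x ≤ ((h0 : ℝ) - o0) / N)
    (hy : ((l1 : ℝ) - o1) / N ≤ y) (hy' : y ≤ ((h1 : ℝ) - o1) / N)
    (hz : ((l2 : ℝ) - o2) / N ≤ z) (hz' : z ≤ ((h2 : ℝ) - o2) / N)
    (hw : ((l3 : ℝ) - o3) / N ≤ w) (hw' : w ≤ ((h3 : ℝ) - o3) / N) :
    ∃ e ∈ es, 0 < e.val [x, y, z, w] :=
  okB_sound hN (tstD_ok es) h hx hx' hy hy' hz hz' hw hw'

end Pool.Agent.Work.NumG
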