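import Pool.Agent.Work.NumI.Expr
import Pool.Agent.Work.MP_b30479_gt.DT.RDefs
import Pool.Agent.Work.MP_b30479_gt.VC.AbelPlana

/-!
# Numerics of `UU`: the value at a point
-/

namespace Pool.Agent.Work.NumU

open NumI

section
open E

/-- `log (2 π)` -/
theorem log_two_pi : |Real.log (2 * Real.pi) - 18378770664 / 10000000000| ≤ 1 / 10 ^ 9 := by
  have h1 : chk [sub (q 1 1000000000) (sub (log (mul (q 2 1) pi)) (q 18378770664 10000000000))] 1
      [V.of 1 0 0] = true := by decide +kernel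
  have h2 : chk [sub (q 1 1000000000) (sub (q 18378770664 10000000000) (log (mul (q 2 1) pi)))] 1
      [V.of 1 0 0] = true := by decide +kernel
  have p1 := pos_of_chk (chk1 h1 (by norm_num) (x := 0) (by norm_num) (by norm_num))
  have p2 := pos_of_chk (chk1 h2 (by norm_num) (x := 0) (by norm_num) (by norm_num))
  simp only [val] at p1 p2
  norm_num at p1 p2 ⊢
  rw [abs_le]
  constructor <;> linarith only [p2, p1]

end

/-- forces the evaluation of a natural number -/
def frc {α : Type} (n : ℕ) (k : ℕ → α) : α := match n with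
  | 0 => k 0
  | Nat.succ m => k (Nat.succ m)

theorem frc_eq {α : Type} (n : ℕ) (k : ℕ → α) : frc n k = k n := by cases n <;> rfl

/-- positive part of the polynomial -/
def pPs (X X2 T2 : ℕ) : ℕ :=
  Nat.div (Nat.add (Nat.add (Nat.mul 451453846760 X) (Nat.mul 17287879077 (Nat.add X2 (Nat.mul 5 T2))))
    (Nat.mul 1734306190 (Nat.div (Nat.add (Nat.mul X X2) (Nat.mul 35 (Nat.mul X T2))) 68719476736)))
    2100000000000

/-- negative part of the polynomial -/
def pNg (T XT X2 T2 : ℕ) : ℕ :=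
  Nat.div (Nat.add (Nat.add (Nat.mul 1354361540280 T) (Nat.mul 172878790770 XT))
    (Nat.mul 1734306190 (Nat.div (Nat.add (Nat.mul 21 (Nat.mul T X2)) (Nat.mul 7 (Nat.mul T T2))) 68719476736)))
    2100000000000

/-- the polynomial part of `g0` divided by `x`, in units `1 / D` -/
noncomputable def pol (x y : ℝ) : ℝ :=
  6449340668 / 30000000000 * (x ^ 2 - 3 * y ^ 2) +
    823232337 / 100000000000 * (x ^ 4 - 10 * x ^ 2 * y ^ 2 + 5 * y ^ 4) +
    173430619 / 210000000000 * (x ^ 6 - 21 * x ^ 4 * y ^ 2 + 35 * x ^ 2 * y ^ 4 - 7 * y ^ 6)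

theorem pol_spec {p m X T X2 XT T2 : ℕ} (hX : X = p * p / 68719476736) (hT : T = m * m / 68719476736)
    (hX2 : X2 = X * X / 68719476736) (hXT : XT = X * T / 68719476736) (hT2 : T2 = T * T / 68719476736)
    (hn : ((p : ℝ) / DR) ^ 2 + ((m : ℝ) / DR) ^ 2 ≤ 1 / 2) :
    |pol (p / DR) (m / DR) * DR - ((pPs X X2 T2 : ℝ) - pNg T XT X2 T2)| ≤ 2 := by
  have hD := DR_pos
  set x := (p : ℝ) / DR with hx
  set y := (m : ℝ) / DR with hy
  set u := x ^ 2 * DR with hu
  set w := y ^ 2 * DR with hw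
  have hpx : (p : ℝ) = x * DR := by rw [hx]; field_simp
  have hmy : (m : ℝ) = y * DR := by rw [hy]; field_simp
  have hu0 : 0 ≤ u := by positivity
  have hw0 : 0 ≤ w := by positivity
  have huw : u + w ≤ DR / 2 := by
    have : u + w = (x ^ 2 + y ^ 2) * DR := by rw [hu, hw]; ring
    rw [this]; nlinarith only [hn, hD]
  have N0 : ∀ n : ℕ, (0 : ℝ) ≤ n := fun n => Nat.cast_nonneg n
  -- X, T
  have a1 := ndiv_le (p * p) 68719476736
  have a2 := lt_ndiv (p * p) (b := 68719476736) (by norm_num)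
  rw [← hX, DN_cast] at a1 a2
  have e1 : ((p * p : ℕ) : ℝ) / DR = u := by push_cast; rw [hpx, hu]; field_simp
  rw [e1] at a1 a2
  have b1 := ndiv_le (m * m) 68719476736
  have b2 := lt_ndiv (m * m) (b := 68719476736) (by norm_num)
  rw [← hT, DN_cast] at b1 b2
  have e2 : ((m * m : ℕ) : ℝ) / DR = w := by push_cast; rw [hmy, hw]; field_simp
  rw [e2] at b1 b2
  have hXn := N0 X
  have hTn := N0 T
  -- X2, XT, T2
  set s := u ^ 2 / DR with hs
  set r := w ^ 2 / DR with hr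
  set q := u * w / DR with hq
  have c1 := ndiv_le (X * X) 68719476736
  have c2 := lt_ndiv (X * X) (b := 68719476736) (by norm_num)
  rw [← hX2, DN_cast] at c1 c2
  push_cast at c1 c2
  have k1 : (X : ℝ) * X / DR ≤ s := by
    rw [hs]; apply div_le_div_of_nonneg_right _ hD.le; nlinarith only [a1, hXn]
  have k2 : s ≤ (X : ℝ) * X / DR + 1 := by
    rw [hs, div_le_iff₀ hD, add_mul, div_mul_cancel₀ _ hD.ne']
    nlinarith only [a1, a2, hXn, huw, hw0, hu0]
  have d1 := ndiv_le (T * T) 68719476736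
  have d2 := lt_ndiv (T * T) (b := 68719476736) (by norm_num)
  rw [← hT2, DN_cast] at d1 d2
  push_cast at d1 d2
  have k3 : (T : ℝ) * T / DR ≤ r := by
    rw [hr]; apply div_le_div_of_nonneg_right _ hD.le; nlinarith only [b1, hTn]
  have k4 : r ≤ (T : ℝ) * T / DR + 1 := by
    rw [hr, div_le_iff₀ hD, add_mul, div_mul_cancel₀ _ hD.ne']
    nlinarith only [b1, b2, hTn, huw, hw0, hu0]
  have f1 := ndiv_le (X * T) 68719476736
  have f2 := lt_ndiv (X * T) (b := 68719476736) (by norm_num)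
  rw [← hXT, DN_cast] at f1 f2
  push_cast at f1 f2
  have k5 : (X : ℝ) * T / DR ≤ q := by
    rw [hq]; apply div_le_div_of_nonneg_right _ hD.le
    exact mul_le_mul a1 b1 hTn hu0
  have k6 : q ≤ (X : ℝ) * T / DR + 1 := by
    rw [hq, div_le_iff₀ hD, add_mul, div_mul_cancel₀ _ hD.ne']
    nlinarith only [a1, a2, b1, b2, hXn, hTn, huw, hw0, hu0]
  have hX2n := N0 X2
  have hT2n := N0 T2
  have hXTn := N0 XT
  -- sizes
  have hs0 : 0 ≤ s := by positivity
  have hr0 : 0 ≤ r := by positivity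
  have hsu : s ≤ u / 2 := by rw [hs, div_le_iff₀ hD]; nlinarith only [huw, hu0, hw0]
  have hrw : r ≤ w / 2 := by rw [hr, div_le_iff₀ hD]; nlinarith only [huw, hu0, hw0]
  have sX : (X2 : ℝ) ≤ s ∧ s ≤ X2 + 2 := ⟨by linarith only [c1, k1], by linarith only [c2, k2]⟩
  have rT : (T2 : ℝ) ≤ r ∧ r ≤ T2 + 2 := ⟨by linarith only [d1, k3], by linarith only [d2, k4]⟩
  have qXT : (XT : ℝ) ≤ q ∧ q ≤ XT + 2 := ⟨by linarith only [f1, k5], by linarith only [f2, k6]⟩
  -- third powers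
  set Z1 := (X * X2 + 35 * (X * T2)) / 68719476736 with hZ1
  set Z2 := (21 * (T * X2) + 7 * (T * T2)) / 68719476736 with hZ2
  have g1 := ndiv_le (X * X2 + 35 * (X * T2)) 68719476736
  have g2 := lt_ndiv (X * X2 + 35 * (X * T2)) (b := 68719476736) (by norm_num)
  rw [← hZ1, DN_cast] at g1 g2
  push_cast at g1 g2
  have h1 := ndiv_le (21 * (T * X2) + 7 * (T * T2)) 68719476736
  have h2 := lt_ndiv (21 * (T * X2) + 7 * (T * T2)) (b := 68719476736) (by norm_num)
  rw [← hZ2, DN_cast] at h1 h2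
  push_cast at h1 h2
  have m1 : (X : ℝ) * X2 ≤ u * s := mul_le_mul a1 sX.1 hX2n hu0
  have m1' : u * s ≤ (X : ℝ) * X2 + (s + 2 * u) := by
    nlinarith only [sX.2, sX.1, a1, a2, hXn, hX2n, hu0, hs0]
  have m2 : (X : ℝ) * T2 ≤ u * r := mul_le_mul a1 rT.1 hT2n hu0
  have m2' : u * r ≤ (X : ℝ) * T2 + (r + 2 * u) := by
    nlinarith only [rT.2, rT.1, a1, a2, hXn, hT2n, hu0, hr0]
  have m3 : (T : ℝ) * X2 ≤ w * s := mul_le_mul b1 sX.1 hX2n hw0
  have m3' : w * s ≤ (T : ℝ) * X2 + (s + 2 * w) := by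
    nlinarith only [sX.2, sX.1, b1, b2, hTn, hX2n, hw0, hs0]
  have m4 : (T : ℝ) * T2 ≤ w * r := mul_le_mul b1 rT.1 hT2n hw0
  have m4' : w * r ≤ (T : ℝ) * T2 + (r + 2 * w) := by
    nlinarith only [rT.2, rT.1, b1, b2, hTn, hT2n, hw0, hr0]
  set z1 := (u * s + 35 * (u * r)) / DR with hz1
  set z2 := (21 * (w * s) + 7 * (w * r)) / DR with hz2
  have n1 : (Z1 : ℝ) ≤ z1 := by
    refine g1.trans ?_
    rw [hz1]; apply div_le_div_of_nonneg_right _ hD.le; linarith only [m1, m2]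
  have n2 : z1 ≤ Z1 + 38 := by
    have : z1 ≤ ((X : ℝ) * X2 + 35 * (X * T2)) / DR + 37 := by
      rw [hz1, div_le_iff₀ hD, add_mul, div_mul_cancel₀ _ hD.ne']
      linarith only [m1', m2', hsu, hrw, huw, hu0, hw0, hs0, hr0, hD]
    linarith only [this, g2]
  have n3 : (Z2 : ℝ) ≤ z2 := by
    refine h1.trans ?_
    rw [hz2]; apply div_le_div_of_nonneg_right _ hD.le; linarith only [m3, m4]
  have n4 : z2 ≤ Z2 + 31 := by
    have : z2 ≤ (21 * ((T : ℝ) * X2) + 7 * (T * T2)) / DR + 30 := by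
      rw [hz2, div_le_iff₀ hD, add_mul, div_mul_cancel₀ _ hD.ne']
      linarith only [m3', m4', hsu, hrw, huw, hu0, hw0, hs0, hr0, hD]
    linarith only [this, h2]
  have hZ1n := N0 Z1
  have hZ2n := N0 Z2
  -- final
  have o1 := ndiv_le (451453846760 * X + 17287879077 * (X2 + 5 * T2) + 1734306190 * Z1) 2100000000000
  have o2 := lt_ndiv (451453846760 * X + 17287879077 * (X2 + 5 * T2) + 1734306190 * Z1)
    (b := 2100000000000) (by norm_num)
  have o3 := ndiv_le (1354361540280 * T + 172878790770 * XT + 1734306190 * Z2) 2100000000000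
  have o4 := lt_ndiv (1354361540280 * T + 172878790770 * XT + 1734306190 * Z2)
    (b := 2100000000000) (by norm_num)
  have hps : (pPs X X2 T2 : ℝ) = (((451453846760 * X + 17287879077 * (X2 + 5 * T2) +
    1734306190 * Z1) / 2100000000000 : ℕ) : ℝ) := rfl
  have hng : (pNg T XT X2 T2 : ℝ) = (((1354361540280 * T + 172878790770 * XT +
    1734306190 * Z2) / 2100000000000 : ℕ) : ℝ) := rfl
  rw [← hps] at o1 o2
  rw [← hng] at o3 o4
  push_cast at o1 o2 o3 o4
  have hpol : pol x y * DR = (451453846760 * u + 17287879077 * (s + 5 * r) + 1734306190 * z1) /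
      2100000000000 - (1354361540280 * w + 172878790770 * q + 1734306190 * z2) / 2100000000000 := by
    rw [hz1, hz2, hs, hr, hq, hu, hw]
    unfold pol
    field_simp
    ring
  rw [hpol, abs_le]
  constructor
  · linarith only [sX.1, rT.1, qXT.2, o1, o2, o3, o4, n1, n2, n3, n4, a1, a2, b1, b2]
  · linarith only [sX.2, rT.2, qXT.1, o1, o2, o3, o4, n1, n2, n3, n4, a1, a2, b1, b2]

end Pool.Agent.Work.NumU
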