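import Pool.Agent.Work.NumU.Cen
import Pool.Agent.Work.NumU.Val

/-!
# Numerics of `UU`: the value at a point, part 2
-/

namespace Pool.Agent.Work.NumU

open NumI

theorem logM_D : logM (Nat.mul 68719476736 68719476736) = (1714777615768, 0) := by decide +kernel

/-- `log D` -/
theorem log_D : |Real.log DR * DR - 1714777615768| ≤ 6 := by
  have hD := DR_pos
  have h := logM_spec (m := 68719476736 * 68719476736) (by norm_num) (by norm_num)
  have e : logM (68719476736 * 68719476736) = (1714777615768, 0) := logM_D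
  rw [e] at h
  have e2 : ((68719476736 * 68719476736 : ℕ) : ℝ) / DR = DR := by
    rw [Nat.cast_mul, DN_cast]; field_simp
  rw [e2] at h
  simpa using h

/-- logarithm of a quotient `N / D^2` -/
theorem log_q {N : ℕ} (h0 : 0 < N) (h1 : N < 2 ^ 200) :
    |Real.log ((N : ℝ) / DR ^ 2) * DR - (((logM N).1 : ℝ) - (logM N).2 - 1714777615768)| ≤ 12 := by
  have hD := DR_pos
  have h := logM_spec h0 h1
  have k := log_D
  have hN : (0 : ℝ) < N := by exact_mod_cast h0
  have e : Real.log ((N : ℝ) / DR ^ 2) = Real.log ((N : ℝ) / DR) - Real.log DR := by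
    rw [← Real.log_div (by positivity) hD.ne']
    congr 1
    field_simp
  rw [e]
  have := abs_sub (Real.log ((N : ℝ) / DR) * DR - (((logM N).1 : ℝ) - (logM N).2))
    (Real.log DR * DR - 1714777615768)
  calc |(Real.log ((N : ℝ) / DR) - Real.log DR) * DR -
      (((logM N).1 : ℝ) - (logM N).2 - 1714777615768)| =
      |(Real.log ((N : ℝ) / DR) * DR - (((logM N).1 : ℝ) - (logM N).2)) -
        (Real.log DR * DR - 1714777615768)| := by congr 1; ring
    _ ≤ 12 := by linarith only [h, k, this]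

/-- arctangent of a quotient -/
theorem atan_q {m k : ℕ} {r : ℕ × ℕ} (hk : 0 < k) (h : atN (m * 68719476736 / k) = some r) :
    |Real.arctan ((m : ℝ) / k) * DR - ((r.1 : ℝ) - r.2)| ≤ 14 := by
  have hD := DR_pos
  have h1 := atN_spec h
  have hk' : (0 : ℝ) < k := by exact_mod_cast hk
  have a1 := ndiv_le (m * 68719476736) k
  have a2 := lt_ndiv (m * 68719476736) hk
  rw [Nat.cast_mul, DN_cast] at a1 a2
  set c := m * 68719476736 / k
  have h2 := arctan_sub_le ((m : ℝ) / k) ((c : ℝ) / DR)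
  have h3 : |(m : ℝ) / k - (c : ℝ) / DR| * DR ≤ 1 := by
    have e : |(m : ℝ) / k - (c : ℝ) / DR| * DR = |(m : ℝ) * DR / k - c| := by
      nth_rewrite 2 [← abs_of_pos hD]
      rw [← abs_mul]
      congr 1
      field_simp
    rw [e, abs_le]
    constructor <;> linarith only [a1, a2]
  have h4 : |Real.arctan ((m : ℝ) / k) * DR - Real.arctan ((c : ℝ) / DR) * DR| ≤ 1 := by
    rw [← sub_mul, abs_mul, abs_of_pos hD]
    exact (mul_le_mul_of_nonneg_right h2 hD.le).trans h3
  have h5 := abs_add_le (Real.arctan ((m : ℝ) / k) * DR - Real.arctan ((c : ℝ) / DR) * DR)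
    (Real.arctan ((c : ℝ) / DR) * DR - ((r.1 : ℝ) - r.2))
  rw [sub_add_sub_cancel] at h5
  linarith only [h1, h4, h5]

/-- the last part of the value -/
def uP (p m : ℕ) (r0 r1 r2 a b c : ℕ × ℕ) (e : ℕ) : Option R3 :=
  frc (Nat.div (Nat.mul p p) 68719476736) fun X =>
  frc (Nat.div (Nat.mul m m) 68719476736) fun T =>
  frc (Nat.div (Nat.mul X X) 68719476736) fun X2 =>
  frc (Nat.div (Nat.mul X T) 68719476736) fun XT =>
  frc (Nat.div (Nat.mul T T) 68719476736) fun T2 =>
  frc (Nat.add (Nat.add (Nat.add (Nat.mul p a.1) (Nat.mul (Nat.add 68719476736 p) b.1))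
    (Nat.mul (Nat.sub 68719476736 p) (Nat.add c.2 1714777615768)))
    (Nat.mul 2 (Nat.add (Nat.mul m (Nat.add (Nat.add r0.2 r1.2) r2.1)) (Nat.mul p (pNg T XT X2 T2))))) fun P2 =>
  frc (Nat.add (Nat.add (Nat.add (Nat.mul p (Nat.add a.2 1714777615768))
    (Nat.mul (Nat.add 68719476736 p) (Nat.add b.2 1714777615768))) (Nat.mul (Nat.sub 68719476736 p) c.1))
    (Nat.mul 2 (Nat.add (Nat.mul m (Nat.add (Nat.add r0.1 r1.1) r2.2))
      (Nat.mul p (Nat.add (pPs X X2 T2) 79860479899))))) fun Q2 =>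
  some ⟨Nat.div (Nat.sub P2 Q2) 137438953472, Nat.div (Nat.sub Q2 P2) 137438953472, e⟩

theorem sub_div_cast (P Q : ℕ) :
    |((P : ℝ) - Q) / (2 * DR) - ((((P - Q) / 137438953472 : ℕ) : ℝ) - (((Q - P) / 137438953472 : ℕ) : ℝ))| ≤ 1 := by
  have hD := DR_pos
  have hd : ((137438953472 : ℕ) : ℝ) = 2 * DR := by unfold DR; norm_num
  rcases le_total P Q with h | h
  · have e1 : P - Q = 0 := Nat.sub_eq_zero_of_le h
    have k1 := ndiv_le (Q - P) 137438953472
    have k2 := lt_ndiv (Q - P) (b := 137438953472) (by norm_num)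
    rw [hd, Nat.cast_sub h] at k1 k2
    rw [e1]
    have e2 : ((P : ℝ) - Q) / (2 * DR) = -(((Q : ℝ) - P) / (2 * DR)) := by ring
    rw [e2]
    simp only [Nat.zero_div, Nat.cast_zero, zero_sub]
    rw [abs_le]
    constructor <;> linarith only [k2, k1]
  · have e1 : Q - P = 0 := Nat.sub_eq_zero_of_le h
    have k1 := ndiv_le (P - Q) 137438953472
    have k2 := lt_ndiv (P - Q) (b := 137438953472) (by norm_num)
    rw [hd, Nat.cast_sub h] at k1 k2
    rw [e1]
    simp only [Nat.zero_div, Nat.cast_zero, sub_zero]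
    rw [abs_le]
    constructor <;> linarith only [k1, k2]

theorem uP_spec {p m : ℕ} {r0 r1 r2 : ℕ × ℕ} {e : ℕ} {R : R3} (hp : 0 < p)
    (hn : ((p : ℝ) / DR) ^ 2 + ((m : ℝ) / DR) ^ 2 ≤ 1 / 2)
    (h0 : atN (m * 68719476736 / p) = some r0)
    (h1 : atN (m * 68719476736 / (68719476736 + p)) = some r1)
    (h2 : atN (m * 68719476736 / (68719476736 - p)) = some r2)
    (h : uP p m r0 r1 r2 (logM (p * p + m * m)) (logM ((68719476736 + p) * (68719476736 + p) + m * m))
      (logM ((68719476736 - p) * (68719476736 - p) + m * m)) e = some R) :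
    |g0 (p / DR) (m / DR) * DR - ((R.p : ℝ) - R.q)| ≤ 106 ∧ R.e = e := by
  have hD := DR_pos
  have hDc : (68719476736 : ℝ) = DR := by unfold DR; norm_num
  unfold uP at h
  simp only [frc_eq] at h
  have h := Option.some.inj h
  set X := Nat.div (Nat.mul p p) 68719476736 with hX
  set T := Nat.div (Nat.mul m m) 68719476736 with hT
  set X2 := Nat.div (Nat.mul X X) 68719476736 with hX2
  set XT := Nat.div (Nat.mul X T) 68719476736 with hXT
  set T2 := Nat.div (Nat.mul T T) 68719476736 with hT2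
  have hpol := pol_spec (p := p) (m := m) hX hT hX2 hXT hT2 hn
  set ps := pPs X X2 T2
  set ng := pNg T XT X2 T2
  set a := logM (p * p + m * m) with ha
  set b := logM ((68719476736 + p) * (68719476736 + p) + m * m) with hb
  set c := logM ((68719476736 - p) * (68719476736 - p) + m * m) with hc
  set x := (p : ℝ) / DR with hx
  set y := (m : ℝ) / DR with hy
  have hpx : (p : ℝ) = x * DR := by rw [hx]; field_simp
  have hmy : (m : ℝ) = y * DR := by rw [hy]; field_simp
  have hp0 : (0 : ℝ) < p := by exact_mod_cast hp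
  have hx0 : 0 < x := by positivity
  have hy0 : 0 ≤ y := by positivity
  have hx1 : x ≤ 3 / 4 := by nlinarith only [hDc, hn, hpx, hx0, sq_nonneg y]
  have hy1 : y ≤ 3 / 4 := by nlinarith only [hDc, hn, hmy, hx0, hy0, hx1, sq_nonneg x]
  have hpD : (p : ℝ) ≤ 3 / 4 * DR := by rw [hpx]; nlinarith only [hD, hx1]
  have hmD : (m : ℝ) ≤ 3 / 4 * DR := by rw [hmy]; nlinarith only [hD, hy1]
  have hpN : p < 68719476736 := by
    have : (p : ℝ) < 68719476736 := by rw [hDc]; nlinarith only [hDc, hx0, hx1, hpD]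
    exact_mod_cast this
  have hmN : m < 68719476736 := by
    have : (m : ℝ) < 68719476736 := by rw [hDc]; nlinarith only [hDc, hx0, hx1, hmD]
    exact_mod_cast this
  have hsub : ((68719476736 - p : ℕ) : ℝ) = DR - p := by rw [Nat.cast_sub hpN.le, DN_cast]
  -- logarithms
  have B200 : (2 : ℕ) ^ 200 = 1606938044258990275541962092341162602522202993782792835301376 := by norm_num
  have la := log_q (N := p * p + m * m) (by positivity) (by
    rw [B200]
    have : p * p ≤ 68719476736 * 68719476736 := Nat.mul_le_mul hpN.le hpN.le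
    have : m * m ≤ 68719476736 * 68719476736 := Nat.mul_le_mul hmN.le hmN.le
    omega)
  have lb := log_q (N := (68719476736 + p) * (68719476736 + p) + m * m) (by positivity) (by
    rw [B200]
    have : (68719476736 + p) * (68719476736 + p) ≤ 137438953472 * 137438953472 :=
      Nat.mul_le_mul (by omega) (by omega)
    have : m * m ≤ 68719476736 * 68719476736 := Nat.mul_le_mul hmN.le hmN.le
    omega)
  have lc := log_q (N := (68719476736 - p) * (68719476736 - p) + m * m)
    (by have : 0 < 68719476736 - p := by omega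
        positivity) (by
    rw [B200]
    have : (68719476736 - p) * (68719476736 - p) ≤ 68719476736 * 68719476736 :=
      Nat.mul_le_mul (by omega) (by omega)
    have : m * m ≤ 68719476736 * 68719476736 := Nat.mul_le_mul hmN.le hmN.le
    omega)
  rw [← ha] at la
  rw [← hb] at lb
  rw [← hc] at lc
  have ea : ((p * p + m * m : ℕ) : ℝ) / DR ^ 2 = x ^ 2 + y ^ 2 := by
    push_cast; rw [hx, hy]; field_simp
  have eb : (((68719476736 + p) * (68719476736 + p) + m * m : ℕ) : ℝ) / DR ^ 2 =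
      (1 + x) ^ 2 + y ^ 2 := by
    push_cast; rw [hDc, hx, hy]; field_simp
  have ec : (((68719476736 - p) * (68719476736 - p) + m * m : ℕ) : ℝ) / DR ^ 2 =
      (1 - x) ^ 2 + y ^ 2 := by
    rw [Nat.cast_add, Nat.cast_mul, hsub, Nat.cast_mul, hx, hy]; field_simp
  rw [ea] at la
  rw [eb] at lb
  rw [ec] at lc
  -- arctangents
  have t0 := atan_q hp h0
  have t1 := atan_q (k := 68719476736 + p) (by omega) h1
  have t2 := atan_q (k := 68719476736 - p) (by omega) h2
  have e0 : (m : ℝ) / p = y / x := by rw [hx, hy]; field_simp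
  have e1 : (m : ℝ) / ((68719476736 + p : ℕ) : ℝ) = y / (1 + x) := by
    push_cast; rw [hDc, hx, hy]; field_simp
  have e2 : (m : ℝ) / ((68719476736 - p : ℕ) : ℝ) = y / (1 - x) := by
    rw [hsub, hx, hy]
    have : DR - (p : ℝ) ≠ 0 := by nlinarith only [hDc, hn, hx0, hpD]
    have : 1 - (p : ℝ) / DR ≠ 0 := by rw [sub_ne_zero]; intro hh; rw [eq_div_iff hD.ne'] at hh; apply this; linarith only [hDc, hx0, hx1, hpD, hh]
    field_simp
  rw [e0] at t0
  rw [e1] at t1
  rw [e2] at t2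
  -- the constant
  have hc0 : |(Real.log (2 * Real.pi) - 3) * DR + 79860479899| ≤ 71 := by
    have k := log_two_pi
    have k2 := mul_le_mul_of_nonneg_right k hD.le
    rw [← abs_of_pos hD, ← abs_mul, abs_of_pos hD] at k2
    have k3 := abs_le.1 k2
    rw [← hDc] at k3 ⊢
    rw [abs_le]
    norm_num at k3
    constructor <;> linarith only [hx0, hx1, k3, k3.1, k3.2]
  set La := Real.log (x ^ 2 + y ^ 2)
  set Lb := Real.log ((1 + x) ^ 2 + y ^ 2)
  set Lc := Real.log ((1 - x) ^ 2 + y ^ 2)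
  set A0 := Real.arctan (y / x)
  set A1 := Real.arctan (y / (1 + x))
  set A2 := Real.arctan (y / (1 - x))
  set K := Real.log (2 * Real.pi) - 3
  -- the difference
  set P2 := Nat.add (Nat.add (Nat.add (Nat.mul p a.1) (Nat.mul (Nat.add 68719476736 p) b.1))
    (Nat.mul (Nat.sub 68719476736 p) (Nat.add c.2 1714777615768)))
    (Nat.mul 2 (Nat.add (Nat.mul m (Nat.add (Nat.add r0.2 r1.2) r2.1)) (Nat.mul p ng))) with hP2
  set Q2 := Nat.add (Nat.add (Nat.add (Nat.mul p (Nat.add a.2 1714777615768))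
    (Nat.mul (Nat.add 68719476736 p) (Nat.add b.2 1714777615768))) (Nat.mul (Nat.sub 68719476736 p) c.1))
    (Nat.mul 2 (Nat.add (Nat.mul m (Nat.add (Nat.add r0.1 r1.1) r2.2))
      (Nat.mul p (Nat.add ps 79860479899)))) with hQ2
  have hP2r : (P2 : ℝ) = p * a.1 + (DR + p) * b.1 + (DR - p) * (c.2 + 1714777615768) +
      2 * (m * (r0.2 + r1.2 + r2.1) + p * ng) := by
    have : P2 = p * a.1 + (68719476736 + p) * b.1 + (68719476736 - p) * (c.2 + 1714777615768) +
      2 * (m * (r0.2 + r1.2 + r2.1) + p * ng) := rfl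
    rw [this]
    push_cast [hsub]
    rw [hDc]
  have hQ2r : (Q2 : ℝ) = p * (a.2 + 1714777615768) + (DR + p) * (b.2 + 1714777615768) +
      (DR - p) * c.1 + 2 * (m * (r0.1 + r1.1 + r2.2) + p * (ps + 79860479899)) := by
    have : Q2 = p * (a.2 + 1714777615768) + (68719476736 + p) * (b.2 + 1714777615768) +
      (68719476736 - p) * c.1 + 2 * (m * (r0.1 + r1.1 + r2.2) + p * (ps + 79860479899)) := rfl
    rw [this]
    push_cast [hsub]
    rw [hDc]
  have key : g0 x y * DR * (2 * DR) - ((P2 : ℝ) - Q2) =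
      p * (La * DR - ((a.1 : ℝ) - a.2 - 1714777615768)) +
      (DR + p) * (Lb * DR - ((b.1 : ℝ) - b.2 - 1714777615768)) -
      (DR - p) * (Lc * DR - ((c.1 : ℝ) - c.2 - 1714777615768)) -
      2 * m * ((A0 * DR - ((r0.1 : ℝ) - r0.2)) + (A1 * DR - ((r1.1 : ℝ) - r1.2)) -
        (A2 * DR - ((r2.1 : ℝ) - r2.2))) +
      2 * p * (K * DR + 79860479899) - 2 * p * (pol x y * DR - ((ps : ℝ) - ng)) := by
    rw [hP2r, hQ2r]
    have eg : g0 x y = x * (La / 2) - y * A0 + ((1 + x) * (Lb / 2) - y * A1) -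
        ((1 - x) * (Lc / 2) - y * A2) + K * x - x * pol x y := rfl
    rw [eg, hpx, hmy]
    ring
  have s1 := abs_le.1 la
  have s2 := abs_le.1 lb
  have s3 := abs_le.1 lc
  have s4 := abs_le.1 t0
  have s5 := abs_le.1 t1
  have s6 := abs_le.1 t2
  have s7 := abs_le.1 hc0
  have s8 := abs_le.1 hpol
  have hm0 : (0 : ℝ) ≤ m := Nat.cast_nonneg m
  have hDp : 0 ≤ DR - p := by linarith only [hDc, hx0, hx1, hpD]
  have bnd : |g0 x y * DR * (2 * DR) - ((P2 : ℝ) - Q2)| ≤ 210 * DR := by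
    rw [key]
    set v1 := La * DR - ((a.1 : ℝ) - a.2 - 1714777615768)
    set v2 := Lb * DR - ((b.1 : ℝ) - b.2 - 1714777615768)
    set v3 := Lc * DR - ((c.1 : ℝ) - c.2 - 1714777615768)
    set v4 := A0 * DR - ((r0.1 : ℝ) - r0.2)
    set v5 := A1 * DR - ((r1.1 : ℝ) - r1.2)
    set v6 := A2 * DR - ((r2.1 : ℝ) - r2.2)
    set v7 := K * DR + 79860479899
    set v8 := pol x y * DR - ((ps : ℝ) - ng)
    have w1 : |(p : ℝ) * v1| ≤ p * 12 := by
      rw [abs_mul, abs_of_pos hp0]; exact mul_le_mul_of_nonneg_left la hp0.le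
    have w2 : |(DR + p) * v2| ≤ (DR + p) * 12 := by
      rw [abs_mul, abs_of_pos (by linarith only [hDc, hp0, hx0, hx1] : (0 : ℝ) < DR + p)]
      exact mul_le_mul_of_nonneg_left lb (by linarith only [hDc, hp0, hx0, hx1])
    have w3 : |(DR - p) * v3| ≤ (DR - p) * 12 := by
      rw [abs_mul, abs_of_nonneg hDp]; exact mul_le_mul_of_nonneg_left lc hDp
    have w4 : |2 * (m : ℝ) * (v4 + v5 - v6)| ≤ 2 * m * 42 := by
      rw [abs_mul, abs_of_nonneg (by linarith : (0 : ℝ) ≤ 2 * m)]
      apply mul_le_mul_of_nonneg_left _ (by linarith)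
      rw [abs_le]; constructor <;> linarith only [s4, s5, s6]
    have w5 : |2 * (p : ℝ) * v7| ≤ 2 * p * 71 := by
      rw [abs_mul, abs_of_pos (by linarith only [hp0] : (0 : ℝ) < 2 * p)]
      exact mul_le_mul_of_nonneg_left hc0 (by linarith only [hp0])
    have w6 : |2 * (p : ℝ) * v8| ≤ 2 * p * 2 := by
      rw [abs_mul, abs_of_pos (by linarith only [hp0] : (0 : ℝ) < 2 * p)]
      exact mul_le_mul_of_nonneg_left hpol (by linarith only [hp0])
    have u1 := abs_le.1 w1
    have u2 := abs_le.1 w2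
    have u3 := abs_le.1 w3
    have u4 := abs_le.1 w4
    have u5 := abs_le.1 w5
    have u6 := abs_le.1 w6
    rw [abs_le]
    constructor <;> linarith only [hDc, hx0, hx1, hpD, hmD, u1, u2, u3, u4, u5, u6, u1.1, u1.2, u2.1, u2.2, u3.1, u3.2, u4.1, u4.2, u5.1, u5.2, u6.1, u6.2]
  have fl := sub_div_cast P2 Q2
  have hR : (R.p : ℝ) - R.q = (((P2 - Q2) / 137438953472 : ℕ) : ℝ) - (((Q2 - P2) / 137438953472 : ℕ) : ℝ) := by
    rw [← h]; rfl
  refine ⟨?_, by rw [← h]⟩
  rw [hR]
  have hdd : |g0 x y * DR - ((P2 : ℝ) - Q2) / (2 * DR)| ≤ 105 := by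
    have e : g0 x y * DR - ((P2 : ℝ) - Q2) / (2 * DR) =
        (g0 x y * DR * (2 * DR) - ((P2 : ℝ) - Q2)) / (2 * DR) := by field_simp
    rw [e, abs_div, abs_of_pos (by positivity : (0 : ℝ) < 2 * DR), div_le_iff₀ (by positivity)]
    linarith only [bnd]
  have := abs_add_le (g0 x y * DR - ((P2 : ℝ) - Q2) / (2 * DR)) (((P2 : ℝ) - Q2) / (2 * DR) -
    ((((P2 - Q2) / 137438953472 : ℕ) : ℝ) - (((Q2 - P2) / 137438953472 : ℕ) : ℝ)))
  rw [sub_add_sub_cancel] at this
  linarith only [fl, hdd, this]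

end Pool.Agent.Work.NumU
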