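import Pool.Agent.Work.NumU.Cen2

/-!
# Numerics of `UU`: the value at a point, part 3
-/

namespace Pool.Agent.Work.NumU

open NumI

theorem nadd_eq (a b : ℕ) : Nat.add a b = a + b := Eq.trans rfl rfl
theorem nmul_eq (a b : ℕ) : Nat.mul a b = a * b := Eq.trans rfl rfl
theorem nsub_eq (a b : ℕ) : Nat.sub a b = a - b := Eq.trans rfl rfl
theorem ndiv_eq' (a b : ℕ) : Nat.div a b = a / b := Eq.trans rfl rfl

/-- Lipschitz bound in `t` -/
theorem uu_lip {x t y : ℝ} (h0 : 0 < x) (h1 : x < 1) : |uu x t - uu x y| ≤ 2 * |t - y| := by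
  have h := norm_image_sub_le_of_norm_deriv_le_segment_01'
    (f := fun τ : ℝ => uu (x + τ * 0) (y + τ * (t - y)))
    (f' := fun τ => 0 * NumI.lnA (x + τ * 0) (y + τ * (t - y)) -
      (t - y) * NumI.lnB (x + τ * 0) (y + τ * (t - y))) (C := 2 * |t - y|)
    (fun τ _ => (uu_line (by simpa using h0) (by simpa using h1)).hasDerivWithinAt)
    (fun τ _ => by
      rw [Real.norm_eq_abs, zero_mul, zero_sub, abs_neg, abs_mul, mul_comm]
      apply mul_le_mul_of_nonneg_right _ (abs_nonneg _)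
      have h3 := Real.pi_lt_d2
      have : |NumI.lnB (x + τ * 0) (y + τ * (t - y))| ≤ Real.pi / 2 := by
        unfold NumI.lnB
        rw [abs_le]
        exact ⟨(Real.neg_pi_div_two_lt_arctan _).le, (Real.arctan_lt_pi_div_two _).le⟩
      linarith only [h0, h1, h3, this])
  simpa [Real.norm_eq_abs] using h

theorem w1_aux {u s D n k : ℝ} (hD : 0 < D) (hD2 : D ≤ 69 * 10 ^ 9)
    (v1 : |u| ≤ 1 / 10260 * s + 1 / 10 ^ 9) (hs : s * D ≤ n) (hk : n / 10260 < k + 1) :
    |u * D| ≤ k + 1 + 69 := by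
  rw [abs_mul, abs_of_pos hD]
  refine (mul_le_mul_of_nonneg_right v1 hD.le).trans ?_
  have : 1 / 10 ^ 9 * D ≤ 69 := by
    rw [div_mul_eq_mul_div, one_mul, div_le_iff₀ (by norm_num)]; exact hD2
  rw [add_mul]
  linarith only [hD2, hs, hk]

theorem w0_aux {u v y t m D : ℝ} (hD : 0 < D) (h : |u - v| ≤ 2 * |t - y|) (hm : y * D = m)
    (ht : |t * D - m| ≤ 1) : |(u - v) * D| ≤ 2 := by
  rw [abs_mul, abs_of_pos hD]
  refine (mul_le_mul_of_nonneg_right h hD.le).trans ?_
  have e : |t - y| * D = |t * D - m| := by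
    rw [← hm, ← sub_mul, abs_mul, abs_of_pos hD]
  rw [mul_assoc, e]
  linarith

theorem w2_aux {a b c D k r : ℝ} (w0 : |(a - b) * D| ≤ 2) (w1 : |(b - c) * D| ≤ k + 1 + 69)
    (v2 : |c * D - r| ≤ 106) : |a * D - r| ≤ k + 180 := by
  have e : a * D - r = (a - b) * D + (b - c) * D + (c * D - r) := by ring
  rw [e]
  refine (abs_add_three _ _ _).trans ?_
  linarith only [w0, w1, v2]

/-- bind for options -/
def ob {α β : Type} (o : Option α) (k : α → Option β) : Option β := match o with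
  | none => none
  | some a => k a

theorem ob_some {α β : Type} {o : Option α} {k : α → Option β} {r : β} (h : ob o k = some r) :
    ∃ a, o = some a ∧ k a = some r := by
  cases o with
  | none => exact absurd h (by simp [ob])
  | some a => exact ⟨a, rfl, h⟩

theorem cond_some {α : Type} {b : Bool} {o : Option α} {r : α} (h : cond b o none = some r) :
    b = true ∧ o = some r := by
  cases b with
  | false => exact absurd h (by simp)
  | true => exact ⟨rfl, h⟩

/-- value at `x = p / D`, `t = (m ± 1) / D` -/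
def uC (p m : ℕ) : Option R3 :=
  let n2 := Nat.add (Nat.div (Nat.add (Nat.mul p p) (Nat.mul (Nat.add m 1) (Nat.add m 1))) 68719476736) 1
  let n4 := Nat.add (Nat.div (Nat.mul n2 n2) 68719476736) 1
  let n8 := Nat.add (Nat.div (Nat.mul n4 n4) 68719476736) 1
  cond (Nat.ble n2 34359738368)
    (ob (atN (Nat.div (Nat.mul m 68719476736) p)) fun r0 =>
      ob (atN (Nat.div (Nat.mul m 68719476736) (Nat.add 68719476736 p))) fun r1 =>
        ob (atN (Nat.div (Nat.mul m 68719476736) (Nat.sub 68719476736 p))) fun r2 =>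
          uP p m r0 r1 r2 (logM (Nat.add (Nat.mul p p) (Nat.mul m m)))
            (logM (Nat.add (Nat.mul (Nat.add 68719476736 p) (Nat.add 68719476736 p)) (Nat.mul m m)))
            (logM (Nat.add (Nat.mul (Nat.sub 68719476736 p) (Nat.sub 68719476736 p)) (Nat.mul m m)))
            (Nat.add (Nat.div n8 10260) 180)) none

theorem uC_spec {p m : ℕ} {t : ℝ} {r : R3} (h : uC p m = some r) (hp : 0 < p)
    (ht : |t * DR - m| ≤ 1) (ht0 : 0 ≤ t) : r.Good (uu ((p : ℝ) / DR) t) := by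
  have hD := DR_pos
  unfold uC at h
  simp only [nadd_eq, nmul_eq, nsub_eq, ndiv_eq'] at h
  set n2 := (p * p + (m + 1) * (m + 1)) / 68719476736 + 1 with hn2
  set n4 := n2 * n2 / 68719476736 + 1 with hn4
  set n8 := n4 * n4 / 68719476736 + 1 with hn8
  clear_value n8 n4 n2
  obtain ⟨h1, h⟩ := cond_some h
  obtain ⟨r0, a0, h⟩ := ob_some h
  obtain ⟨r1, a1, h⟩ := ob_some h
  obtain ⟨r2, a2, h⟩ := ob_some h
  set x := (p : ℝ) / DR with hx
  have hpx : x * DR = p := by rw [hx]; field_simp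
  have hx0 : 0 < x := by rw [hx]; have : (0 : ℝ) < p := by exact_mod_cast hp
                         positivity
  -- the bound for the square of the norm
  have k1 := lt_ndiv (p * p + (m + 1) * (m + 1)) (b := 68719476736) (by norm_num)
  rw [DN_cast] at k1
  have en2 : (n2 : ℝ) = (((p * p + (m + 1) * (m + 1)) / 68719476736 : ℕ) : ℝ) + 1 := by
    rw [hn2, Nat.cast_add, Nat.cast_one]
  rw [← en2] at k1
  set y := (m : ℝ) / DR with hy
  have hmy : y * DR = m := by rw [hy]; field_simp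
  have hy0 : 0 ≤ y := by positivity
  have hN : (x ^ 2 + y ^ 2) * DR ≤ n2 := by
    have hm0 : (0 : ℝ) ≤ m := Nat.cast_nonneg m
    have h3 : (y * DR) ^ 2 ≤ ((m : ℝ) + 1) ^ 2 := by
      rw [hmy]
      gcongr
      linarith
    have h4 : (x ^ 2 + y ^ 2) * DR * DR ≤ (p : ℝ) * p + (m + 1) * (m + 1) := by
      have : (x ^ 2 + y ^ 2) * DR * DR = (x * DR) ^ 2 + (y * DR) ^ 2 := by ring
      rw [this, hpx]
      nlinarith only [h3]
    have h5 : (x ^ 2 + y ^ 2) * DR ≤ ((p : ℝ) * p + (m + 1) * (m + 1)) / DR := by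
      rw [le_div_iff₀ hD]; exact h4
    push_cast at k1
    linarith only [h5, k1]
  have hble : (n2 : ℝ) ≤ 34359738368 := by exact_mod_cast Nat.le_of_ble_eq_true h1
  have hDR : (DR : ℝ) = 68719476736 := by unfold DR; norm_num
  have hn : x ^ 2 + y ^ 2 ≤ 1 / 2 := by
    have : (x ^ 2 + y ^ 2) * DR ≤ 1 / 2 * DR := by rw [hDR] at hN ⊢; linarith only [hN, hble]
    exact le_of_mul_le_mul_right this hD
  have hs0 : 0 ≤ x ^ 2 + y ^ 2 := by positivity
  have k2 := lt_ndiv (n2 * n2) (b := 68719476736) (by norm_num)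
  rw [DN_cast] at k2
  have en4 : (n4 : ℝ) = (((n2 * n2) / 68719476736 : ℕ) : ℝ) + 1 := by
    rw [hn4, Nat.cast_add, Nat.cast_one]
  rw [← en4] at k2
  have hN4 : (x ^ 2 + y ^ 2) ^ 2 * DR ≤ n4 := by
    have : (x ^ 2 + y ^ 2) ^ 2 * DR = ((x ^ 2 + y ^ 2) * DR) ^ 2 / DR := by field_simp
    rw [this]
    refine le_trans ?_ k2.le
    push_cast
    rw [← pow_two]
    gcongr
  have k3 := lt_ndiv (n4 * n4) (b := 68719476736) (by norm_num)
  rw [DN_cast] at k3
  have en8 : (n8 : ℝ) = (((n4 * n4) / 68719476736 : ℕ) : ℝ) + 1 := by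
    rw [hn8, Nat.cast_add, Nat.cast_one]
  rw [← en8] at k3
  have hN8 : (x ^ 2 + y ^ 2) ^ 4 * DR ≤ n8 := by
    have : (x ^ 2 + y ^ 2) ^ 4 * DR = ((x ^ 2 + y ^ 2) ^ 2 * DR) ^ 2 / DR := by field_simp
    rw [this]
    refine le_trans ?_ k3.le
    push_cast
    rw [← pow_two]
    gcongr
  have k4 := lt_ndiv n8 (b := 10260) (by norm_num)
  -- evaluation
  have hx1 : x < 1 := by nlinarith only [hD, hpx, hx0, hN, hble, hDR, sq_nonneg y]
  have v1 := abs_uu_sub_g0 (t := y) hx0 hx1 hn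
  obtain ⟨v2, v3⟩ := uP_spec hp hn a0 a1 a2 h
  have v4 := uu_lip (t := t) (y := y) hx0 hx1
  change |uu x t * DR - ((r.p : ℝ) - r.q)| ≤ (r.e : ℝ)
  have hre : (r.e : ℝ) = ((n8 / 10260 : ℕ) : ℝ) + 180 := by
    rw [v3, Nat.cast_add, Nat.cast_ofNat]
  rw [hre]
  have w0 := w0_aux hD v4 hmy ht
  have w1 := w1_aux (k := ((n8 / 10260 : ℕ) : ℝ)) hD (by rw [hDR]; norm_num) v1 hN8
    (by push_cast at k4; exact k4)
  exact w2_aux w0 w1 v2

end Pool.Agent.Work.NumU
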