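import Pool.Agent.Work.NumU.Expr
import Pool.Agent.Work.MP_b30479_gt.LT.CoreG

/-!
# How to use the checker with values of `UU`

The same as `NumI.Demo`: write the expression (`NumU.E`), search with `#eval cnt [e] fuel box`, prove
with `decide +kernel`, `chk4`, simplify with `E.val`.  `uu x t` is `UU (x + i t)`; `UU_uu`,
`uu_neg`, `uu_one_sub`, `uu_add_one` are in `NumU.Val`.
-/

namespace Pool.Agent.Work.NumU

open NumI (V)
open E

/-- height on the ramp (`XM = 6/10`, `cr = 1/4`) -/
def dT : E := mul (var 1) (mul (q 4 1) (sub (q 6 10) (var 0)))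

/-- value `V1 (c + i T, v) - V1 (w, v)`, `w = x + i t`, `v = x' + i t'`
(variables `x, T, x', t'`) -/
def dV1 (c : E) : E :=
  add (mul pi (add (mul (sub c (var 0)) (var 3)) (mul (sub (var 1) dT) (sub (var 2) (q 1 1)))))
   (add (sub (E.uu (add c (var 2)) (add (var 1) (var 3))) (E.uu (add (var 0) (var 2)) (add dT (var 3))))
     (sub (E.uu (var 0) dT) (E.uu c (var 1))))

/-- value of an end region with two crossings -/
def dV2e (x t : E) : E := sub (mul pi (mul (q 1 2) (mul t (add (mul (q 2 1) x) (q 1 1))))) (E.uu x t)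

def dRow : E := add (dV1 (q 35 100)) (sub (dV2e (q 35 100) (var 1)) (dV2e (var 0) dT))

example (x T x' t' : ℝ) (h1 : 1 / 2 ≤ x) (h1' : x ≤ 6 / 10) (h2 : -(61 / 1000) ≤ T)
    (h2' : T ≤ -(24 / 1000)) (h3 : 11 / 100 ≤ x') (h3' : x' ≤ 39 / 100) (h4 : 0 ≤ t')
    (h4' : t' ≤ 158 / 1000) (h5 : T + t' ≤ 106 / 1000) (h6 : t' ≤ x') : 0 < dRow.val [x, T, x', t'] := by
  have h : chk [dRow, sub (add (var 1) (var 3)) (q 106 1000), sub (var 3) (var 2)] 14
    [V.of 1000 500 600, V.of 1000 (-61) (-24), V.of 1000 110 390, V.of 1000 0 158] = true := by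
    decide +kernel
  obtain ⟨e, he, hp⟩ := chk4 h (by norm_num) (x := x) (y := T) (z := x') (w := t')
    (by norm_num; linarith) (by norm_num; linarith) (by norm_num; linarith) (by norm_num; linarith)
    (by norm_num; linarith) (by norm_num; linarith) (by norm_num; linarith) (by norm_num; linarith)
  simp only [List.mem_cons, List.not_mem_nil, or_false] at he
  rcases he with rfl | rfl | rfl
  · exact hp
  · simp only [val, NumI.lkR] at hp
    norm_num at hp
    linarith
  · simp only [val, NumI.lkR] at hp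
    linarith

end Pool.Agent.Work.NumU
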