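import Pool.Agent.Work.MP_b30479_gt.G2.TE4a
import Pool.Agent.Work.MP_b30479_gt.G2.TK2a

/-!
# Numerics of `UU`: positive parts, and `UU` at every real part

* `reluA` : affine form of `max x 0`.
* `uwA` : affine form of `UU (x + i t)` for every real `x` and `|t| ≤ 1/2`.  The box is shifted by
  integers; near an integer `n` the value `(n - 1/2) π |t|` with an explicit error is used.
-/

namespace Pool.Agent.Work.NumG

open MP_b30479_gt MP_b30479_gt.VOL MP_b30479_gt.G2
open NumI (A G V R3 DR DR_pos DN_cast ndiv_le lt_ndiv)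
open NumU (uu uu_one_sub uu_add_one uu_neg uuA uuA_spec nadd_eq nmul_eq nsub_eq ndiv_eq')

/-! ### `uu` near the integers -/

theorem uu_add_nat (x t : ℝ) (n : ℕ) : uu (x + n) t = uu x t + n * (Real.pi * |t|) := by
  induction n with
  | zero => simp
  | succ n ih =>
    rw [Nat.cast_add, Nat.cast_one, ← add_assoc, uu_add_one, ih]
    ring

theorem exp162 : 2 * Real.cosh (2 * Real.pi * (1 / 2)) + 2 ≤ Real.exp (2 * (162 / 100)) := by
  have h : NumI.chk [NumI.E.sub (NumI.E.exp (NumI.E.q 324 100)) (NumI.E.add (NumI.E.q 2 1)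
      (NumI.E.mul (NumI.E.q 2 1) (NumI.E.cosh NumI.E.pi)))] 1
      [NumI.V.of 1 0 0] = true := by
    decide +kernel
  have hp := NumI.pos_of_chk (NumI.chk1 h (by norm_num) (x := 0) (by norm_num) (by norm_num))
  simp only [NumI.E.val] at hp
  rw [show 2 * Real.pi * (1 / 2) = Real.pi by ring, show (2 : ℝ) * (162 / 100) =
    ((324 : ℤ) : ℝ) / ((100 : ℕ) : ℝ) by norm_num]
  have e2 : (((2 : ℤ) : ℝ) / ((1 : ℕ) : ℝ)) = 2 := by norm_num
  rw [e2] at hp
  linarith only [hp]

/-- right of `0` -/
theorem uu_right {ε δ d Y : ℝ} (h0 : 0 ≤ d) (h1 : d ≤ ε) (h2 : ε ≤ 1 / 6) (hY : |Y| ≤ 1 / 2)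
    (k1 : -uu ε 0 ≤ δ) (k2 : 162 / 100 * ε ≤ δ) : |uu d Y + Real.pi / 2 * abs Y| ≤ δ := by
  have a1 := Lr_diff_mono h0 le_rfl (abs_nonneg Y)
  have a2 := TL.uu_real_anti h0 h1 h2
  have a3 := TL.uu_slope (u := 0) (v := d) (t := Y) h0 (show (0 : ℝ) < 1 / 2 by norm_num) hY exp162
  rw [TL.uu_zero] at a3
  rw [DT.Lr_zero_right, DT.Lr_zero_right] at a1
  have e1 := uu_Lr d Y
  have e2 := uu_Lr d 0
  rw [abs_zero] at e2
  rw [abs_le]
  constructor <;> linarith only [k1, a1, a2, e1, e2, h1, k2, a3]

theorem uu_both {ε δ d Y : ℝ} (h0 : |d| ≤ ε) (h2 : ε ≤ 1 / 6) (hY : |Y| ≤ 1 / 2)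
    (k1 : -uu ε 0 ≤ δ) (k2 : 162 / 100 * ε ≤ δ) : |uu d Y + Real.pi / 2 * abs Y| ≤ δ := by
  rcases le_total 0 d with h | h
  · rw [abs_of_nonneg h] at h0
    exact uu_right h h0 h2 hY k1 k2
  · rw [abs_of_nonpos h] at h0
    have h3 := uu_right (d := -d) (by linarith only [h]) h0 h2 hY k1 k2
    have e1 := uu_one_sub (-d) Y
    have e2 := uu_add_one d Y
    have e3 : (1 : ℝ) - -d = d + 1 := by ring
    rw [e3, e2] at e1
    have e4 : uu d Y + Real.pi / 2 * |Y| = -(uu (-d) Y + Real.pi / 2 * |Y|) := by linarith only [e1]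
    rw [e4, abs_neg]
    exact h3

/-- an entry of the table: `|uu d Y + π / 2 |Y|| ≤ k.2 / D` for `|d| ≤ k.1 / D` -/
def Ent (e k : ℕ) : Prop := ∀ d Y : ℝ, |d| * DR ≤ e → |Y| ≤ 1 / 2 →
  |uu d Y + Real.pi / 2 * abs Y| * DR ≤ k

theorem ent_of {e k n m : ℕ} (hm : 0 < m) (h6 : 6 * n ≤ m)
    (h2 : 162 * e ≤ 100 * k)
    (hc : NumU.chk [NumU.E.add (NumU.E.uu (NumU.E.q n m) (NumU.E.q 0 1)) (NumU.E.q k 68719476736)] 1
      [NumI.V.of 1 0 0] = true) (he' : e * m = n * 68719476736) : Ent e k := by
  intro d Y hd hY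
  have hD := DR_pos
  have hp := NumU.pos_of_chk (NumU.chk1 hc (by norm_num) (x := 0) (by norm_num) (by norm_num))
  simp only [NumU.E.val] at hp
  push_cast at hp
  have hm' : (0 : ℝ) < m := by exact_mod_cast hm
  have e1 : (e : ℝ) / DR = (n : ℝ) / m := by
    rw [div_eq_div_iff DR_pos.ne' hm'.ne']
    have : ((e * m : ℕ) : ℝ) = ((n * 68719476736 : ℕ) : ℝ) := by rw [he']
    rw [Nat.cast_mul, Nat.cast_mul, DN_cast] at this
    exact this
  have e2 : (68719476736 : ℝ) = DR := by unfold DR; norm_num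
  rw [e2, zero_div] at hp
  rw [← le_div_iff₀ hD]
  refine uu_both (ε := (e : ℝ) / DR) ?_ ?_ hY ?_ ?_
  · rw [le_div_iff₀ hD]; exact hd
  · rw [e1, div_le_div_iff₀ hm' (by norm_num)]
    have : ((6 * n : ℕ) : ℝ) ≤ m := by exact_mod_cast h6
    push_cast at this
    linarith only [this]
  · rw [e1]; linarith only [hp]
  · rw [mul_div_assoc', div_le_div_iff_of_pos_right hD]
    have : ((162 * e : ℕ) : ℝ) ≤ ((100 * k : ℕ) : ℝ) := by exact_mod_cast h2
    push_cast at this
    linarith only [this]

theorem ent0 : Ent 67108864 409934255 :=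
  ent_of (n := 1) (m := 1024) (by norm_num) (by norm_num) (by norm_num)
    (by decide +kernel) (by norm_num)
theorem ent1 : Ent 134217728 725836082 :=
  ent_of (n := 1) (m := 512) (by norm_num) (by norm_num) (by norm_num)
    (by decide +kernel) (by norm_num)
theorem ent2 : Ent 268435456 1264608569 :=
  ent_of (n := 1) (m := 256) (by norm_num) (by norm_num) (by norm_num)
    (by decide +kernel) (by norm_num)
theorem ent3 : Ent 402653184 1733155248 :=
  ent_of (n := 3) (m := 512) (by norm_num) (by norm_num) (by norm_num)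
    (by decide +kernel) (by norm_num)
theorem ent4 : Ent 536870912 2156100055 :=
  ent_of (n := 1) (m := 128) (by norm_num) (by norm_num) (by norm_num)
    (by decide +kernel) (by norm_num)
theorem ent5 : Ent 805306368 2907160139 :=
  ent_of (n := 3) (m := 256) (by norm_num) (by norm_num) (by norm_num)
    (by decide +kernel) (by norm_num)
theorem ent6 : Ent 1073741824 3567046801 :=
  ent_of (n := 1) (m := 64) (by norm_num) (by norm_num) (by norm_num)
    (by decide +kernel) (by norm_num)
theorem ent7 : Ent 1610612736 4697292483 :=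
  ent_of (n := 3) (m := 128) (by norm_num) (by norm_num) (by norm_num)
    (by decide +kernel) (by norm_num)
theorem ent8 : Ent 2147483648 5645433994 :=
  ent_of (n := 1) (m := 32) (by norm_num) (by norm_num) (by norm_num)
    (by decide +kernel) (by norm_num)
theorem ent9 : Ent 3221225472 7163713857 :=
  ent_of (n := 3) (m := 64) (by norm_num) (by norm_num) (by norm_num)
    (by decide +kernel) (by norm_num)
theorem ent10 : Ent 4294967296 8319729532 :=
  ent_of (n := 1) (m := 16) (by norm_num) (by norm_num) (by norm_num)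
    (by decide +kernel) (by norm_num)
theorem ent11 : Ent 6442450944 10437770529 :=
  ent_of (n := 3) (m := 32) (by norm_num) (by norm_num) (by norm_num)
    (by decide +kernel) (by norm_num)
theorem ent12 : Ent 8589934592 13916694039 :=
  ent_of (n := 1) (m := 8) (by norm_num) (by norm_num) (by norm_num)
    (by decide +kernel) (by norm_num)

/-- error near an integer, `none` if the distance is larger than `1/8` -/
def sErr (e : ℕ) : Option ℕ :=
  cond (Nat.ble e 67108864) (some 409934255) (
  cond (Nat.ble e 134217728) (some 725836082) (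
  cond (Nat.ble e 268435456) (some 1264608569) (
  cond (Nat.ble e 402653184) (some 1733155248) (
  cond (Nat.ble e 536870912) (some 2156100055) (
  cond (Nat.ble e 805306368) (some 2907160139) (
  cond (Nat.ble e 1073741824) (some 3567046801) (
  cond (Nat.ble e 1610612736) (some 4697292483) (
  cond (Nat.ble e 2147483648) (some 5645433994) (
  cond (Nat.ble e 3221225472) (some 7163713857) (
  cond (Nat.ble e 4294967296) (some 8319729532) (
  cond (Nat.ble e 6442450944) (some 10437770529) (
  cond (Nat.ble e 8589934592) (some 13916694039) none))))))))))))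

theorem Ent.mono {e e' k : ℕ} (h : Ent e k) (h' : e' ≤ e) : Ent e' k := fun d Y hd hY =>
  h d Y (hd.trans (by exact_mod_cast h')) hY

theorem sErr_spec {e k : ℕ} (h : sErr e = some k) : Ent e k := by
  unfold sErr at h
  rcases h0 : Nat.ble e 67108864 with _ | _
  swap
  · rw [h0, cond_true] at h
    obtain rfl := Option.some.inj h
    exact ent0.mono (Nat.le_of_ble_eq_true h0)
  rw [h0, cond_false] at h
  rcases h1 : Nat.ble e 134217728 with _ | _
  swap
  · rw [h1, cond_true] at h
    obtain rfl := Option.some.inj h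
    exact ent1.mono (Nat.le_of_ble_eq_true h1)
  rw [h1, cond_false] at h
  rcases h2 : Nat.ble e 268435456 with _ | _
  swap
  · rw [h2, cond_true] at h
    obtain rfl := Option.some.inj h
    exact ent2.mono (Nat.le_of_ble_eq_true h2)
  rw [h2, cond_false] at h
  rcases h3 : Nat.ble e 402653184 with _ | _
  swap
  · rw [h3, cond_true] at h
    obtain rfl := Option.some.inj h
    exact ent3.mono (Nat.le_of_ble_eq_true h3)
  rw [h3, cond_false] at h
  rcases h4 : Nat.ble e 536870912 with _ | _
  swap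
  · rw [h4, cond_true] at h
    obtain rfl := Option.some.inj h
    exact ent4.mono (Nat.le_of_ble_eq_true h4)
  rw [h4, cond_false] at h
  rcases h5 : Nat.ble e 805306368 with _ | _
  swap
  · rw [h5, cond_true] at h
    obtain rfl := Option.some.inj h
    exact ent5.mono (Nat.le_of_ble_eq_true h5)
  rw [h5, cond_false] at h
  rcases h6 : Nat.ble e 1073741824 with _ | _
  swap
  · rw [h6, cond_true] at h
    obtain rfl := Option.some.inj h
    exact ent6.mono (Nat.le_of_ble_eq_true h6)
  rw [h6, cond_false] at h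
  rcases h7 : Nat.ble e 1610612736 with _ | _
  swap
  · rw [h7, cond_true] at h
    obtain rfl := Option.some.inj h
    exact ent7.mono (Nat.le_of_ble_eq_true h7)
  rw [h7, cond_false] at h
  rcases h8 : Nat.ble e 2147483648 with _ | _
  swap
  · rw [h8, cond_true] at h
    obtain rfl := Option.some.inj h
    exact ent8.mono (Nat.le_of_ble_eq_true h8)
  rw [h8, cond_false] at h
  rcases h9 : Nat.ble e 3221225472 with _ | _
  swap
  · rw [h9, cond_true] at h
    obtain rfl := Option.some.inj h
    exact ent9.mono (Nat.le_of_ble_eq_true h9)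
  rw [h9, cond_false] at h
  rcases h10 : Nat.ble e 4294967296 with _ | _
  swap
  · rw [h10, cond_true] at h
    obtain rfl := Option.some.inj h
    exact ent10.mono (Nat.le_of_ble_eq_true h10)
  rw [h10, cond_false] at h
  rcases h11 : Nat.ble e 6442450944 with _ | _
  swap
  · rw [h11, cond_true] at h
    obtain rfl := Option.some.inj h
    exact ent11.mono (Nat.le_of_ble_eq_true h11)
  rw [h11, cond_false] at h
  rcases h12 : Nat.ble e 8589934592 with _ | _
  · rw [h12, cond_false] at h
    exact absurd h (by simp)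
  · rw [h12, cond_true] at h
    obtain rfl := Option.some.inj h
    exact ent12.mono (Nat.le_of_ble_eq_true h12)

/-! ### positive parts -/

/-- affine form of `max x 0` -/
def reluA (a : A) : A :=
  let t := a.tot
  cond (Nat.ble (Nat.add a.q t) a.p) a
    (cond (Nat.ble (Nat.add a.p t) a.q) ⟨0, 0, 0, G.nil⟩
      (let hi := Nat.sub (Nat.add a.p t) a.q
       let lo := Nat.sub (Nat.add a.q t) a.p
       let S := Nat.div (Nat.mul hi 68719476736) (Nat.add hi lo)
       let h := Nat.div (Nat.add (Nat.div (Nat.mul (Nat.sub 68719476736 S) hi) 68719476736) 1) 2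
       ⟨Nat.add (Nat.div (Nat.mul S a.p) 68719476736) h, Nat.div (Nat.mul S a.q) 68719476736,
        Nat.add (Nat.add h 3) (Nat.add (Nat.div (Nat.mul S a.r) 68719476736) a.g.len),
        G.scl S 0 a.g⟩))

theorem reluA_spec {a : A} {ε : ℕ → ℝ} {x : ℝ} (hε : ∀ i, |ε i| ≤ 1) (hx : a.Encl ε x) :
    (reluA a).Encl ε (max x 0) := by
  have hD := DR_pos
  have tx := hx.tot hε
  unfold reluA
  simp only
  rcases h1 : Nat.ble (Nat.add a.q a.tot) a.p with _ | _
  swap
  · rw [cond_true]
    have h2 : ((a.q + a.tot : ℕ) : ℝ) ≤ a.p := by exact_mod_cast Nat.le_of_ble_eq_true h1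
    push_cast at h2
    have h3 : 0 ≤ x * DR := by linarith only [h2, tx, (abs_le.1 tx).1]
    have h4 : 0 ≤ x := nonneg_of_mul_nonneg_left h3 hD
    rw [max_eq_left h4]
    exact hx
  rw [cond_false]
  rcases h2 : Nat.ble (Nat.add a.p a.tot) a.q with _ | _
  swap
  · rw [cond_true]
    have h3 : ((a.p + a.tot : ℕ) : ℝ) ≤ a.q := by exact_mod_cast Nat.le_of_ble_eq_true h2
    push_cast at h3
    have h4 : x * DR ≤ 0 := by linarith only [h3, tx, (abs_le.1 tx).2]
    have h5 : x ≤ 0 := by
      by_contra h6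
      have := mul_pos (not_le.1 h6) hD
      linarith only [h4, this]
    rw [max_eq_right h5]
    unfold A.Encl
    simp [G.ev]
  rw [cond_false]
  have n2 : ¬ (a.p + a.tot ≤ a.q) := fun h => by
    have := Nat.ble_eq_true_of_le h
    rw [show Nat.ble (a.p + a.tot) a.q = Nat.ble (Nat.add a.p a.tot) a.q from rfl, h2] at this
    exact absurd this (by decide)
  have n1 : ¬ (a.q + a.tot ≤ a.p) := fun h => by
    have := Nat.ble_eq_true_of_le h
    rw [show Nat.ble (a.q + a.tot) a.p = Nat.ble (Nat.add a.q a.tot) a.p from rfl, h1] at this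
    exact absurd this (by decide)
  change A.Encl ⟨Nat.div (Nat.mul (Nat.div (Nat.mul (a.p + a.tot - a.q) 68719476736) ((a.p + a.tot - a.q) + (a.q + a.tot - a.p))) a.p) 68719476736 +
      ((68719476736 - (a.p + a.tot - a.q) * 68719476736 / ((a.p + a.tot - a.q) + (a.q + a.tot - a.p))) * (a.p + a.tot - a.q) / 68719476736 + 1) / 2,
    _, _, _⟩ ε (max x 0)
  set hi := a.p + a.tot - a.q with hhi
  set lo := a.q + a.tot - a.p with hlo
  have hi0 : 0 < hi := by omega
  have lo0 : 0 < lo := by omega
  have chi : (hi : ℝ) = a.p + a.tot - a.q := by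
    rw [hhi, Nat.cast_sub (by omega)]; push_cast; ring
  have clo : (lo : ℝ) = a.q + a.tot - a.p := by
    rw [hlo, Nat.cast_sub (by omega)]; push_cast; ring
  set S := hi * 68719476736 / (hi + lo) with hS
  have hSle : S ≤ 68719476736 := by
    rw [hS]
    apply Nat.div_le_of_le_mul
    nlinarith only [lo0]
  have hS1 : (S : ℝ) * (hi + lo) ≤ hi * DR := by
    have := Nat.div_mul_le_self (hi * 68719476736) (hi + lo)
    have h3 : ((S * (hi + lo) : ℕ) : ℝ) ≤ ((hi * 68719476736 : ℕ) : ℝ) := by exact_mod_cast this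
    rw [Nat.cast_mul, Nat.cast_mul, DN_cast] at h3
    push_cast at h3
    exact h3
  set K := (68719476736 - S) * hi / 68719476736 + 1 with hK
  have cS : ((68719476736 - S : ℕ) : ℝ) = DR - S := by
    rw [Nat.cast_sub hSle, DN_cast]
  have hK1 : (DR - S) * hi / DR ≤ K := by
    have := lt_ndiv ((68719476736 - S) * hi) (b := 68719476736) (by norm_num)
    rw [DN_cast, Nat.cast_mul, cS] at this
    rw [hK, Nat.cast_add, Nat.cast_one]
    exact this.le
  set h := K / 2 with hh
  have hh1 : (h : ℝ) ≤ (K : ℝ) / 2 := by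
    have := ndiv_le K 2
    exact_mod_cast this
  have hh2 : (K : ℝ) ≤ 2 * h + 1 := by
    have : K ≤ 2 * h + 1 := by omega
    exact_mod_cast this
  set α : ℝ := (S : ℝ) / DR with hα
  have α0 : 0 ≤ α := by positivity
  have α1 : α ≤ 1 := by
    rw [hα, div_le_one hD, ← DN_cast]
    exact_mod_cast hSle
  set X := x * DR with hX
  have hmax : max x 0 * DR = max X 0 := by
    rw [hX, max_mul_of_nonneg _ _ hD.le, zero_mul]
  have hXhi : X ≤ hi := by rw [chi]; linarith only [tx, (abs_le.1 tx).2]
  have hXlo : -X ≤ lo := by rw [clo]; linarith only [tx, (abs_le.1 tx).1]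
  have k0 : (1 - α) * hi ≤ K := by
    have : (1 - α) * hi = (DR - S) * hi / DR := by rw [hα]; field_simp
    rw [this]; exact hK1
  have k1 : α * lo ≤ (1 - α) * hi := by
    have h5 : α * ((hi : ℝ) + lo) ≤ hi := by
      rw [hα, div_mul_eq_mul_div, div_le_iff₀ hD]
      exact hS1
    nlinarith only [h5]
  have b1 : α * X ≤ max X 0 := by
    rcases le_total 0 X with h3 | h3
    · rw [max_eq_left h3]; nlinarith only [α1, h3]
    · rw [max_eq_right h3]; nlinarith only [α0, h3]
  have b2 : max X 0 ≤ α * X + K := by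
    rcases le_total 0 X with h3 | h3
    · rw [max_eq_left h3]
      have : (1 - α) * X ≤ (1 - α) * hi := mul_le_mul_of_nonneg_left hXhi (by linarith only [α1])
      linarith only [k0, this]
    · rw [max_eq_right h3]
      have : α * -X ≤ α * lo := mul_le_mul_of_nonneg_left hXlo α0
      linarith only [k0, k1, this]
  have b3 : |max X 0 - (α * X + h)| ≤ h + 1 := by
    rw [abs_le]; constructor <;> linarith only [b1, hh2, b2]
  have hl := G.scl_err S 0 a.g hε
  rw [Nat.cast_zero, sub_zero, ← hα] at hl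
  have p1 := ndiv_le (S * a.p) 68719476736
  have p2 := lt_ndiv (S * a.p) (b := 68719476736) (by norm_num)
  have q1 := ndiv_le (S * a.q) 68719476736
  have q2 := lt_ndiv (S * a.q) (b := 68719476736) (by norm_num)
  have r2 := lt_ndiv (S * a.r) (b := 68719476736) (by norm_num)
  rw [DN_cast, Nat.cast_mul] at p1 p2 q1 q2 r2
  have ep : (S : ℝ) * a.p / DR = α * a.p := by rw [hα]; ring
  have eq' : (S : ℝ) * a.q / DR = α * a.q := by rw [hα]; ring
  have er : (S : ℝ) * a.r / DR = α * a.r := by rw [hα]; ring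
  rw [ep] at p1 p2
  rw [eq'] at q1 q2
  rw [er] at r2
  unfold A.Encl
  change |max x 0 * DR - ((((S * a.p / 68719476736 + h : ℕ) : ℝ)) - ((S * a.q / 68719476736 : ℕ) : ℝ) +
    (G.scl S 0 a.g).ev ε)| ≤ (((h + 3) + (S * a.r / 68719476736 + a.g.len) : ℕ) : ℝ)
  rw [hmax]
  push_cast
  unfold A.Encl at hx
  have hx' : |α * (X - ((a.p : ℝ) - a.q + a.g.ev ε))| ≤ α * a.r := by
    rw [abs_mul, abs_of_nonneg α0]
    exact mul_le_mul_of_nonneg_left hx α0

  have a1 := abs_le.1 b3
  have a2 := abs_le.1 hl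
  have a3 := abs_le.1 hx'
  rw [abs_le]
  constructor
  · nlinarith only [b1, p1, q2, r2, a2, a3, a1.1, a2.1, a2.2, a3.1, a3.2]
  · nlinarith only [hh2, b2, p2, q1, r2, a2, a3, a1.1, a2.1, a2.2, a3.1, a3.2]

end Pool.Agent.Work.NumG
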