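import Pool.Agent.Work.NumU.GenA

/-!
# Numerics of `UU`: affine forms of `UU (x + i t)` at every real part
-/

namespace Pool.Agent.Work.NumG

open NumI (A G V R3 DR DR_pos DN_cast ndiv_le lt_ndiv)
open NumU (uu uu_one_sub uu_add_one uu_neg uuA uuA_spec nadd_eq nmul_eq nsub_eq ndiv_eq')

/-- affine form of `|t|` -/
def absA (a : A) : A := A.add (reluA a) (reluA a.neg)

theorem absA_spec {a : A} {ε : ℕ → ℝ} {x : ℝ} (hε : ∀ i, |ε i| ≤ 1) (hx : a.Encl ε x) :
    (absA a).Encl ε |x| := by
  have h := (reluA_spec hε hx).add (reluA_spec hε hx.neg)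
  have e : max x 0 + max (-x) 0 = |x| := by
    rcases le_total 0 x with h0 | h0
    · rw [max_eq_left h0, max_eq_right (by linarith), abs_of_nonneg h0, add_zero]
    · rw [max_eq_right h0, max_eq_left (by linarith), abs_of_nonpos h0, zero_add]
  rw [e] at h
  exact h

/-- `u + n w` -/
def addK (n : ℕ) (u w : A) : A := cond (Nat.beq n 0) u (A.add u (A.mul (A.cst (Int.ofNat n) 1) w))

/-- `u - n w` -/
def subK (n : ℕ) (u w : A) : A := cond (Nat.beq n 0) u (A.sub u (A.mul (A.cst (Int.ofNat n) 1) w))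

theorem addK_spec {u w : A} {ε : ℕ → ℝ} {x y : ℝ} (hε : ∀ i, |ε i| ≤ 1) (hx : u.Encl ε x)
    (hy : w.Encl ε y) (n : ℕ) : (addK n u w).Encl ε (x + n * y) := by
  unfold addK
  rcases h : Nat.beq n 0 with _ | _
  · rw [cond_false]
    have h1 := A.Encl_cst (Int.ofNat n) 1 ε
    have e : (((Int.ofNat n : ℤ) : ℝ) / ((1 : ℕ) : ℝ)) = n := by simp
    rw [e] at h1
    exact hx.add (h1.mul hε hy)
  · have h0 : n = 0 := Nat.eq_of_beq_eq_true h
    subst h0
    rw [cond_true]
    simpa using hx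

theorem subK_spec {u w : A} {ε : ℕ → ℝ} {x y : ℝ} (hε : ∀ i, |ε i| ≤ 1) (hx : u.Encl ε x)
    (hy : w.Encl ε y) (n : ℕ) : (subK n u w).Encl ε (x - n * y) := by
  unfold subK
  rcases h : Nat.beq n 0 with _ | _
  · rw [cond_false]
    have h1 := A.Encl_cst (Int.ofNat n) 1 ε
    have e : (((Int.ofNat n : ℤ) : ℝ) / ((1 : ℕ) : ℝ)) = n := by simp
    rw [e] at h1
    exact hx.sub (h1.mul hε hy)
  · have h0 : n = 0 := Nat.eq_of_beq_eq_true h
    subst h0
    rw [cond_true]
    simpa using hx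

/-- shift by an integer: `x - n` -/
def shD (n : ℕ) (a : A) : A := ⟨Nat.sub a.p (Nat.mul 68719476736 n), Nat.add a.q (Nat.sub (Nat.mul 68719476736 n) a.p), a.r, a.g⟩

theorem shD_eq (n : ℕ) (a : A) : shD n a =
    ⟨a.p - n * 68719476736, a.q + (n * 68719476736 - a.p), a.r, a.g⟩ := by
  unfold shD
  simp only [nmul_eq, nsub_eq, nadd_eq, Nat.mul_comm n]

theorem shD_spec {a : A} {ε : ℕ → ℝ} {x : ℝ} (hx : a.Encl ε x) (n : ℕ) :
    (shD n a).Encl ε (x - n) := by
  rw [shD_eq]
  unfold A.Encl at *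
  simp only
  have k := NumI.sub_sub_cast a.p (n * 68719476736)
  rw [Nat.cast_mul, DN_cast] at k
  rw [Nat.cast_add]
  have e : (x - n) * DR - (((a.p - n * 68719476736 : ℕ) : ℝ) -
    ((a.q : ℝ) + ((n * 68719476736 - a.p : ℕ) : ℝ)) + a.g.ev ε) =
    x * DR - ((a.p : ℝ) - a.q + a.g.ev ε) := by linarith
  rw [e]
  exact hx

/-- shift by an integer: `x + n` -/
def shU (n : ℕ) (a : A) : A := (shD n a.neg).neg

theorem shU_spec {a : A} {ε : ℕ → ℝ} {x : ℝ} (hx : a.Encl ε x) (n : ℕ) :
    (shU n a).Encl ε (x + n) := by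
  have h := (shD_spec hx.neg n).neg
  have e : -(-x - (n : ℝ)) = x + n := by ring
  rw [e] at h
  exact h

/-- the value near `0`: `-π |t| / 2` with the error `k`; `w = π |t|` -/
def strA (X T w : A) : Option A :=
  cond (Nat.ble (Nat.add (Nat.add T.p T.q) T.tot) 34359738368)
    (match sErr (Nat.add (Nat.add X.p X.q) X.tot) with
      | none => none
      | some k =>
        let v := A.mul (A.cst (Int.negSucc 0) 2) w
        some ⟨v.p, v.q, Nat.add v.r k, v.g⟩) none

theorem abs_of_tot {a : A} {ε : ℕ → ℝ} {x : ℝ} (hε : ∀ i, |ε i| ≤ 1) (hx : a.Encl ε x) :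
    |x| * DR ≤ ((Nat.add (Nat.add a.p a.q) a.tot : ℕ) : ℝ) := by
  have h := hx.tot hε
  have h2 := A.abs_pq a.p a.q
  have hD := DR_pos
  have e : |x| * DR = |x * DR| := by rw [abs_mul, abs_of_pos hD]
  rw [e]
  change |x * DR| ≤ ((a.p + a.q + a.tot : ℕ) : ℝ)
  push_cast
  have h3 := abs_add_le (x * DR - ((a.p : ℝ) - a.q)) ((a.p : ℝ) - a.q)
  rw [sub_add_cancel] at h3
  linarith

theorem strA_spec {X T w c : A} {ε : ℕ → ℝ} {x t : ℝ} (hε : ∀ i, |ε i| ≤ 1) (hx : X.Encl ε x)
    (ht : T.Encl ε t) (hw : w.Encl ε (Real.pi * |t|)) (h : strA X T w = some c) :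
    c.Encl ε (uu x t) := by
  have hD := DR_pos
  unfold strA at h
  obtain ⟨h1, h⟩ := NumU.cond_some h
  have h2 : ((Nat.add (Nat.add T.p T.q) T.tot : ℕ) : ℝ) ≤ ((34359738368 : ℕ) : ℝ) := by
    exact_mod_cast Nat.le_of_ble_eq_true h1
  have h3 := abs_of_tot hε ht
  have h4 : |t| ≤ 1 / 2 := by
    have e : ((34359738368 : ℕ) : ℝ) = 1 / 2 * DR := by unfold DR; norm_num
    rw [e] at h2
    exact le_of_mul_le_mul_right (h3.trans h2) hD
  rcases h5 : sErr (Nat.add (Nat.add X.p X.q) X.tot) with _ | k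
  · rw [h5] at h
    exact absurd h (by simp)
  rw [h5] at h
  simp only [Option.some.injEq] at h
  have h6 := sErr_spec h5 x t (abs_of_tot hε hx) h4
  have h7 := (A.Encl_cst (Int.negSucc 0) 2 ε).mul hε hw
  rw [← h]
  unfold A.Encl at h7 ⊢
  set v := A.mul (A.cst (Int.negSucc 0) 2) w
  simp only
  change _ ≤ ((v.r + k : ℕ) : ℝ)
  push_cast
  have e1 : (((Int.negSucc 0 : ℤ) : ℝ) / ((2 : ℕ) : ℝ)) = -(1 / 2) := by
    rw [Int.cast_negSucc]; norm_num
  rw [e1] at h7
  have h8 : |uu x t + Real.pi / 2 * abs t| * DR = |(uu x t + Real.pi / 2 * abs t) * DR| := by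
    rw [abs_mul, abs_of_pos hD]
  rw [h8] at h6
  have e2 : uu x t * DR - ((v.p : ℝ) - v.q + v.g.ev ε) =
      (-(1 / 2) * (Real.pi * |t|) * DR - ((v.p : ℝ) - v.q + v.g.ev ε)) +
        (uu x t + Real.pi / 2 * |t|) * DR := by ring
  rw [e2]
  exact (abs_add_le _ _).trans (add_le_add h7 h6)

/-- the better one of two results -/
def pickA (s t : Option A) : Option A := match s with
  | none => t
  | some u => cond (Nat.ble u.r 1073741824) (some u) (match t with
    | none => some u
    | some v => cond (Nat.ble u.r v.r) (some u) (some v))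

theorem pickA_spec {s t : Option A} {c : A} (h : pickA s t = some c) : s = some c ∨ t = some c := by
  unfold pickA at h
  rcases s with _ | u
  · exact Or.inr h
  · simp only at h
    rcases hc : Nat.ble u.r 1073741824 with _ | _
    · rw [hc, cond_false] at h
      rcases t with _ | v
      · exact Or.inl h
      · simp only at h
        rcases hb : Nat.ble u.r v.r with _ | _
        · rw [hb, cond_false] at h; exact Or.inr h
        · rw [hb, cond_true] at h; exact Or.inl h
    · rw [hc, cond_true] at h; exact Or.inl h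

/-- map of options -/
def mapA (f : A → A) (x : Option A) : Option A := match x with
  | none => none
  | some a => some (f a)

theorem mapA_some {f : A → A} {x : Option A} {c : A} (h : mapA f x = some c) :
    ∃ a, x = some a ∧ c = f a := by
  unfold mapA at h
  rcases x with _ | a
  · exact absurd h (by simp)
  · exact ⟨a, rfl, (Option.some.inj h).symm⟩

/-- `UU (x + i t)` for every real `x` -/
def uwA (a b : A) : Option A :=
  let X := a.nf
  let T := b.nf
  let w := A.mul A.pi (absA T)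
  cond (Nat.beq X.q 0)
    (let n := Nat.div X.p 68719476736
     let m := Nat.div (Nat.add X.p 34359738368) 68719476736
     pickA (mapA (fun u => addK n u w) (uuA (shD n X) T))
      (mapA (fun u => addK m u w) (strA (shD m X).nf T w)))
    (let n := Nat.div (Nat.add X.q 68719476735) 68719476736
     let m := Nat.div (Nat.add X.q 34359738368) 68719476736
     pickA (mapA (fun u => subK n u w) (uuA (shU n X) T))
      (mapA (fun u => subK m u w) (strA (shU m X).nf T w)))

theorem uwA_spec {a b c : A} {ε : ℕ → ℝ} {x t : ℝ} (hε : ∀ i, |ε i| ≤ 1) (hx : a.Encl ε x)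
    (ht : b.Encl ε t) (h : uwA a b = some c) : c.Encl ε (uu x t) := by
  unfold uwA at h
  simp only at h
  have hX := hx.nf
  have hT := ht.nf
  have hw := (A.Encl_pi ε).mul hε (absA_spec hε hT)
  have eD : ∀ n : ℕ, uu x t = uu (x - n) t + n * (Real.pi * |t|) := by
    intro n
    rw [← uu_add_nat, sub_add_cancel]
  have eU : ∀ n : ℕ, uu x t = uu (x + n) t - n * (Real.pi * |t|) := by
    intro n
    rw [uu_add_nat]
    ring
  rcases h1 : Nat.beq a.nf.q 0 with _ | _
  · rw [h1, cond_false] at h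
    rcases pickA_spec h with h | h
    · obtain ⟨u, hu, rfl⟩ := mapA_some h
      rw [eU (Nat.div (Nat.add a.nf.q 68719476735) 68719476736)]
      exact subK_spec hε (uuA_spec hε (shU_spec hX _) hT hu) hw _
    · obtain ⟨u, hu, rfl⟩ := mapA_some h
      rw [eU (Nat.div (Nat.add a.nf.q 34359738368) 68719476736)]
      exact subK_spec hε (strA_spec hε (shU_spec hX _).nf hT hw hu) hw _
  · rw [h1, cond_true] at h
    rcases pickA_spec h with h | h
    · obtain ⟨u, hu, rfl⟩ := mapA_some h
      rw [eD (Nat.div a.nf.p 68719476736)]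
      exact addK_spec hε (uuA_spec hε (shD_spec hX _) hT hu) hw _
    · obtain ⟨u, hu, rfl⟩ := mapA_some h
      rw [eD (Nat.div (Nat.add a.nf.p 34359738368) 68719476736)]
      exact addK_spec hε (strA_spec hε (shD_spec hX _).nf hT hw hu) hw _

end Pool.Agent.Work.NumG
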