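import Pool.Agent.Work.NumX.B

/-!
# Numerics with positive parts and values of `UU` at every real part: expressions and checker

Expressions: `var`, `q`, `pi`, `add`, `sub`, `mul`, `neg`, `sq`, `relu` (`max x 0`), `uw x t`
(`UU (x + i t)`, every real `x`, `|t| ≤ 1/2` near the integers), `lt` (let), `emb` (an expression of
`NumU`), `ux x t` (`UU (x + i t)` again, also `|t| > 1/2` and better near the integers), `yw x t`
(`YY (x + i t)`, the vertical derivative).  Search: `#eval cert es fuel box`; proof: `chkT` with `decide +kernel`, then `chkT_sound`.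
-/

namespace Pool.Agent.Work.NumG

open NumI (A G V DR lkR lkA op0 op1 op2 op3 op0_some op1_some op2_some op3_some Encl_lk posO posA
  posA_spec mkEnv mkEnv_spec eps_le setL setR set_split best gradO lkR_zero lkR_one lkR_succ)
open NumU (uu)

/-- expressions -/
inductive E where
  | var : ℕ → E
  | q : ℤ → ℕ → E
  | pi : E
  | add : E → E → E
  | sub : E → E → E
  | mul : E → E → E
  | neg : E → E
  | sq : E → E
  | relu : E → E
  | uw : E → E → E
  | lt : E → E → E
  | emb : NumU.E → E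
  | ux : E → E → E
  | yw : E → E → E

namespace E

/-- the real value -/
noncomputable def val : E → List ℝ → ℝ
  | var i, xs => lkR xs i
  | q n d, _ => (n : ℝ) / d
  | pi, _ => Real.pi
  | add a b, xs => a.val xs + b.val xs
  | sub a b, xs => a.val xs - b.val xs
  | mul a b, xs => a.val xs * b.val xs
  | neg a, xs => -a.val xs
  | sq a, xs => (a.val xs) ^ 2
  | relu a, xs => max (a.val xs) 0
  | uw a b, xs => uu (a.val xs) (b.val xs)
  | lt a b, xs => b.val (xs ++ [a.val xs])
  | emb e, xs => e.val xs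
  | ux a b, xs => uu (a.val xs) (b.val xs)
  | yw a b, xs => NumX.yy (a.val xs) (b.val xs)

/-- maximum -/
def mx (a b : E) : E := add b (relu (sub a b))
/-- minimum -/
def mn (a b : E) : E := sub a (relu (sub a b))
/-- absolute value -/
def ab (a : E) : E := add (relu a) (relu (neg a))

theorem mx_val (a b : E) (xs : List ℝ) : (mx a b).val xs = max (a.val xs) (b.val xs) := by
  simp only [mx, val]
  rcases le_total (a.val xs) (b.val xs) with h | h
  · rw [max_eq_right h, max_eq_right (by linarith only [h]), add_zero]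
  · rw [max_eq_left h, max_eq_left (by linarith only [h])]
    ring

theorem mn_val (a b : E) (xs : List ℝ) : (mn a b).val xs = min (a.val xs) (b.val xs) := by
  simp only [mn, val]
  rcases le_total (a.val xs) (b.val xs) with h | h
  · rw [min_eq_left h, max_eq_right (by linarith only [h]), sub_zero]
  · rw [min_eq_right h, max_eq_left (by linarith only [h])]
    ring

theorem ab_val (a : E) (xs : List ℝ) : (ab a).val xs = |a.val xs| := by
  simp only [ab, val]
  rcases le_total 0 (a.val xs) with h0 | h0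
  · rw [max_eq_left h0, max_eq_right (by linarith only [h0]), abs_of_nonneg h0, add_zero]
  · rw [max_eq_right h0, max_eq_left (by linarith only [h0]), abs_of_nonpos h0, zero_add]

end E

/-- evaluation with affine forms -/
def E.ev : E → List A → Option A
  | E.var i, xs => some (lkA xs i)
  | E.q n d, _ => some (A.cst n d)
  | E.pi, _ => some A.pi
  | E.add a b, xs => op2 A.add (a.ev xs) (b.ev xs)
  | E.sub a b, xs => op2 A.sub (a.ev xs) (b.ev xs)
  | E.mul a b, xs => op2 A.mul (a.ev xs) (b.ev xs)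
  | E.neg a, xs => op1 A.neg (a.ev xs)
  | E.sq a, xs => op1 A.sqn (a.ev xs)
  | E.relu a, xs => op1 reluA (a.ev xs)
  | E.uw a b, xs => op3 uwA (a.ev xs) (b.ev xs)
  | E.lt a b, xs => match a.ev xs with
    | none => none
    | some c => b.ev (xs ++ [c])
  | E.emb e, xs => NumU.E.ev e xs
  | E.ux a b, xs => op3 uxA (a.ev xs) (b.ev xs)
  | E.yw a b, xs => op3 ywA (a.ev xs) (b.ev xs)

theorem E.ev_sound {ε : ℕ → ℝ} (hε : ∀ i, |ε i| ≤ 1) : ∀ (e : E) {as : List A} {xs : List ℝ} {c : A},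
    List.Forall₂ (fun a x => a.Encl ε x) as xs → e.ev as = some c → c.Encl ε (e.val xs)
  | E.var i, as, xs, c, h, he => by
    have := Option.some.inj he
    rw [← this]; exact Encl_lk h i
  | E.q n d, as, xs, c, h, he => by
    have := Option.some.inj he
    rw [← this]; exact A.Encl_cst n d ε
  | E.pi, as, xs, c, h, he => by
    have := Option.some.inj he
    rw [← this]; exact A.Encl_pi ε
  | E.add a b, as, xs, c, h, he => by
    obtain ⟨u, v, hu, hv, rfl⟩ := op2_some he
    exact (E.ev_sound hε a h hu).add (E.ev_sound hε b h hv)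
  | E.sub a b, as, xs, c, h, he => by
    obtain ⟨u, v, hu, hv, rfl⟩ := op2_some he
    exact (E.ev_sound hε a h hu).sub (E.ev_sound hε b h hv)
  | E.mul a b, as, xs, c, h, he => by
    obtain ⟨u, v, hu, hv, rfl⟩ := op2_some he
    exact (E.ev_sound hε a h hu).mul hε (E.ev_sound hε b h hv)
  | E.neg a, as, xs, c, h, he => by
    obtain ⟨u, hu, rfl⟩ := op1_some he
    exact (E.ev_sound hε a h hu).neg
  | E.sq a, as, xs, c, h, he => by
    obtain ⟨u, hu, rfl⟩ := op1_some he
    exact ((E.ev_sound hε a h hu).nf).sq hε (A.nf_normal u)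
  | E.relu a, as, xs, c, h, he => by
    obtain ⟨u, hu, rfl⟩ := op1_some he
    exact reluA_spec hε (E.ev_sound hε a h hu)
  | E.uw a b, as, xs, c, h, he => by
    obtain ⟨u, v, hu, hv, hc⟩ := op3_some he
    exact uwA_spec hε (E.ev_sound hε a h hu) (E.ev_sound hε b h hv) hc
  | E.lt a b, as, xs, c, h, he => by
    unfold E.ev at he
    rcases ha : a.ev as with _ | u
    · rw [ha] at he; exact absurd he (by simp)
    · rw [ha] at he
      have h1 := E.ev_sound hε a h ha
      have h2 : List.Forall₂ (fun a x => a.Encl ε x) (as ++ [u]) (xs ++ [a.val xs]) :=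
        List.rel_append h (List.Forall₂.cons h1 List.Forall₂.nil)
      exact E.ev_sound hε b h2 he
  | E.emb e, as, xs, c, h, he => NumU.E.ev_sound hε e h he
  | E.ux a b, as, xs, c, h, he => by
    obtain ⟨u, v, hu, hv, hc⟩ := op3_some he
    exact uxA_spec hε (E.ev_sound hε a h hu) (E.ev_sound hε b h hv) hc
  | E.yw a b, as, xs, c, h, he => by
    obtain ⟨u, v, hu, hv, hc⟩ := op3_some he
    exact ywA_spec hε (E.ev_sound hε a h hu) (E.ev_sound hε b h hv) hc

/-! ### the checker with a certificate -/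

/-- the expression number `i` -/
def nth : List E → ℕ → E
  | [], _ => E.q 0 1
  | e :: _, 0 => e
  | _ :: es, n + 1 => nth es n

theorem nth_spec : ∀ (es : List E) (i : ℕ) {xs : List ℝ}, 0 < (nth es i).val xs →
    ∃ e ∈ es, 0 < e.val xs
  | [], i, xs, h => by
    simp only [nth, E.val] at h
    norm_num at h
  | e :: es, 0, xs, h => ⟨e, List.mem_cons_self, h⟩
  | e :: es, i + 1, xs, h => by
    obtain ⟨e', he, hp⟩ := nth_spec es i h
    exact ⟨e', List.mem_cons_of_mem _ he, hp⟩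

/-- `0`: failure, `c + 1`: success, `c` is the rest of the certificate -/
def runT (es : List E) : ℕ → ℕ → List V → ℕ
  | 0, _, _ => 0
  | n + 1, c, vs =>
    cond (Nat.ble 8 (Nat.mod c 16))
      (cond (posO ((nth es (Nat.sub (Nat.mod c 16) 8)).ev (mkEnv 0 vs)))
        (Nat.add (Nat.div c 16) 1) 0)
      (match runT es n (Nat.div c 16) (setL (Nat.mod c 16) vs) with
        | 0 => 0
        | c' + 1 => runT es n c' (setR (Nat.mod c 16) vs))

/-- the checker with the certificate `c` -/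
def chkT (es : List E) (n c : ℕ) (vs : List V) : Bool := Nat.ble 1 (runT es n c vs)

theorem leaf_sound {e : E} {vs : List V} (h : posO (e.ev (mkEnv 0 vs)) = true)
    {xs : List ℝ} (hx : List.Forall₂ V.Mem vs xs) : 0 < e.val xs := by
  have hε := eps_le hx
  rcases h2 : e.ev (mkEnv 0 vs) with _ | c
  · rw [h2] at h; exact absurd h (by simp [posO])
  · rw [h2] at h
    exact posA_spec hε (E.ev_sound hε e (mkEnv_spec hx (fun n => rfl)) h2) h

theorem runT_sound {es : List E} : ∀ {n c : ℕ} {vs : List V}, runT es n c vs ≠ 0 →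
    ∀ {xs : List ℝ}, List.Forall₂ V.Mem vs xs → ∃ e ∈ es, 0 < e.val xs
  | 0, c, vs, h, xs, hx => absurd rfl h
  | n + 1, c, vs, h, xs, hx => by
    unfold runT at h
    rcases hb : Nat.ble 8 (Nat.mod c 16) with _ | _
    · rw [hb, cond_false] at h
      rcases h1 : runT es n (Nat.div c 16) (setL (Nat.mod c 16) vs) with _ | c'
      · rw [h1] at h; exact absurd rfl h
      · rw [h1] at h
        rcases set_split (i := Nat.mod c 16) hx with h3 | h3
        · exact runT_sound (by rw [h1]; exact Nat.succ_ne_zero _) h3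
        · exact runT_sound h h3
    · rw [hb, cond_true] at h
      rcases hp : posO ((nth es (Nat.sub (Nat.mod c 16) 8)).ev (mkEnv 0 vs)) with _ | _
      · rw [hp, cond_false] at h; exact absurd rfl h
      · exact nth_spec es _ (leaf_sound hp hx)

theorem chkT_sound {es : List E} {n c : ℕ} {vs : List V} (h : chkT es n c vs = true)
    {xs : List ℝ} (hx : List.Forall₂ V.Mem vs xs) : ∃ e ∈ es, 0 < e.val xs := by
  refine runT_sound (n := n) (c := c) ?_ hx
  unfold chkT at h
  have := Nat.le_of_ble_eq_true h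
  omega

theorem chkT1 {es : List E} {fuel c N : ℕ} {l1 h1 : ℤ} {k1 : ℕ}
    (h : chkT es fuel c [V.of N l1 h1 k1] = true) (hN : 0 < N)
    {x : ℝ}
    (a1 : (l1 : ℝ) / N ≤ x) (b1 : x ≤ (h1 : ℝ) / N) : ∃ e ∈ es, 0 < e.val [x] :=
  chkT_sound h (List.Forall₂.cons (V.of_mem hN a1 b1) List.Forall₂.nil)

theorem chkT2 {es : List E} {fuel c N : ℕ} {l1 h1 l2 h2 : ℤ} {k1 k2 : ℕ}
    (h : chkT es fuel c [V.of N l1 h1 k1, V.of N l2 h2 k2] = true) (hN : 0 < N)
    {x y : ℝ}
    (a1 : (l1 : ℝ) / N ≤ x) (b1 : x ≤ (h1 : ℝ) / N)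
    (a2 : (l2 : ℝ) / N ≤ y) (b2 : y ≤ (h2 : ℝ) / N) : ∃ e ∈ es, 0 < e.val [x, y] :=
  chkT_sound h (List.Forall₂.cons (V.of_mem hN a1 b1) (List.Forall₂.cons (V.of_mem hN a2 b2) List.Forall₂.nil))

theorem chkT3 {es : List E} {fuel c N : ℕ} {l1 h1 l2 h2 l3 h3 : ℤ} {k1 k2 k3 : ℕ}
    (h : chkT es fuel c [V.of N l1 h1 k1, V.of N l2 h2 k2, V.of N l3 h3 k3] = true) (hN : 0 < N)
    {x y z : ℝ}
    (a1 : (l1 : ℝ) / N ≤ x) (b1 : x ≤ (h1 : ℝ) / N)
    (a2 : (l2 : ℝ) / N ≤ y) (b2 : y ≤ (h2 : ℝ) / N)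
    (a3 : (l3 : ℝ) / N ≤ z) (b3 : z ≤ (h3 : ℝ) / N) : ∃ e ∈ es, 0 < e.val [x, y, z] :=
  chkT_sound h (List.Forall₂.cons (V.of_mem hN a1 b1) (List.Forall₂.cons (V.of_mem hN a2 b2) (List.Forall₂.cons (V.of_mem hN a3 b3) List.Forall₂.nil)))

theorem chkT4 {es : List E} {fuel c N : ℕ} {l1 h1 l2 h2 l3 h3 l4 h4 : ℤ} {k1 k2 k3 k4 : ℕ}
    (h : chkT es fuel c [V.of N l1 h1 k1, V.of N l2 h2 k2, V.of N l3 h3 k3, V.of N l4 h4 k4] = true) (hN : 0 < N)
    {x y z w : ℝ}
    (a1 : (l1 : ℝ) / N ≤ x) (b1 : x ≤ (h1 : ℝ) / N)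
    (a2 : (l2 : ℝ) / N ≤ y) (b2 : y ≤ (h2 : ℝ) / N)
    (a3 : (l3 : ℝ) / N ≤ z) (b3 : z ≤ (h3 : ℝ) / N)
    (a4 : (l4 : ℝ) / N ≤ w) (b4 : w ≤ (h4 : ℝ) / N) : ∃ e ∈ es, 0 < e.val [x, y, z, w] :=
  chkT_sound h (List.Forall₂.cons (V.of_mem hN a1 b1) (List.Forall₂.cons (V.of_mem hN a2 b2) (List.Forall₂.cons (V.of_mem hN a3 b3) (List.Forall₂.cons (V.of_mem hN a4 b4) List.Forall₂.nil))))

theorem chkT5 {es : List E} {fuel c N : ℕ} {l1 h1 l2 h2 l3 h3 l4 h4 l5 h5 : ℤ} {k1 k2 k3 k4 k5 : ℕ}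
    (h : chkT es fuel c [V.of N l1 h1 k1, V.of N l2 h2 k2, V.of N l3 h3 k3, V.of N l4 h4 k4, V.of N l5 h5 k5] = true) (hN : 0 < N)
    {x y z w u : ℝ}
    (a1 : (l1 : ℝ) / N ≤ x) (b1 : x ≤ (h1 : ℝ) / N)
    (a2 : (l2 : ℝ) / N ≤ y) (b2 : y ≤ (h2 : ℝ) / N)
    (a3 : (l3 : ℝ) / N ≤ z) (b3 : z ≤ (h3 : ℝ) / N)
    (a4 : (l4 : ℝ) / N ≤ w) (b4 : w ≤ (h4 : ℝ) / N)
    (a5 : (l5 : ℝ) / N ≤ u) (b5 : u ≤ (h5 : ℝ) / N) : ∃ e ∈ es, 0 < e.val [x, y, z, w, u] :=
  chkT_sound h (List.Forall₂.cons (V.of_mem hN a1 b1) (List.Forall₂.cons (V.of_mem hN a2 b2) (List.Forall₂.cons (V.of_mem hN a3 b3) (List.Forall₂.cons (V.of_mem hN a4 b4) (List.Forall₂.cons (V.of_mem hN a5 b5) List.Forall₂.nil)))))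

theorem chkT6 {es : List E} {fuel c N : ℕ} {l1 h1 l2 h2 l3 h3 l4 h4 l5 h5 l6 h6 : ℤ} {k1 k2 k3 k4 k5 k6 : ℕ}
    (h : chkT es fuel c [V.of N l1 h1 k1, V.of N l2 h2 k2, V.of N l3 h3 k3, V.of N l4 h4 k4, V.of N l5 h5 k5, V.of N l6 h6 k6] = true) (hN : 0 < N)
    {x y z w u v : ℝ}
    (a1 : (l1 : ℝ) / N ≤ x) (b1 : x ≤ (h1 : ℝ) / N)
    (a2 : (l2 : ℝ) / N ≤ y) (b2 : y ≤ (h2 : ℝ) / N)
    (a3 : (l3 : ℝ) / N ≤ z) (b3 : z ≤ (h3 : ℝ) / N)
    (a4 : (l4 : ℝ) / N ≤ w) (b4 : w ≤ (h4 : ℝ) / N)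
    (a5 : (l5 : ℝ) / N ≤ u) (b5 : u ≤ (h5 : ℝ) / N)
    (a6 : (l6 : ℝ) / N ≤ v) (b6 : v ≤ (h6 : ℝ) / N) : ∃ e ∈ es, 0 < e.val [x, y, z, w, u, v] :=
  chkT_sound h (List.Forall₂.cons (V.of_mem hN a1 b1) (List.Forall₂.cons (V.of_mem hN a2 b2) (List.Forall₂.cons (V.of_mem hN a3 b3) (List.Forall₂.cons (V.of_mem hN a4 b4) (List.Forall₂.cons (V.of_mem hN a5 b5) (List.Forall₂.cons (V.of_mem hN a6 b6) List.Forall₂.nil))))))

theorem pos_of {e : E} {xs : List ℝ} (h : ∃ e' ∈ [e], 0 < e'.val xs) : 0 < e.val xs := by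
  obtain ⟨e', he, hp⟩ := h
  simp only [List.mem_singleton] at he
  rwa [he] at hp

/-! ### search (for `#eval` only) -/

/-- first alternative which is positive -/
def fstPos (env : List A) : List E → ℕ → Option ℕ
  | [], _ => none
  | e :: es, i => if posO (e.ev env) then some i else fstPos env es (i + 1)

/-- best lower bound (negative), `none` if nothing can be evaluated -/
def lowB (env : List A) : List E → Option ℤ
  | [] => none
  | e :: es =>
    let r := lowB env es
    match e.ev env with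
    | none => r
    | some a =>
      let s : ℤ := (a.p : ℤ) - a.q - a.tot
      match r with
      | none => some s
      | some t => some (max s t)

/-- score of a box: `0` if it is finished, otherwise the lower bound of the first `m` expressions -/
def scoreB (m : ℕ) (es : List E) (vs : List V) : ℤ :=
  match fstPos (mkEnv 0 vs) es 0 with
  | some _ => 0
  | none =>
    match lowB (mkEnv 0 vs) (es.take m) with
    | none => -(2 ^ 60)
    | some s => s

/-- the variable with the best score of the two halves -/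
def pick (m : ℕ) (es : List E) (vs : List V) : ℕ :=
  let r := (List.range vs.length).foldl (fun (b : ℕ × ℤ × ℕ) i =>
    let l := setL i vs
    let s := scoreB m es l + scoreB m es (setR i vs)
    let w := match vs[i]? with
      | some v => v.b - v.a
      | none => 0
    if b.2.1 < s ∨ (b.2.1 = s ∧ b.2.2 < w) then (i, s, w) else b) (0, -(2 ^ 62), 0)
  r.1

/-- digits of the certificate in preorder -/
def digs (m : ℕ) (es : List E) : ℕ → List V → Option (List ℕ)
  | 0, _ => none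
  | n + 1, vs =>
    match fstPos (mkEnv 0 vs) es 0 with
    | some i => some [8 + i]
    | none =>
      let i := pick m es vs
      match digs m es n (setL i vs) with
      | none => none
      | some l =>
        match digs m es n (setR i vs) with
        | none => none
        | some r => some (i :: (l ++ r))

/-- number of leaves and the certificate; `m` the number of main expressions -/
def cert (es : List E) (fuel : ℕ) (vs : List V) (m : ℕ := 1) : Option (ℕ × ℕ) :=
  (digs m es fuel vs).map fun l =>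
    ((l.filter fun d => 8 ≤ d).length, l.foldr (fun d c => d + 16 * c) 0)

end Pool.Agent.Work.NumG
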