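import Pool.Agent.Work.NumU.GenF

/-!
# Numerics with `UU`, positive parts and slopes

The engine of `NumG` (fast version, four variables) with the node `lnB a t` (`NumI.lnB`, the slope of
`t ↦ UU (a + i t)` is `-lnB a t` for `0 < a < 1`).
-/

namespace Pool.Agent.Work.NumL

open NumI (V F okB okB_sound TestOk posO')
open NumU (uu)
open NumG (reluF reluF_encl uwF uwF_encl)

/-- expressions -/
inductive E where
  | var : ℕ → E
  | q : ℤ → ℕ → E
  | pi : E
  | add : E → E → E
  | sub : E → E → E
  | mul : E → E → E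
  | neg : E → E
  | sq : E → E
  | relu : E → E
  | uw : E → E → E
  | lnB : E → E → E

namespace E

/-- the real value -/
noncomputable def val : E → List ℝ → ℝ
  | var i, xs => NumI.lkR xs i
  | q n d, _ => (n : ℝ) / d
  | pi, _ => Real.pi
  | add a b, xs => a.val xs + b.val xs
  | sub a b, xs => a.val xs - b.val xs
  | mul a b, xs => a.val xs * b.val xs
  | neg a, xs => -a.val xs
  | sq a, xs => (a.val xs) ^ 2
  | relu a, xs => max (a.val xs) 0
  | uw a b, xs => uu (a.val xs) (b.val xs)
  | lnB a b, xs => NumI.lnB (a.val xs) (b.val xs)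

/-- maximum -/
def mx (a b : E) : E := add b (relu (sub a b))
/-- minimum -/
def mn (a b : E) : E := sub a (relu (sub a b))
/-- absolute value -/
def ab (a : E) : E := add (relu a) (relu (neg a))

theorem mx_val (a b : E) (xs : List ℝ) : (mx a b).val xs = max (a.val xs) (b.val xs) := by
  simp only [mx, val]
  rcases le_total (a.val xs) (b.val xs) with h | h
  · rw [max_eq_right h, max_eq_right (by linarith only [h]), add_zero]
  · rw [max_eq_left h, max_eq_left (by linarith only [h])]
    ring

theorem mn_val (a b : E) (xs : List ℝ) : (mn a b).val xs = min (a.val xs) (b.val xs) := by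
  simp only [mn, val]
  rcases le_total (a.val xs) (b.val xs) with h | h
  · rw [min_eq_left h, max_eq_right (by linarith only [h]), sub_zero]
  · rw [min_eq_right h, max_eq_left (by linarith only [h])]
    ring

theorem ab_val (a : E) (xs : List ℝ) : (ab a).val xs = |a.val xs| := by
  simp only [ab, val]
  rcases le_total (a.val xs) 0 with h | h
  · rw [abs_of_nonpos h, max_eq_right h, max_eq_left (by linarith only [h]), zero_add]
  · rw [abs_of_nonneg h, max_eq_left h, max_eq_right (by linarith only [h]), add_zero]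

end E

/-! ### evaluation -/

/-- evaluation by the recursor -/
noncomputable def E.evR (e : E) : List F → Option F :=
  E.rec (motive := fun _ => List F → Option F)
    (fun i xs => some (NumI.lkF xs i))
    (fun n d _ => some (F.cst n d))
    (fun _ => some F.pi)
    (fun _ _ a b xs => NumI.o2 F.add (a xs) (b xs))
    (fun _ _ a b xs => NumI.o2 F.sub (a xs) (b xs))
    (fun _ _ a b xs => NumI.o2 F.mul (a xs) (b xs))
    (fun _ a xs => NumI.o1 F.neg (a xs))
    (fun _ a xs => NumI.o1 F.sqn (a xs))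
    (fun _ a xs => NumI.o1 reluF (a xs))
    (fun _ _ a b xs => NumI.o3 uwF (a xs) (b xs))
    (fun _ _ a b xs => NumI.o3 F.lnB (a xs) (b xs)) e

theorem E.evR_sound {ε : ℕ → ℝ} (hε : ∀ i, |ε i| ≤ 1) (e : E) : ∀ {fs : List F} {xs : List ℝ}
    {c : F}, List.Forall₂ (fun f x => F.Encl f ε x) fs xs → e.evR fs = some c →
      c.Encl ε (e.val xs) := by
  induction e with
  | var i =>
    intro fs xs c h he
    have := Option.some.inj he
    rw [← this]; exact NumI.lkF_encl h i
  | q n d =>
    intro fs xs c h he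
    have := Option.some.inj he
    rw [← this]; exact F.cst_encl n d ε
  | pi =>
    intro fs xs c h he
    have := Option.some.inj he
    rw [← this]; exact F.pi_encl ε
  | add a b iha ihb =>
    intro fs xs c h he
    obtain ⟨u, v, hu, hv, rfl⟩ := NumI.o2_some he
    exact F.Encl.add (iha h hu) (ihb h hv)
  | sub a b iha ihb =>
    intro fs xs c h he
    obtain ⟨u, v, hu, hv, rfl⟩ := NumI.o2_some he
    exact F.Encl.sub (iha h hu) (ihb h hv)
  | mul a b iha ihb =>
    intro fs xs c h he
    obtain ⟨u, v, hu, hv, rfl⟩ := NumI.o2_some he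
    exact F.Encl.mul hε (iha h hu) (ihb h hv)
  | neg a iha =>
    intro fs xs c h he
    obtain ⟨u, hu, rfl⟩ := NumI.o1_some he
    exact F.Encl.neg (iha h hu)
  | sq a iha =>
    intro fs xs c h he
    obtain ⟨u, hu, rfl⟩ := NumI.o1_some he
    exact F.Encl.sqn hε (iha h hu)
  | relu a iha =>
    intro fs xs c h he
    obtain ⟨u, hu, rfl⟩ := NumI.o1_some he
    exact reluF_encl hε (iha h hu)
  | uw a b iha ihb =>
    intro fs xs c h he
    obtain ⟨u, v, hu, hv, hc⟩ := NumI.o3_some he
    exact uwF_encl hε (iha h hu) (ihb h hv) hc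
  | lnB a b iha ihb =>
    intro fs xs c h he
    obtain ⟨u, v, hu, hv, hc⟩ := NumI.o3_some he
    exact F.Encl.lnB hε (iha h hu) (ihb h hv) hc

/-! ### the checker: certificates of `NumI.Tree` -/

/-- the expression number `k` -/
noncomputable def nthR (es : List E) : ℕ → E :=
  List.rec (motive := fun _ => ℕ → E) (fun _ => E.q 0 1)
    (fun x _ ih i => Nat.rec (motive := fun _ => E) x (fun j _ => ih j) i) es

theorem nthR_spec : ∀ (es : List E) (i : ℕ) {xs : List ℝ}, 0 < (nthR es i).val xs →
    ∃ e ∈ es, 0 < e.val xs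
  | [], i, xs, h => by
    change 0 < (E.q 0 1).val xs at h
    simp only [E.val] at h
    norm_num at h
  | e :: es, 0, xs, h => ⟨e, List.mem_cons_self, h⟩
  | e :: es, i + 1, xs, h => by
    obtain ⟨e', he, hp⟩ := nthR_spec es i h
    exact ⟨e', List.mem_cons_of_mem _ he, hp⟩

/-- the tests: the expression number `k` is positive -/
noncomputable def tst (es : List E) (k : ℕ) (X Y Z W : F) : Bool :=
  posO' ((nthR es k).evR [X, Y, Z, W])

theorem tst_ok (es : List E) : TestOk (tst es) fun x y z w => ∃ e ∈ es, 0 < e.val [x, y, z, w] := by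
  intro k X Y Z W ε x y z w hε hX hY hZ hW h
  unfold tst at h
  rcases h1 : (nthR es k).evR [X, Y, Z, W] with _ | c
  · rw [h1] at h
    exact absurd h (by simp [posO'])
  · rw [h1] at h
    refine nthR_spec es k (NumI.posF_spec hε (E.evR_sound hε _ ?_ h1) h)
    exact List.Forall₂.cons hX (List.Forall₂.cons hY (List.Forall₂.cons hZ
      (List.Forall₂.cons hW List.Forall₂.nil)))

/-- the checker on a box `[(l - o) / N, (h - o) / N]` of four variables -/
noncomputable def chkF (es : List E) (N o0 o1 o2 o3 fuel l0 h0 l1 h1 l2 h2 l3 h3 c : ℕ) : Bool :=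
  okB N (tst es) o0 o1 o2 o3 fuel l0 h0 l1 h1 l2 h2 l3 h3 c

theorem chkF4 {es : List E} {N o0 o1 o2 o3 fuel l0 h0 l1 h1 l2 h2 l3 h3 c : ℕ}
    (h : chkF es N o0 o1 o2 o3 fuel l0 h0 l1 h1 l2 h2 l3 h3 c = true) (hN : 0 < N) {x y z w : ℝ}
    (hx : ((l0 : ℝ) - o0) / N ≤ x) (hx' : x ≤ ((h0 : ℝ) - o0) / N)
    (hy : ((l1 : ℝ) - o1) / N ≤ y) (hy' : y ≤ ((h1 : ℝ) - o1) / N)
    (hz : ((l2 : ℝ) - o2) / N ≤ z) (hz' : z ≤ ((h2 : ℝ) - o2) / N)
    (hw : ((l3 : ℝ) - o3) / N ≤ w) (hw' : w ≤ ((h3 : ℝ) - o3) / N) :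
    ∃ e ∈ es, 0 < e.val [x, y, z, w] :=
  okB_sound hN (tst_ok es) h hx hx' hy hy' hz hz' hw hw'

end Pool.Agent.Work.NumL
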